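import Mathlib

/-! Parity of the type of numerical semigroups, definitions and rows (helper60).

THEOREM. `O2 g`, `E2 g`: numbers of numerical semigroups `S` of genus `g` with Frobenius number
smaller than twice the multiplicity and with odd, resp. even type. There is `C` with
`|O2 g - E2 g| ≤ C (39/25) ^ g` for all `g`, while `O2 g + E2 g = fib (g + 1)`. Hence the numbers
`O g`, `E g` of all semigroups of genus `g` of odd, even type are both at least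
`fib (g + 1) / 2 - C (39/25) ^ g`.

PROOF. `S` is given by `N = m - 1` and `A = {a ∈ [1, N] : m + a ∈ S}` (any subset), genus
`2 N - |A|`, type `N - |A| + #good`, `x ∈ A` good iff `x + a ∈ A` for all `a ∈ A` with `x + a ≤ N`.
Weights: `z + z ^ 2 = 1`, `A` has weight `z ^ (2 N - |A|)`: independent letters. If `x` is good then
`a ∈ A → a + x ∈ A` for the `min (x, N - x)` disjoint pairs `(a, a + x)`, `1 ≤ a ≤ min (x, N - x)`:
weight at most `(z ^ 2 + z ^ 3 + z ^ 4) ^ min (x, N - x)`. So few `A` have a good `x` in `[s, N - s]`.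
If there is none, there is no good `x ≤ N - s` (multiples of a good `x` are good), and the good
`x > N - s` depend only on the first `s` and the last `s` places; for fixed first and last `s` places
the sum of `(-1) ^ (number of missing places)` over the middle is `0` or `± 1`: total at most `4 ^ s`. -/

set_option autoImplicit false

namespace Pool.Agent.Lib.MP_eee9c1_co.TP

open Finset

/-! ## semigroups -/

/-- numerical semigroup -/
def IsNS (S : Set ℕ) : Prop := 0 ∈ S ∧ (∀ a ∈ S, ∀ b ∈ S, a + b ∈ S) ∧ Sᶜ.Finite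

/-- genus -/
noncomputable def genus (S : Set ℕ) : ℕ := Sᶜ.ncard

/-- pseudo-Frobenius numbers -/
def PF (S : Set ℕ) : Set ℕ := {x | x ∉ S ∧ ∀ s ∈ S, s ≠ 0 → x + s ∈ S}

/-- type -/
noncomputable def typ (S : Set ℕ) : ℕ := (PF S).ncard

/-- every `n ≥ 2 m`, `m` the multiplicity, belongs to `S` -/
def Shallow (S : Set ℕ) : Prop := ∀ s ∈ S, s ≠ 0 → ∀ n, 2 * s ≤ n → n ∈ S

/-! ## configurations -/

/-- pairs `(N, A)`, `A ⊆ [1, N]`, `2 N - |A| = g` -/
def conf (g : ℕ) : Finset (ℕ × Finset ℕ) :=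
  ((range (g + 1)) ×ˢ ((Icc 1 g).powerset)).filter
    (fun c => c.2 ⊆ Icc 1 c.1 ∧ 2 * c.1 = g + c.2.card)

/-- good elements -/
def good (N : ℕ) (A : Finset ℕ) : Finset ℕ := A.filter (fun x => ∀ a ∈ A, x + a ≤ N → x + a ∈ A)

/-- the semigroup of `(N, A)` -/
def Sg (c : ℕ × Finset ℕ) : Set ℕ :=
  {n | n = 0 ∨ n = c.1 + 1 ∨ (∃ a ∈ c.2, n = c.1 + 1 + a) ∨ 2 * (c.1 + 1) ≤ n}

/-- ROW W (weights), induction on `J`, `sum_powerset_insert` twice; base `(z ^ 2 + z) ^ |I| = 1`. -/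
def StW : Prop := ∀ z : ℝ, z + z ^ 2 = 1 → ∀ (x : ℕ) (J I : Finset ℕ), J ⊆ I →
  (J.image (fun a => a + x)) ⊆ I → Disjoint J (J.image (fun a => a + x)) →
  ∑ A ∈ I.powerset, (if ∀ a ∈ J, a ∈ A → a + x ∈ A then z ^ (2 * I.card - A.card) else 0) =
    (z ^ 2 + z ^ 3 + z ^ 4) ^ J.card

/-- ROW BAD: few configurations have a good `x` in `[s, N - s]`. Union over `N ≤ g` and `x ≤ g`;
`J = Icc 1 (min x (N - x))`, `I = Icc 1 N`; each has weight `z ^ g`. -/
def StBad : Prop := ∀ z : ℝ, 0 < z → z + z ^ 2 = 1 → ∀ g s : ℕ, 1 ≤ s →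
  (((conf g).filter (fun c => ∃ x ∈ good c.1 c.2, s ≤ x ∧ x + s ≤ c.1)).card : ℝ) * z ^ g ≤
    ((g : ℝ) + 1) ^ 2 * (z ^ 2 + z ^ 3 + z ^ 4) ^ s

/-- ROW MUL: multiples of a good `x` are good. -/
def StMul : Prop := ∀ (N s : ℕ) (A : Finset ℕ), 1 ≤ s → 3 * s ≤ N → A ⊆ Icc 1 N →
  (∀ x ∈ good N A, ¬ (s ≤ x ∧ x + s ≤ N)) → ∀ x ∈ good N A, N < x + s

/-- the alternating sum of binomials -/
def eps (n : ℕ) : ℤ := ∑ p ∈ antidiagonal n, (-1) ^ p.2 * (Nat.choose p.1 p.2 : ℤ)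

/-- ROW EPS: `eps (n + 2) = eps (n + 1) - eps n`. -/
def StEps : Prop := ∀ n : ℕ, |eps n| ≤ 1

/-- ROW MAIN: the signed sum with only the good elements above `N - s` counted; they depend only on
`A ∩ [1, s]` and `A ∩ (N - s, N]`. -/
def StMain : Prop := (∀ n : ℕ, |eps n| ≤ 1) → ∀ g s : ℕ, 6 * s ≤ g →
  |∑ c ∈ conf g, (-1 : ℤ) ^ (c.1 - c.2.card + ((good c.1 c.2).filter (fun x => c.1 < x + s)).card)| ≤
    4 ^ s

/-- ROW SEM1: from configurations to semigroups. -/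
def StSem1 : Prop := ∀ (g : ℕ) (c : ℕ × Finset ℕ), c ∈ conf g →
  IsNS (Sg c) ∧ Shallow (Sg c) ∧ genus (Sg c) = g ∧ typ (Sg c) = c.1 - c.2.card + (good c.1 c.2).card

/-- ROW SEM2: injective and onto. -/
def StSem2 : Prop := ∀ g : ℕ, Set.InjOn Sg (conf g : Set (ℕ × Finset ℕ)) ∧
  ∀ S : Set ℕ, IsNS S → Shallow S → genus S = g → ∃ c ∈ conf g, Sg c = S

/-- ROW FIB: `Nat.fib_succ_eq_sum_choose`. -/
def StFib : Prop := ∀ g : ℕ, (conf g).card = Nat.fib (g + 1)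

/-- ROW FINITE: gaps are smaller than `2 g` (for a gap `x`, one of `i`, `x - i` is a gap). -/
def StFinite : Prop := ∀ g : ℕ, {S : Set ℕ | IsNS S ∧ genus S = g}.Finite

/-- ROW NUM: numerical inequality (`z = 0.618...`, `s = g / 6`). -/
def StNum : Prop := ∀ z : ℝ, 0 < z → z + z ^ 2 = 1 → ∃ C : ℝ, 0 < C ∧ ∀ g : ℕ,
  (4 : ℝ) ^ (g / 6) + 2 * (((g : ℝ) + 1) ^ 2 * (z ^ 2 + z ^ 3 + z ^ 4) ^ (g / 6) / z ^ g) ≤
    C * (39 / 25) ^ g

/-- the numbers of semigroups -/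
noncomputable def numOdd2 (g : ℕ) : ℕ := {S : Set ℕ | IsNS S ∧ Shallow S ∧ genus S = g ∧ Odd (typ S)}.ncard

/-- the numbers of semigroups -/
noncomputable def numEven2 (g : ℕ) : ℕ := {S : Set ℕ | IsNS S ∧ Shallow S ∧ genus S = g ∧ Even (typ S)}.ncard

/-- the numbers of semigroups -/
noncomputable def numOdd (g : ℕ) : ℕ := {S : Set ℕ | IsNS S ∧ genus S = g ∧ Odd (typ S)}.ncard

/-- the numbers of semigroups -/
noncomputable def numEven (g : ℕ) : ℕ := {S : Set ℕ | IsNS S ∧ genus S = g ∧ Even (typ S)}.ncard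

/-- ROW ASM: everything together. -/
def StAsm : Prop := StBad → StMul → (∀ n : ℕ, |eps n| ≤ 1) → StMain → StSem1 → StSem2 → StFib →
  StFinite → StNum → ∃ C : ℝ, 0 < C ∧ ∀ g : ℕ,
    numOdd2 g + numEven2 g = Nat.fib (g + 1) ∧
    |(numOdd2 g : ℝ) - numEven2 g| ≤ C * (39 / 25) ^ g ∧
    (Nat.fib (g + 1) : ℝ) / 2 - C * (39 / 25) ^ g ≤ numOdd g ∧
    (Nat.fib (g + 1) : ℝ) / 2 - C * (39 / 25) ^ g ≤ numEven g

end Pool.Agent.Lib.MP_eee9c1_co.TP
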