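import Mathlib
import Pool.Agent.Lib.MP_eee9c1_co.TP.Defs60

/-!
# Row ASM (helper17)
-/

set_option autoImplicit false

namespace Pool.Agent.Lib.MP_eee9c1_co.TP

open Finset

/-- type of a configuration -/
def ty17 (c : ℕ × Finset ℕ) : ℕ := c.1 - c.2.card + (good c.1 c.2).card

/-- type of a configuration, only the good elements above `N - s` counted -/
def tz17 (s : ℕ) (c : ℕ × Finset ℕ) : ℕ :=
  c.1 - c.2.card + ((good c.1 c.2).filter (fun x => c.1 < x + s)).card

theorem ncard17 (h1 : StSem1) (h2 : StSem2) (g : ℕ) (P : ℕ → Prop) [DecidablePred P] :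
    {S : Set ℕ | IsNS S ∧ Shallow S ∧ genus S = g ∧ P (typ S)}.ncard =
      ((conf g).filter (fun c => P (ty17 c))).card := by
  have e : {S : Set ℕ | IsNS S ∧ Shallow S ∧ genus S = g ∧ P (typ S)} =
      Sg '' (((conf g).filter (fun c => P (ty17 c)) : Finset (ℕ × Finset ℕ)) :
        Set (ℕ × Finset ℕ)) := by
    ext S
    constructor
    · rintro ⟨ha, hb, hc, hd⟩
      obtain ⟨c, hc1, rfl⟩ := (h2 g).2 S ha hb hc
      refine ⟨c, ?_, rfl⟩
      have h4 := (h1 g c hc1).2.2.2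
      rw [Finset.coe_filter]
      refine ⟨hc1, ?_⟩
      show P (c.1 - c.2.card + (good c.1 c.2).card)
      rw [← h4]
      exact hd
    · rintro ⟨c, hc, rfl⟩
      rw [Finset.coe_filter] at hc
      obtain ⟨hc1, hc2⟩ := hc
      obtain ⟨a1, a2, a3, a4⟩ := h1 g c hc1
      refine ⟨a1, a2, a3, ?_⟩
      rw [a4]
      exact hc2
  rw [e, Set.InjOn.ncard_image, Set.ncard_coe_finset]
  refine (h2 g).1.mono ?_
  intro c hc
  rw [Finset.coe_filter] at hc
  exact hc.1

theorem signed17 (s : Finset (ℕ × Finset ℕ)) (f : ℕ × Finset ℕ → ℕ) :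
    ∑ c ∈ s, (-1 : ℤ) ^ f c =
      ((s.filter (fun c => Even (f c))).card : ℤ) - ((s.filter (fun c => Odd (f c))).card : ℤ) := by
  have h : ∀ c ∈ s, (-1 : ℤ) ^ f c =
      (if Even (f c) then 1 else 0) - (if Odd (f c) then 1 else 0) := by
    intro c _
    rcases Nat.even_or_odd (f c) with h | h
    · have h' : ¬ Odd (f c) := Nat.not_odd_iff_even.2 h
      rw [if_pos h, if_neg h', h.neg_one_pow]
      norm_num
    · have h' : ¬ Even (f c) := Nat.not_even_iff_odd.2 h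
      rw [if_neg h', if_pos h, h.neg_one_pow]
      norm_num
  rw [Finset.sum_congr rfl h, Finset.sum_sub_distrib, Finset.sum_boole, Finset.sum_boole]

theorem diff17 (hmul : StMul) (heps : ∀ n : ℕ, |eps n| ≤ 1) (hmain : StMain) (g s : ℕ)
    (hs : 1 ≤ s) (hg : 6 * s ≤ g) :
    |∑ c ∈ conf g, (-1 : ℤ) ^ ty17 c| ≤ 4 ^ s +
      2 * (((conf g).filter (fun c => ∃ x ∈ good c.1 c.2, s ≤ x ∧ x + s ≤ c.1)).card : ℤ) := by
  classical
  have h1 : |∑ c ∈ conf g, (-1 : ℤ) ^ tz17 s c| ≤ 4 ^ s := hmain heps g s hg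
  have h2 : |∑ c ∈ conf g, ((-1 : ℤ) ^ ty17 c - (-1 : ℤ) ^ tz17 s c)| ≤
      2 * (((conf g).filter (fun c => ∃ x ∈ good c.1 c.2, s ≤ x ∧ x + s ≤ c.1)).card : ℤ) := by
    refine (Finset.abs_sum_le_sum_abs _ _).trans ?_
    have h3 : ∀ c ∈ conf g, |(-1 : ℤ) ^ ty17 c - (-1 : ℤ) ^ tz17 s c| ≤
        if (∃ x ∈ good c.1 c.2, s ≤ x ∧ x + s ≤ c.1) then 2 else 0 := by
      intro c hc
      split_ifs with hb
      · have a1 : |(-1 : ℤ) ^ ty17 c| = 1 := by simp [abs_pow]
        have a2 : |(-1 : ℤ) ^ tz17 s c| = 1 := by simp [abs_pow]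
        have := abs_sub (( -1 : ℤ) ^ ty17 c) ((-1 : ℤ) ^ tz17 s c)
        rw [a1, a2] at this
        linarith
      · have hc' := (Finset.mem_filter.1 hc).2
        have hN : 3 * s ≤ c.1 := by omega
        have hall : ∀ x ∈ good c.1 c.2, c.1 < x + s := by
          refine hmul c.1 s c.2 hs hN hc'.1 ?_
          intro x hx hx2
          exact hb ⟨x, hx, hx2.1, hx2.2⟩
        have e : (good c.1 c.2).filter (fun x => c.1 < x + s) = good c.1 c.2 :=
          Finset.filter_true_of_mem hall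
        have e2 : tz17 s c = ty17 c := by
          unfold tz17 ty17
          rw [e]
        rw [e2, sub_self, abs_zero]
    refine (Finset.sum_le_sum h3).trans ?_
    rw [← Finset.sum_filter, Finset.sum_const, nsmul_eq_mul, mul_comm]
  have h3 : ∑ c ∈ conf g, (-1 : ℤ) ^ ty17 c = ∑ c ∈ conf g, (-1 : ℤ) ^ tz17 s c +
      ∑ c ∈ conf g, ((-1 : ℤ) ^ ty17 c - (-1 : ℤ) ^ tz17 s c) := by
    rw [Finset.sum_sub_distrib]
    ring
  rw [h3]
  exact (abs_add_le _ _).trans (add_le_add h1 h2)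

theorem rowAsm17 : StAsm := by
  classical
  intro hbad hmul heps hmain hs1 hs2 hfib hfin hnum
  -- the golden number
  have hz : ∃ z : ℝ, 0 < z ∧ z + z ^ 2 = 1 := by
    refine ⟨(Real.sqrt 5 - 1) / 2, ?_, ?_⟩
    · have : (1 : ℝ) < Real.sqrt 5 := by
        rw [show (1 : ℝ) = Real.sqrt 1 by simp]
        exact Real.sqrt_lt_sqrt (by norm_num) (by norm_num)
      linarith
    · have h5 : Real.sqrt 5 ^ 2 = 5 := Real.sq_sqrt (by norm_num)
      nlinarith [h5]
  obtain ⟨z, hz0, hz1⟩ := hz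
  obtain ⟨C, hC, hCn⟩ := hnum z hz0 hz1
  refine ⟨C + 8, by linarith, ?_⟩
  intro g
  have hO : numOdd2 g = ((conf g).filter (fun c => Odd (ty17 c))).card :=
    ncard17 hs1 hs2 g Odd
  have hE : numEven2 g = ((conf g).filter (fun c => Even (ty17 c))).card :=
    ncard17 hs1 hs2 g Even
  have hsum : numOdd2 g + numEven2 g = Nat.fib (g + 1) := by
    rw [hO, hE, ← hfib g, ← Finset.card_filter_add_card_filter_not (s := conf g)
      (fun c => Odd (ty17 c))]
    congr 2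
    ext c
    simp only [Finset.mem_filter, Nat.not_odd_iff_even]
  have hpow1 : (1 : ℝ) ≤ (39 / 25 : ℝ) ^ g := one_le_pow₀ (by norm_num)
  have hsumR : (numOdd2 g : ℝ) + numEven2 g = (Nat.fib (g + 1) : ℝ) := by
    exact_mod_cast hsum
  have hdiff : |(numOdd2 g : ℝ) - numEven2 g| ≤ (C + 8) * (39 / 25) ^ g := by
    rcases Nat.lt_or_ge g 6 with hg | hg
    · have h8 : Nat.fib (g + 1) ≤ 8 := by
        have : Nat.fib (g + 1) ≤ Nat.fib 6 := Nat.fib_mono (by omega)
        exact this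
      have h8R : (Nat.fib (g + 1) : ℝ) ≤ 8 := by exact_mod_cast h8
      have n1 : (0 : ℝ) ≤ numOdd2 g := Nat.cast_nonneg _
      have n2 : (0 : ℝ) ≤ numEven2 g := Nat.cast_nonneg _
      have : |(numOdd2 g : ℝ) - numEven2 g| ≤ 8 := by
        rw [abs_le]
        constructor <;> linarith
      nlinarith
    · have hs : 1 ≤ g / 6 := by omega
      have hgs : 6 * (g / 6) ≤ g := by omega
      have hd := diff17 hmul heps hmain g (g / 6) hs hgs
      rw [signed17] at hd
      rw [← hO, ← hE] at hd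
      have hdR : |(numEven2 g : ℝ) - numOdd2 g| ≤ 4 ^ (g / 6) +
          2 * (((conf g).filter (fun c => ∃ x ∈ good c.1 c.2, (g / 6) ≤ x ∧
            x + (g / 6) ≤ c.1)).card : ℝ) := by
        exact_mod_cast hd
      have hb := hbad z hz0 hz1 g (g / 6) hs
      have hzg : (0 : ℝ) < z ^ g := pow_pos hz0 g
      have hb2 : (((conf g).filter (fun c => ∃ x ∈ good c.1 c.2, (g / 6) ≤ x ∧
            x + (g / 6) ≤ c.1)).card : ℝ) ≤
          ((g : ℝ) + 1) ^ 2 * (z ^ 2 + z ^ 3 + z ^ 4) ^ (g / 6) / z ^ g := by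
        rw [le_div_iff₀ hzg]
        exact hb
      have hn := hCn g
      rw [abs_sub_comm]
      have : (C + 8) * (39 / 25 : ℝ) ^ g = C * (39 / 25) ^ g + 8 * (39 / 25) ^ g := by ring
      rw [this]
      have h8 : (0 : ℝ) ≤ 8 * (39 / 25) ^ g := by positivity
      linarith
  have hfinS : ∀ (Q : ℕ → Prop), {S : Set ℕ | IsNS S ∧ genus S = g ∧ Q (typ S)}.Finite := by
    intro Q
    exact (hfin g).subset (fun S hS => ⟨hS.1, hS.2.1⟩)
  have hO2 : (numOdd2 g : ℝ) ≤ numOdd g := by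
    have : numOdd2 g ≤ numOdd g := by
      refine Set.ncard_le_ncard ?_ (hfinS Odd)
      rintro S ⟨a, _, c, d⟩
      exact ⟨a, c, d⟩
    exact_mod_cast this
  have hE2 : (numEven2 g : ℝ) ≤ numEven g := by
    have : numEven2 g ≤ numEven g := by
      refine Set.ncard_le_ncard ?_ (hfinS Even)
      rintro S ⟨a, _, c, d⟩
      exact ⟨a, c, d⟩
    exact_mod_cast this
  have hpos : (0 : ℝ) ≤ (C + 8) * (39 / 25) ^ g := by positivity
  obtain ⟨hd1, hd2⟩ := abs_le.1 hdiff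
  refine ⟨hsum, hdiff, ?_, ?_⟩
  · linarith
  · linarith

end Pool.Agent.Lib.MP_eee9c1_co.TP
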