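import Pool.Agent.Lib.MP_eee9c1_co.TP.Defs60

/-! Row BAD (helper97). -/

set_option autoImplicit false

namespace Pool.Agent.Lib.MP_eee9c1_co.TP

open Finset

namespace Bad97

/-- the configurations with given `N` for which `x` may be good -/
def P (g N x : ℕ) : Finset (Finset ℕ) :=
  (Icc 1 N).powerset.filter (fun A => 2 * N = g + A.card ∧
    ∀ a ∈ Icc 1 (min x (N - x)), a ∈ A → a + x ∈ A)

/-- the same, or the empty set when `x` is not in the range -/
def T (g s : ℕ) (p : ℕ × ℕ) : Finset (Finset ℕ) :=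
  if s ≤ p.2 ∧ p.2 + s ≤ p.1 then P g p.1 p.2 else ∅

theorem half_le {z : ℝ} (hz : 0 < z) (h : z + z ^ 2 = 1) : 1 / 2 ≤ z := by
  by_contra hh
  push Not at hh
  nlinarith

theorem w_eq {z : ℝ} (h : z + z ^ 2 = 1) : z ^ 2 + z ^ 3 + z ^ 4 = 2 - 2 * z := by
  have h2 : z ^ 2 = 1 - z := by linarith
  have h3 : z ^ 3 = 2 * z - 1 := by
    calc z ^ 3 = z * z ^ 2 := by ring
      _ = z * (1 - z) := by rw [h2]
      _ = z - z ^ 2 := by ring
      _ = 2 * z - 1 := by rw [h2]; ring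
  have h4 : z ^ 4 = 2 - 3 * z := by
    calc z ^ 4 = z ^ 2 * z ^ 2 := by ring
      _ = (1 - z) * (1 - z) := by rw [h2]
      _ = 1 - 2 * z + z ^ 2 := by ring
      _ = 2 - 3 * z := by rw [h2]; ring
  rw [h2, h3, h4]
  ring

theorem one (hW : StW) {z : ℝ} (hz : 0 < z) (h : z + z ^ 2 = 1) (g s N x : ℕ)
    (h1 : s ≤ x) (h2 : x + s ≤ N) :
    ((P g N x).card : ℝ) * z ^ g ≤ (z ^ 2 + z ^ 3 + z ^ 4) ^ s := by
  set J := Icc 1 (min x (N - x)) with hJ
  set I := Icc 1 N with hI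
  have hJI : J ⊆ I := by
    intro a ha
    rw [hJ, mem_Icc] at ha
    rw [hI, mem_Icc]
    omega
  have hJx : J.image (fun a => a + x) ⊆ I := by
    intro b hb
    obtain ⟨a, ha, rfl⟩ := mem_image.1 hb
    rw [hJ, mem_Icc] at ha
    rw [hI, mem_Icc]
    omega
  have hd : Disjoint J (J.image (fun a => a + x)) := by
    rw [disjoint_left]
    intro b hb hb'
    obtain ⟨a, ha, rfl⟩ := mem_image.1 hb'
    rw [hJ, mem_Icc] at ha hb
    omega
  have key := hW z h x J I hJI hJx hd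
  have hcI : I.card = N := by rw [hI, Nat.card_Icc]; omega
  have e1 : ((P g N x).card : ℝ) * z ^ g = ∑ A ∈ P g N x, z ^ (2 * I.card - A.card) := by
    rw [← nsmul_eq_mul, ← sum_const]
    refine sum_congr rfl fun A hA => ?_
    obtain ⟨hA1, hA2, -⟩ := mem_filter.1 hA
    rw [hcI]
    congr 1
    omega
  have e2 : ∑ A ∈ P g N x, z ^ (2 * I.card - A.card) ≤
      ∑ A ∈ I.powerset, (if ∀ a ∈ J, a ∈ A → a + x ∈ A then z ^ (2 * I.card - A.card) else 0) := by
    rw [← sum_filter]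
    refine sum_le_sum_of_subset_of_nonneg ?_ fun A _ _ => (pow_pos hz _).le
    intro A hA
    obtain ⟨hA1, -, hA3⟩ := mem_filter.1 hA
    exact mem_filter.2 ⟨hA1, hA3⟩
  rw [e1]
  refine e2.trans ?_
  rw [key]
  have hw := w_eq h
  have hh := half_le hz h
  have hz1 : z < 1 := by nlinarith [pow_pos hz 2]
  refine pow_le_pow_of_le_one (by rw [hw]; linarith) (by rw [hw]; linarith) ?_
  rw [hJ, Nat.card_Icc]
  omega

end Bad97

open Bad97 in
theorem rowBad97 (hW : StW) : StBad := by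
  intro z hz h g s hs
  have hw := w_eq h
  have hh := half_le hz h
  have hz1 : z < 1 := by nlinarith [pow_pos hz 2]
  have hw0 : 0 ≤ z ^ 2 + z ^ 3 + z ^ 4 := by rw [hw]; linarith
  have hsub : (conf g).filter (fun c => ∃ x ∈ good c.1 c.2, s ≤ x ∧ x + s ≤ c.1) ⊆
      (range (g + 1) ×ˢ range (g + 1)).biUnion fun p => (T g s p).image fun A => (p.1, A) := by
    rintro ⟨N, A⟩ hc
    obtain ⟨hc1, x, hx, hx1, hx2⟩ := mem_filter.1 hc
    obtain ⟨hc2, hc3, hc4⟩ := mem_filter.1 hc1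
    obtain ⟨hc5, -⟩ := mem_product.1 hc2
    obtain ⟨hxA, hxg⟩ := mem_filter.1 hx
    simp only at *
    have hxN := mem_Icc.1 (hc3 hxA)
    have hN := mem_range.1 hc5
    rw [mem_biUnion]
    refine ⟨(N, x), mem_product.2 ⟨hc5, mem_range.2 (by omega)⟩, mem_image.2 ⟨A, ?_, rfl⟩⟩
    unfold T
    rw [if_pos ⟨hx1, hx2⟩]
    refine mem_filter.2 ⟨mem_powerset.2 hc3, hc4, fun a ha haA => ?_⟩
    rw [mem_Icc] at ha
    rw [add_comm]
    exact hxg a haA (by omega)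
  have hcard := (card_le_card hsub).trans card_biUnion_le
  have hcard' : ((((conf g).filter (fun c => ∃ x ∈ good c.1 c.2, s ≤ x ∧ x + s ≤ c.1)).card : ℕ) : ℝ)
      ≤ ∑ p ∈ range (g + 1) ×ˢ range (g + 1), ((T g s p).card : ℝ) := by
    refine (Nat.cast_le.2 hcard).trans ?_
    rw [Nat.cast_sum]
    exact sum_le_sum fun p _ => Nat.cast_le.2 card_image_le
  have hT : ∀ p ∈ range (g + 1) ×ˢ range (g + 1), ((T g s p).card : ℝ) * z ^ g ≤
      (z ^ 2 + z ^ 3 + z ^ 4) ^ s := by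
    intro p _
    unfold T
    split_ifs with hp
    · exact one hW hz h g s p.1 p.2 hp.1 hp.2
    · rw [card_empty, Nat.cast_zero, zero_mul]
      exact pow_nonneg hw0 _
  calc ((((conf g).filter (fun c => ∃ x ∈ good c.1 c.2, s ≤ x ∧ x + s ≤ c.1)).card : ℕ) : ℝ) * z ^ g
      ≤ (∑ p ∈ range (g + 1) ×ˢ range (g + 1), ((T g s p).card : ℝ)) * z ^ g :=
        mul_le_mul_of_nonneg_right hcard' (pow_pos hz _).le
    _ = ∑ p ∈ range (g + 1) ×ˢ range (g + 1), ((T g s p).card : ℝ) * z ^ g := sum_mul _ _ _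
    _ ≤ ∑ _p ∈ range (g + 1) ×ˢ range (g + 1), (z ^ 2 + z ^ 3 + z ^ 4) ^ s := sum_le_sum hT
    _ = ((g : ℝ) + 1) ^ 2 * (z ^ 2 + z ^ 3 + z ^ 4) ^ s := by
      rw [sum_const, card_product, card_range, nsmul_eq_mul]
      push_cast
      ring

end Pool.Agent.Lib.MP_eee9c1_co.TP
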