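import Pool.Agent.Lib.MP_eee9c1_co.TP.Defs60

/-! Row EPS of `Defs60` (helper76). -/

set_option autoImplicit false

namespace Pool.Agent.Lib.MP_eee9c1_co.TP

open Finset

theorem eps76_rec (n : ℕ) : eps (n + 2) = eps (n + 1) - eps n := by
  unfold eps
  rw [Finset.Nat.antidiagonal_succ_succ', Finset.Nat.antidiagonal_succ']
  simp only [Finset.sum_cons, Finset.sum_map, Function.Embedding.coe_prodMap, Prod.map_fst,
    Prod.map_snd, Function.Embedding.coeFn_mk, Function.Embedding.refl_apply, Nat.choose_succ_succ,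
    Nat.succ_eq_add_one, Nat.cast_add, mul_add, Finset.sum_add_distrib, pow_succ, mul_neg, mul_one,
    Nat.choose_zero_succ, Nat.choose_zero_right, Nat.cast_zero, mul_zero, neg_mul, pow_zero,
    Nat.cast_one, Finset.sum_neg_distrib]
  ring

theorem eps76_pair (n : ℕ) : (eps n = 1 ∧ eps (n + 1) = 1) ∨ (eps n = 1 ∧ eps (n + 1) = 0) ∨
    (eps n = 0 ∧ eps (n + 1) = -1) ∨ (eps n = -1 ∧ eps (n + 1) = -1) ∨
    (eps n = -1 ∧ eps (n + 1) = 0) ∨ (eps n = 0 ∧ eps (n + 1) = 1) := by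
  induction n with
  | zero => left; constructor <;> rfl
  | succ n ih =>
    have h := eps76_rec n
    rw [show n + 1 + 1 = n + 2 from rfl]
    rcases ih with ⟨h1, h2⟩ | ⟨h1, h2⟩ | ⟨h1, h2⟩ | ⟨h1, h2⟩ | ⟨h1, h2⟩ | ⟨h1, h2⟩ <;>
      rw [h1, h2] at h <;> rw [h, h2] <;> norm_num

theorem rowEps76 : StEps := by
  intro n
  rcases eps76_pair n with ⟨h, _⟩ | ⟨h, _⟩ | ⟨h, _⟩ | ⟨h, _⟩ | ⟨h, _⟩ | ⟨h, _⟩ <;> rw [h] <;> norm_num

end Pool.Agent.Lib.MP_eee9c1_co.TP
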