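import Pool.Agent.Lib.MP_eee9c1_co.TP.Defs60

/-! Row FIB of `Defs60` (helper76). -/

set_option autoImplicit false

namespace Pool.Agent.Lib.MP_eee9c1_co.TP

open Finset

theorem fib76_fiber (g N M : ℕ) (h : N + M = g) :
    ((conf g).filter (fun c => (c.1, g - c.1) = (N, M))).card = Nat.choose N M := by
  rcases le_or_gt M N with hle | hlt
  · have : (conf g).filter (fun c => (c.1, g - c.1) = (N, M)) =
        ((Icc 1 N).powersetCard (N - M)).image (fun A => (N, A)) := by
      ext ⟨K, A⟩
      simp only [conf, Finset.mem_filter, Finset.mem_product, Finset.mem_range,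
        Finset.mem_powerset, Finset.mem_image, Finset.mem_powersetCard, Prod.mk.injEq]
      constructor
      · rintro ⟨⟨⟨h1, h2⟩, h3, h4⟩, rfl, h6⟩
        exact ⟨A, ⟨h3, by omega⟩, rfl, rfl⟩
      · rintro ⟨B, ⟨hB, hc⟩, rfl, rfl⟩
        refine ⟨⟨⟨by omega, hB.trans (Finset.Icc_subset_Icc_right (by omega))⟩, hB, by omega⟩,
          rfl, by omega⟩
    rw [this, Finset.card_image_of_injective _ (fun A B h => by simpa using h),
      Finset.card_powersetCard, Nat.card_Icc, Nat.add_sub_cancel, Nat.choose_symm hle]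
  · rw [Nat.choose_eq_zero_of_lt hlt, Finset.card_eq_zero, Finset.filter_eq_empty_iff]
    rintro ⟨K, A⟩ hc hK
    simp only [conf, Finset.mem_filter] at hc
    simp only [Prod.mk.injEq] at hK
    have := hc.2.2
    omega

theorem rowFib76 : StFib := by
  intro g
  rw [Nat.fib_succ_eq_sum_choose, Finset.card_eq_sum_card_fiberwise
    (f := fun c => (c.1, g - c.1)) (t := antidiagonal g)]
  · apply Finset.sum_congr rfl
    rintro ⟨N, M⟩ hp
    rw [Finset.HasAntidiagonal.mem_antidiagonal] at hp
    exact fib76_fiber g N M hp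
  · intro c hc
    rw [Finset.mem_coe, conf, Finset.mem_filter, Finset.mem_product, Finset.mem_range] at hc
    rw [Finset.mem_coe, Finset.HasAntidiagonal.mem_antidiagonal]
    have := hc.1.1
    show c.1 + (g - c.1) = g
    omega

end Pool.Agent.Lib.MP_eee9c1_co.TP
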