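import Pool.Agent.Lib.MP_eee9c1_co.TP.Defs60

/-! Row FINITE. -/

set_option autoImplicit false

namespace Pool.Agent.Lib.MP_eee9c1_co.TP

theorem gap_lt11 {S : Set ℕ} (h : IsNS S) {x : ℕ} (hx : x ∉ S) : x + 1 ≤ 2 * genus S := by
  classical
  obtain ⟨h0, hadd, hfin⟩ := h
  have hT : genus S = hfin.toFinset.card := Set.ncard_eq_toFinset_card _ hfin
  have hsub : Finset.range (x + 1) ⊆ hfin.toFinset ∪ hfin.toFinset.image (fun i => x - i) := by
    intro i hi
    rw [Finset.mem_range] at hi
    rw [Finset.mem_union, Finset.mem_image]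
    by_cases hiS : i ∈ S
    · right
      refine ⟨x - i, ?_, by omega⟩
      rw [Set.Finite.mem_toFinset, Set.mem_compl_iff]
      intro hc
      have h1 := hadd i hiS (x - i) hc
      rw [show i + (x - i) = x by omega] at h1
      exact hx h1
    · left
      rw [Set.Finite.mem_toFinset]
      exact hiS
  have h1 := Finset.card_le_card hsub
  rw [Finset.card_range] at h1
  have h2 := Finset.card_union_le hfin.toFinset (hfin.toFinset.image (fun i => x - i))
  have h3 := Finset.card_image_le (s := hfin.toFinset) (f := fun i => x - i)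
  omega

theorem rowFin11 : StFinite := by
  intro g
  refine Set.Finite.subset (((Set.finite_Iio (2 * g)).finite_subsets).image compl) ?_
  rintro S ⟨hS, hg⟩
  refine ⟨Sᶜ, ?_, compl_compl S⟩
  intro x hx
  have := gap_lt11 hS hx
  rw [hg] at this
  rw [Set.mem_Iio]
  omega

end Pool.Agent.Lib.MP_eee9c1_co.TP
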