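import Pool.Agent.Lib.MP_eee9c1_co.TP.Defs60

set_option autoImplicit false

namespace Pool.Agent.Lib.MP_eee9c1_co.TP

open Finset

theorem rowMUL60 : StMul := by
  intro N s A hs hN hA hno x hx
  by_contra hlt
  push Not at hlt
  have hxA : x ∈ A := (mem_filter.mp hx).1
  have hx1 := mem_Icc.mp (hA hxA)
  by_cases hsx : s ≤ x
  · exact hno x hx ⟨hsx, hlt⟩
  push Not at hsx
  have hgood := (mem_filter.mp hx).2
  have hmul : ∀ k : ℕ, (k + 1) * x ≤ N → (k + 1) * x ∈ good N A := by
    intro k
    induction k with
    | zero => intro _; rw [zero_add, one_mul]; exact hx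
    | succ k ih =>
      intro hk
      have e : (k + 1 + 1) * x = (k + 1) * x + x := by ring
      have h1 := ih (by omega)
      have h1A := (mem_filter.mp h1).1
      have h1g := (mem_filter.mp h1).2
      unfold good
      rw [mem_filter]
      refine ⟨?_, ?_⟩
      · rw [e]
        exact h1g x hxA (by omega)
      · intro a ha haN
        have h2 := h1g a ha (by omega)
        have h3 := hgood _ h2 (by omega)
        have e2 : (k + 1 + 1) * x + a = x + ((k + 1) * x + a) := by ring
        rw [e2]; exact h3
  have hk : ∃ k : ℕ, s ≤ (k + 1) * x ∧ (k + 1) * x < s + x := by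
    have hxp : 0 < x := hx1.1
    refine ⟨(s - 1) / x, ?_, ?_⟩
    · have h1 := Nat.lt_div_mul_add (a := s - 1) hxp
      have : ((s - 1) / x + 1) * x = (s - 1) / x * x + x := by ring
      omega
    · have h1 := Nat.div_mul_le_self (s - 1) x
      have : ((s - 1) / x + 1) * x = (s - 1) / x * x + x := by ring
      omega
  obtain ⟨k, hk1, hk2⟩ := hk
  exact hno _ (hmul k (by omega)) ⟨hk1, by omega⟩

end Pool.Agent.Lib.MP_eee9c1_co.TP
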