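import Pool.Agent.Lib.MP_eee9c1_co.TP.Defs60

/-! Row SEM1 of `Defs60` (helper76). -/

set_option autoImplicit false

namespace Pool.Agent.Lib.MP_eee9c1_co.TP

open Finset

/-- nonzero elements are at least `N + 1` -/
theorem sg76_ge (c : ℕ × Finset ℕ) (n : ℕ) (hn : n ∈ Sg c) (h0 : n ≠ 0) : c.1 + 1 ≤ n := by
  rcases hn with h | h | ⟨a, _, h⟩ | h
  · exact absurd h h0
  · omega
  · omega
  · omega

theorem sg76_big (c : ℕ × Finset ℕ) (n : ℕ) (hn : 2 * (c.1 + 1) ≤ n) : n ∈ Sg c :=
  Or.inr (Or.inr (Or.inr hn))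

/-- the gaps -/
theorem sg76_compl (c : ℕ × Finset ℕ) :
    (Sg c)ᶜ = ((Icc 1 c.1 ∪ (Icc 1 c.1 \ c.2).image (fun b => c.1 + 1 + b) : Finset ℕ) : Set ℕ) := by
  ext n
  simp only [Set.mem_compl_iff, Finset.coe_union, Set.mem_union, Finset.mem_coe, Finset.mem_Icc,
    Finset.mem_image, Finset.mem_sdiff]
  constructor
  · intro hn
    have h0 : n ≠ 0 := fun h => hn (Or.inl h)
    have h1 : n ≠ c.1 + 1 := fun h => hn (Or.inr (Or.inl h))
    have h2 : ∀ a ∈ c.2, n ≠ c.1 + 1 + a := fun a ha h => hn (Or.inr (Or.inr (Or.inl ⟨a, ha, h⟩)))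
    have h3 : n < 2 * (c.1 + 1) := by
      by_contra h
      exact hn (sg76_big c n (not_lt.mp h))
    rcases le_or_gt n c.1 with h | h
    · exact Or.inl ⟨by omega, h⟩
    · refine Or.inr ⟨n - (c.1 + 1), ⟨⟨by omega, by omega⟩, ?_⟩, by omega⟩
      intro hb
      exact h2 _ hb (by omega)
  · rintro (⟨h1, h2⟩ | ⟨b, ⟨⟨hb1, hb2⟩, hb3⟩, hb⟩) hn
    · have := sg76_ge c n hn (by omega)
      omega
    · rcases hn with h | h | ⟨a, ha, h⟩ | h
      · omega
      · omega
      · have : a = b := by omega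
        exact hb3 (this ▸ ha)
      · omega

/-- the pseudo-Frobenius numbers -/
theorem sg76_PF (c : ℕ × Finset ℕ) (hA : c.2 ⊆ Icc 1 c.1) :
    PF (Sg c) = ((good c.1 c.2 ∪ (Icc 1 c.1 \ c.2).image (fun b => c.1 + 1 + b) : Finset ℕ) :
      Set ℕ) := by
  have hc := sg76_compl c
  ext n
  have hcn : n ∉ Sg c ↔ (1 ≤ n ∧ n ≤ c.1) ∨ ∃ b, ((1 ≤ b ∧ b ≤ c.1) ∧ b ∉ c.2) ∧ c.1 + 1 + b = n := by
    have : n ∈ (Sg c)ᶜ ↔ n ∈ ((Icc 1 c.1 ∪ (Icc 1 c.1 \ c.2).image (fun b => c.1 + 1 + b) :
      Finset ℕ) : Set ℕ) := by rw [hc]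
    simpa only [Set.mem_compl_iff, Finset.coe_union, Set.mem_union, Finset.mem_coe, Finset.mem_Icc,
      Finset.mem_image, Finset.mem_sdiff] using this
  simp only [PF, Set.mem_ofPred_eq, Finset.coe_union, Set.mem_union, Finset.mem_coe,
    Finset.mem_image, Finset.mem_sdiff, Finset.mem_Icc, good, Finset.mem_filter]
  constructor
  · rintro ⟨hn, hs⟩
    rcases hcn.mp hn with ⟨h1, h2⟩ | h
    · left
      have hm : n + (c.1 + 1) ∈ Sg c := hs _ (Or.inr (Or.inl rfl)) (by omega)
      have hnA : n ∈ c.2 := by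
        rcases hm with h | h | ⟨a, ha, h⟩ | h
        · omega
        · omega
        · have : a = n := by omega
          exact this ▸ ha
        · omega
      refine ⟨hnA, ?_⟩
      intro a ha hle
      have ha1 : 1 ≤ a := (Finset.mem_Icc.mp (hA ha)).1
      have hm : n + (c.1 + 1 + a) ∈ Sg c := hs _ (Or.inr (Or.inr (Or.inl ⟨a, ha, rfl⟩))) (by omega)
      rcases hm with h | h | ⟨b, hb, h⟩ | h
      · omega
      · omega
      · have : b = n + a := by omega
        exact this ▸ hb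
      · omega
    · right
      exact h
  · rintro (⟨hnA, hg⟩ | h)
    · have h12 := Finset.mem_Icc.mp (hA hnA)
      refine ⟨hcn.mpr (Or.inl h12), ?_⟩
      intro s hs h0
      rcases hs with h | h | ⟨a, ha, h⟩ | h
      · exact absurd h h0
      · exact Or.inr (Or.inr (Or.inl ⟨n, hnA, by omega⟩))
      · rcases le_or_gt (n + a) c.1 with hle | hlt
        · exact Or.inr (Or.inr (Or.inl ⟨n + a, hg a ha hle, by omega⟩))
        · exact sg76_big c _ (by omega)
      · exact sg76_big c _ (by omega)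
    · refine ⟨hcn.mpr (Or.inr h), ?_⟩
      intro s hs h0
      have := sg76_ge c s hs h0
      obtain ⟨b, _, hb⟩ := h
      exact sg76_big c _ (by omega)

theorem rowSem1_76 : StSem1 := by
  intro g c hc
  rw [conf, Finset.mem_filter] at hc
  obtain ⟨_, hA, hcard⟩ := hc
  have himg : ((Icc 1 c.1 \ c.2).image (fun b => c.1 + 1 + b)).card = c.1 - c.2.card := by
    rw [Finset.card_image_of_injective _ (fun a b h => by simpa using h),
      Finset.card_sdiff_of_subset hA, Nat.card_Icc]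
    omega
  have hle : c.2.card ≤ c.1 := by
    have := Finset.card_le_card hA
    rw [Nat.card_Icc] at this
    omega
  refine ⟨⟨Or.inl rfl, ?_, ?_⟩, ?_, ?_, ?_⟩
  · intro a ha b hb
    rcases Nat.eq_zero_or_pos a with h | h
    · rw [h, Nat.zero_add]; exact hb
    rcases Nat.eq_zero_or_pos b with h' | h'
    · rw [h', Nat.add_zero]; exact ha
    have h1 := sg76_ge c a ha (by omega)
    have h2 := sg76_ge c b hb (by omega)
    exact sg76_big c _ (by omega)
  · rw [sg76_compl c]
    exact Finset.finite_toSet _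
  · intro s hs h0 n hn
    have h1 := sg76_ge c s hs h0
    exact sg76_big c _ (by omega)
  · rw [genus, sg76_compl c, Set.ncard_coe_finset, Finset.card_union_of_disjoint, himg,
      Nat.card_Icc]
    · omega
    · rw [Finset.disjoint_left]
      intro n hn hm
      rw [Finset.mem_Icc] at hn
      rw [Finset.mem_image] at hm
      obtain ⟨b, _, hb⟩ := hm
      omega
  · rw [typ, sg76_PF c hA, Set.ncard_coe_finset, Finset.card_union_of_disjoint, himg, Nat.add_comm]
    rw [Finset.disjoint_left]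
    intro n hn hm
    have hn' := Finset.mem_Icc.mp (hA (Finset.mem_filter.mp hn).1)
    rw [Finset.mem_image] at hm
    obtain ⟨b, _, hb⟩ := hm
    omega

end Pool.Agent.Lib.MP_eee9c1_co.TP
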