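import Pool.Agent.Lib.MP_eee9c1_co.TP.Defs60

/-! MP_eee9c1: row SEM2 (helper73). -/

set_option autoImplicit false

namespace Pool.Agent.Lib.MP_eee9c1_co.TP

open Finset

theorem mem_conf73 {g : ℕ} {c : ℕ × Finset ℕ} :
    c ∈ conf g ↔ (c.1 < g + 1 ∧ c.2 ⊆ Icc 1 g) ∧ c.2 ⊆ Icc 1 c.1 ∧ 2 * c.1 = g + c.2.card := by
  simp [conf]

theorem aux73 {c d : ℕ × Finset ℕ} (hc : c.2 ⊆ Icc 1 c.1) (hd : d.2 ⊆ Icc 1 d.1)
    (h : Sg c = Sg d) : d.1 ≤ c.1 := by
  have h1 : c.1 + 1 ∈ Sg c := Or.inr (Or.inl rfl)
  rw [h] at h1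
  rcases h1 with h1 | h1 | ⟨a, ha, h1⟩ | h1
  · omega
  · omega
  · omega
  · omega

theorem aux73' {c d : ℕ × Finset ℕ} (hc : c.2 ⊆ Icc 1 c.1) (h : Sg c = Sg d)
    (he : c.1 = d.1) : c.2 ⊆ d.2 := by
  intro a ha
  have hb := Finset.mem_Icc.1 (hc ha)
  have h1 : c.1 + 1 + a ∈ Sg c := Or.inr (Or.inr (Or.inl ⟨a, ha, rfl⟩))
  rw [h] at h1
  rcases h1 with h1 | h1 | ⟨b, hb', h1⟩ | h1
  · omega
  · omega
  · have : a = b := by omega
    rw [this]; exact hb'
  · omega

theorem rowSem73 : StSem2 := by
  classical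
  intro g
  refine ⟨?_, ?_⟩
  · intro c hc d hd h
    obtain ⟨-, hc1, -⟩ := mem_conf73.1 (Finset.mem_coe.1 hc)
    obtain ⟨-, hd1, -⟩ := mem_conf73.1 (Finset.mem_coe.1 hd)
    have h1 : c.1 = d.1 := le_antisymm (aux73 hd1 hc1 h.symm) (aux73 hc1 hd1 h)
    exact Prod.ext h1 (Finset.Subset.antisymm (aux73' hc1 h h1) (aux73' hd1 h.symm h1.symm))
  · intro S hS hSh hg
    obtain ⟨h0, hadd, hfin⟩ := hS
    have hex : ∃ s, s ∈ S ∧ s ≠ 0 := by
      by_contra hno
      push Not at hno
      have : S ⊆ {0} := fun x hx => hno x hx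
      have hSf : S.Finite := (Set.finite_singleton 0).subset this
      have := hSf.union hfin
      rw [Set.union_compl_self] at this
      exact Set.infinite_univ this
    have hm := Nat.find_spec hex
    have hmin : ∀ k, k ∈ S → k ≠ 0 → Nat.find hex ≤ k := fun k hk hk0 =>
      Nat.find_min' hex ⟨hk, hk0⟩
    generalize Nat.find hex = m at hm hmin
    obtain ⟨hmS, hm0⟩ := hm
    obtain ⟨N, rfl⟩ : ∃ N, m = N + 1 := ⟨m - 1, by omega⟩
    let A : Finset ℕ := (Icc 1 N).filter (fun a => N + 1 + a ∈ S)
    have hA : A ⊆ Icc 1 N := Finset.filter_subset _ _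
    have hmem : ∀ n, n ∈ S ↔ n ∈ Sg (N, A) := by
      intro n
      constructor
      · intro hn
        by_cases hn0 : n = 0
        · exact Or.inl hn0
        · have h1 := hmin n hn hn0
          by_cases h2 : n = N + 1
          · exact Or.inr (Or.inl h2)
          · by_cases h3 : 2 * (N + 1) ≤ n
            · exact Or.inr (Or.inr (Or.inr h3))
            · refine Or.inr (Or.inr (Or.inl ⟨n - (N + 1), ?_, ?_⟩))
              · refine Finset.mem_filter.2 ⟨Finset.mem_Icc.2 ⟨by omega, by omega⟩, ?_⟩
                rw [show N + 1 + (n - (N + 1)) = n by omega]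
                exact hn
              · show n = N + 1 + (n - (N + 1))
                omega
      · rintro (h | h | ⟨a, ha, h⟩ | h)
        · rw [h]; exact h0
        · rw [h]; exact hmS
        · rw [h]; exact (Finset.mem_filter.1 ha).2
        · exact hSh (N + 1) hmS hm0 n h
    have hset : Sg (N, A) = S := by
      ext n; exact (hmem n).symm
    let T : Finset ℕ := Icc 1 N ∪ ((Icc 1 N) \ A).image (fun a => N + 1 + a)
    have hT : Sᶜ = (T : Set ℕ) := by
      ext n
      simp only [Set.mem_compl_iff, Finset.mem_coe]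
      constructor
      · intro hn
        by_cases h1 : n < N + 1
        · refine Finset.mem_union_left _ (Finset.mem_Icc.2 ⟨?_, by omega⟩)
          rcases Nat.eq_zero_or_pos n with h | h
          · exact absurd (h ▸ h0) hn
          · exact h
        · refine Finset.mem_union_right _ (Finset.mem_image.2 ⟨n - (N + 1), ?_, by omega⟩)
          have h2 : n ≠ N + 1 := fun h => hn (h ▸ hmS)
          have h3 : n < 2 * (N + 1) := by
            by_contra h
            exact hn (hSh (N + 1) hmS hm0 n (by omega))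
          refine Finset.mem_sdiff.2 ⟨Finset.mem_Icc.2 ⟨by omega, by omega⟩, ?_⟩
          intro h
          have := (Finset.mem_filter.1 h).2
          rw [show N + 1 + (n - (N + 1)) = n by omega] at this
          exact hn this
      · intro hn hnS
        rcases Finset.mem_union.1 hn with h | h
        · have := Finset.mem_Icc.1 h
          have := hmin n hnS (by omega)
          omega
        · obtain ⟨a, ha, rfl⟩ := Finset.mem_image.1 h
          obtain ⟨ha1, ha2⟩ := Finset.mem_sdiff.1 ha
          exact ha2 (Finset.mem_filter.2 ⟨ha1, hnS⟩)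
    have hTc : T.card = N + (N - A.card) := by
      have hdis : Disjoint (Icc 1 N) (((Icc 1 N) \ A).image (fun a => N + 1 + a)) := by
        rw [Finset.disjoint_left]
        intro n h1 h2
        obtain ⟨a, ha, rfl⟩ := Finset.mem_image.1 h2
        have := Finset.mem_Icc.1 h1
        omega
      rw [Finset.card_union_of_disjoint hdis, Finset.card_image_of_injective _
        (fun a b h => by simpa using h), Finset.card_sdiff_of_subset hA, Nat.card_Icc]
      simp
    have hAc : A.card ≤ N := by
      have := Finset.card_le_card hA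
      simpa using this
    have hgen : N + (N - A.card) = g := by
      rw [← hTc, ← hg, genus, hT, Set.ncard_coe_finset]
    refine ⟨(N, A), mem_conf73.2 ⟨⟨?_, ?_⟩, hA, ?_⟩, hset⟩
    · show N < g + 1
      omega
    · exact hA.trans (Finset.Icc_subset_Icc_right (by omega))
    · show 2 * N = g + A.card
      omega

end Pool.Agent.Lib.MP_eee9c1_co.TP
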