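import Pool.Agent.Lib.MP_eee9c1_co.TP.Defs60

set_option autoImplicit false

namespace Pool.Agent.Lib.MP_eee9c1_co.TP

open Finset

namespace W60

lemma base (z : ℝ) (hz : z + z ^ 2 = 1) (I : Finset ℕ) :
    ∑ A ∈ I.powerset, z ^ (2 * I.card - A.card) = 1 := by
  induction I using Finset.induction_on with
  | empty => simp
  | insert a s ha ih =>
    rw [sum_powerset_insert ha, card_insert_of_notMem ha]
    have h1 : ∑ A ∈ s.powerset, z ^ (2 * (s.card + 1) - A.card) = z ^ 2 := by
      have : ∀ A ∈ s.powerset, z ^ (2 * (s.card + 1) - A.card) = z ^ 2 * z ^ (2 * s.card - A.card) := by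
        intro A hA
        have := card_le_card (mem_powerset.mp hA)
        rw [← pow_add]
        congr 1
        omega
      rw [sum_congr rfl this, ← mul_sum, ih, mul_one]
    have h2 : ∑ A ∈ s.powerset, z ^ (2 * (s.card + 1) - (insert a A).card) = z := by
      have : ∀ A ∈ s.powerset, z ^ (2 * (s.card + 1) - (insert a A).card) =
          z * z ^ (2 * s.card - A.card) := by
        intro A hA
        have hAs := mem_powerset.mp hA
        have := card_le_card hAs
        rw [card_insert_of_notMem (fun h => ha (hAs h)), ← pow_succ']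
        congr 1
        omega
      rw [sum_congr rfl this, ← mul_sum, ih, mul_one]
    rw [h1, h2]
    linarith

end W60

theorem rowW60 : StW := by
  intro z hz x J
  induction J using Finset.induction_on with
  | empty =>
    intro I _ _ _
    simp only [notMem_empty, false_implies, implies_true, if_true, card_empty, pow_zero]
    exact W60.base z hz I
  | insert a0 J ha0 ih =>
    intro I hJI hJx hdis
    have ha : a0 ∈ I := hJI (mem_insert_self _ _)
    have hb : a0 + x ∈ I := hJx (mem_image_of_mem _ (mem_insert_self _ _))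
    have hab : a0 ≠ a0 + x := by
      intro h
      refine disjoint_left.mp hdis (mem_insert_self a0 J) ?_
      rw [mem_image]
      exact ⟨a0, mem_insert_self _ _, h.symm⟩
    have hbJ : a0 + x ∉ J := by
      intro h
      exact disjoint_left.mp hdis (mem_insert_of_mem h)
        (mem_image_of_mem (fun a => a + x) (mem_insert_self a0 J))
    have haJx : a0 ∉ J.image (fun a => a + x) := by
      intro h
      refine disjoint_left.mp hdis (mem_insert_self a0 J) ?_
      exact image_subset_image (subset_insert _ _) h
    set I' := (I.erase a0).erase (a0 + x) with hI'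
    have hbI : a0 + x ∈ I.erase a0 := mem_erase.mpr ⟨fun h => hab h.symm, hb⟩
    have hI1 : I = insert a0 (insert (a0 + x) I') := by
      rw [hI', insert_erase hbI, insert_erase ha]
    have hb' : a0 + x ∉ I' := by rw [hI']; exact notMem_erase _ _
    have ha' : a0 ∉ insert (a0 + x) I' := by
      rw [hI', insert_erase hbI]; exact notMem_erase _ _
    have ha'' : a0 ∉ I' := fun h => ha' (mem_insert_of_mem h)
    have hJI' : J ⊆ I' := by
      intro j hj
      rw [hI', mem_erase, mem_erase]
      exact ⟨fun h => hbJ (h ▸ hj), fun h => ha0 (h ▸ hj), hJI (mem_insert_of_mem hj)⟩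
    have hJx' : J.image (fun a => a + x) ⊆ I' := by
      intro j hj
      have hj' := hj
      rw [mem_image] at hj
      obtain ⟨k, hk, rfl⟩ := hj
      rw [hI', mem_erase, mem_erase]
      refine ⟨fun h => ha0 ?_, fun h => haJx (h ▸ hj'), hJx (mem_image_of_mem _ (mem_insert_of_mem hk))⟩
      have : k = a0 := by omega
      rw [← this]; exact hk
    have hdis' : Disjoint J (J.image (fun a => a + x)) :=
      disjoint_of_subset_left (subset_insert _ _)
        (disjoint_of_subset_right (image_subset_image (subset_insert _ _)) hdis)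
    have hIH := ih I' hJI' hJx' hdis'
    have hcI : I.card = I'.card + 2 := by
      rw [hI1, card_insert_of_notMem ha', card_insert_of_notMem hb']
    rw [card_insert_of_notMem ha0, pow_succ', ← hIH, hcI]
    conv_lhs => rw [hI1]
    rw [sum_powerset_insert ha', sum_powerset_insert hb', sum_powerset_insert hb']
    rw [← sum_add_distrib, ← sum_add_distrib, ← sum_add_distrib, mul_sum]
    refine sum_congr rfl fun A hA => ?_
    have hAI := mem_powerset.mp hA
    have hac : A.card ≤ I'.card := card_le_card hAI
    have haA : a0 ∉ A := fun h => ha'' (hAI h)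
    have hbA : a0 + x ∉ A := fun h => hb' (hAI h)
    have haA' : a0 ∉ insert (a0 + x) A := by
      rw [mem_insert, not_or]; exact ⟨hab, haA⟩
    have c1 : (insert (a0 + x) A).card = A.card + 1 := card_insert_of_notMem hbA
    have c2 : (insert a0 A).card = A.card + 1 := card_insert_of_notMem haA
    have c3 : (insert a0 (insert (a0 + x) A)).card = A.card + 2 := by
      rw [card_insert_of_notMem haA', c1]
    -- the conditions
    have hJa : ∀ j ∈ J, j ≠ a0 ∧ j ≠ a0 + x ∧ j + x ≠ a0 ∧ j + x ≠ a0 + x := by
      intro j hj
      refine ⟨fun h => ha0 (h ▸ hj), fun h => hbJ (h ▸ hj), fun h => haJx ?_, fun h => ha0 ?_⟩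
      · rw [mem_image]; exact ⟨j, hj, h⟩
      · have : j = a0 := by omega
        rw [← this]; exact hj
    have e0 : (∀ j ∈ insert a0 J, j ∈ A → j + x ∈ A) ↔ (∀ j ∈ J, j ∈ A → j + x ∈ A) := by
      rw [forall_mem_insert]
      exact ⟨fun h => h.2, fun h => ⟨fun h' => absurd h' haA, h⟩⟩
    have e1 : (∀ j ∈ insert a0 J, j ∈ insert (a0 + x) A → j + x ∈ insert (a0 + x) A) ↔
        (∀ j ∈ J, j ∈ A → j + x ∈ A) := by
      rw [forall_mem_insert]
      constructor
      · rintro ⟨_, h⟩ j hj hjA
        have := h j hj (mem_insert_of_mem hjA)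
        exact (mem_insert.mp this).resolve_left (hJa j hj).2.2.2
      · intro h
        refine ⟨fun h' => absurd h' haA', fun j hj hjA => ?_⟩
        exact mem_insert_of_mem (h j hj ((mem_insert.mp hjA).resolve_left (hJa j hj).2.1))
    have e2 : ¬ (∀ j ∈ insert a0 J, j ∈ insert a0 A → j + x ∈ insert a0 A) := by
      intro h
      have := h a0 (mem_insert_self _ _) (mem_insert_self _ _)
      rcases mem_insert.mp this with h' | h'
      · exact hab h'.symm
      · exact hbA h'
    have e3 : (∀ j ∈ insert a0 J, j ∈ insert a0 (insert (a0 + x) A) →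
        j + x ∈ insert a0 (insert (a0 + x) A)) ↔ (∀ j ∈ J, j ∈ A → j + x ∈ A) := by
      rw [forall_mem_insert]
      constructor
      · rintro ⟨_, h⟩ j hj hjA
        have := h j hj (mem_insert_of_mem (mem_insert_of_mem hjA))
        have h1 := (mem_insert.mp this).resolve_left (hJa j hj).2.2.1
        exact (mem_insert.mp h1).resolve_left (hJa j hj).2.2.2
      · intro h
        refine ⟨fun _ => mem_insert_of_mem (mem_insert_self _ _), fun j hj hjA => ?_⟩
        have h1 := (mem_insert.mp hjA).resolve_left (hJa j hj).1
        have h2 := (mem_insert.mp h1).resolve_left (hJa j hj).2.1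
        exact mem_insert_of_mem (mem_insert_of_mem (h j hj h2))
    rw [if_congr e0 rfl rfl, if_congr e1 rfl rfl, if_neg e2, if_congr e3 rfl rfl, c1, c3]
    by_cases hP : ∀ j ∈ J, j ∈ A → j + x ∈ A
    · rw [if_pos hP, if_pos hP, if_pos hP, if_pos hP]
      have p1 : 2 * (I'.card + 2) - A.card = (2 * I'.card - A.card) + 4 := by omega
      have p2 : 2 * (I'.card + 2) - (A.card + 1) = (2 * I'.card - A.card) + 3 := by omega
      have p3 : 2 * (I'.card + 2) - (A.card + 2) = (2 * I'.card - A.card) + 2 := by omega
      rw [p1, p2, p3]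
      ring
    · rw [if_neg hP, if_neg hP, if_neg hP, if_neg hP]
      ring

end Pool.Agent.Lib.MP_eee9c1_co.TP
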