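import Pool.Agent.Lib.MP_eee9c1_co.TP.MAIN60
import Pool.Agent.Lib.MP_eee9c1_co.TP.W60
import Pool.Agent.Lib.MP_eee9c1_co.TP.MUL60
import Pool.Agent.Lib.MP_eee9c1_co.TP.Bad97
import Pool.Agent.Lib.MP_eee9c1_co.TP.Sem1_76
import Pool.Agent.Lib.MP_eee9c1_co.TP.Sem73
import Pool.Agent.Lib.MP_eee9c1_co.TP.Eps76
import Pool.Agent.Lib.MP_eee9c1_co.TP.Fib76
import Pool.Agent.Lib.MP_eee9c1_co.TP.Fin11
import Pool.Agent.Lib.MP_eee9c1_co.TP.Num88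
import Pool.Agent.Lib.MP_eee9c1_co.TP.Asm17

set_option autoImplicit false

namespace Pool.Agent.Lib.MP_eee9c1_co.TP

theorem all60 : ∃ C : ℝ, 0 < C ∧ ∀ g : ℕ,
    numOdd2 g + numEven2 g = Nat.fib (g + 1) ∧
    |(numOdd2 g : ℝ) - numEven2 g| ≤ C * (39 / 25) ^ g ∧
    (Nat.fib (g + 1) : ℝ) / 2 - C * (39 / 25) ^ g ≤ numOdd g ∧
    (Nat.fib (g + 1) : ℝ) / 2 - C * (39 / 25) ^ g ≤ numEven g :=
  rowAsm17 (rowBad97 rowW60) rowMUL60 rowEps76 rowMAIN60 rowSem1_76 rowSem73 rowFib76 rowFin11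
    rowNum88

end Pool.Agent.Lib.MP_eee9c1_co.TP
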