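import Pool.Agent.Lib.MP_eee9c1_co.TP.DefsK17

/-! Row KGEN (helper88), after MAIN60. -/

set_option autoImplicit false

namespace Pool.Agent.Lib.MP_eee9c1_co.TP

open Finset

theorem rowKGen88 : StKGen := by
  intro g s φ hφ hgs
  have heps : ∀ n : ℕ, |eps n| ≤ 1 := rowEps76
  have hfib : ∀ c ∈ conf g, ((M60.lo s c, M60.up s c) : Finset ℕ × Finset ℕ) ∈
      (Icc 1 s).powerset ×ˢ (range s).powerset := by
    intro c hc
    simp only [conf, mem_filter] at hc
    obtain ⟨_, hA, h2⟩ := hc
    rw [mem_product, mem_powerset, mem_powerset]
    constructor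
    · intro x hx
      simp only [M60.lo, mem_filter] at hx
      have := mem_Icc.mp (hA hx.1)
      rw [mem_Icc]; omega
    · intro x hx
      simp only [M60.up, mem_image, mem_filter] at hx
      obtain ⟨y, ⟨hy, hy1⟩, rfl⟩ := hx
      have := mem_Icc.mp (hA hy)
      rw [mem_range]; omega
  rw [← sum_fiberwise_of_maps_to hfib]
  refine (abs_sum_le_sum_abs _ _).trans ?_
  have hb : ∀ q ∈ (Icc 1 s).powerset ×ˢ (range s).powerset,
      |∑ c ∈ (conf g).filter (fun c => ((M60.lo s c, M60.up s c) : Finset ℕ × Finset ℕ) = q),
        (-1 : ℤ) ^ (c.1 - c.2.card) * φ (M60.lo s c, M60.up s c)| ≤ 1 := by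
    rintro ⟨U, V⟩ hq
    rw [mem_product, mem_powerset, mem_powerset] at hq
    obtain ⟨hU, hV⟩ := hq
    simp only at hU hV
    have hUc := card_le_card hU
    have hVc := card_le_card hV
    rw [Nat.card_Icc] at hUc
    rw [card_range] at hVc
    set n := g + U.card + V.card - 4 * s with hn
    have key : ∑ c ∈ (conf g).filter
        (fun c => ((M60.lo s c, M60.up s c) : Finset ℕ × Finset ℕ) = (U, V)),
        (-1 : ℤ) ^ (c.1 - c.2.card) * φ (M60.lo s c, M60.up s c) =
        ((-1) ^ (2 * s - (U.card + V.card)) * φ (U, V)) *
          ∑ c ∈ conf n, (-1 : ℤ) ^ (c.1 - c.2.card) := by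
      rw [mul_sum]
      symm
      refine sum_bij' (fun c _ => M60.build s U V c) (fun c _ => (c.1 - 2 * s, M60.mid s c))
        ?_ ?_ ?_ ?_ ?_
      · intro c hc
        simp only [conf, mem_filter, mem_product, mem_range, mem_powerset] at hc
        obtain ⟨_, hA, h2⟩ := hc
        have hcard := M60.card_build s U V c hU hV hA
        have hAc := card_le_card hA
        rw [Nat.card_Icc] at hAc
        have e1 : (M60.build s U V c).1 = c.1 + 2 * s := rfl
        have hsub : (M60.build s U V c).2 ⊆ Icc 1 (c.1 + 2 * s) := by
          intro x hx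
          rw [M60.mem_build s U V c hU hV hA] at hx
          rw [mem_Icc]
          rcases hx with h | h | h <;> omega
        rw [mem_filter]
        refine ⟨?_, ?_⟩
        · simp only [conf, mem_filter, mem_product, mem_range, mem_powerset]
          rw [hcard, e1]
          refine ⟨⟨by omega, ?_⟩, hsub, by omega⟩
          refine hsub.trans (Icc_subset_Icc_right (by omega))
        · rw [M60.lo_build s U V c hU hV hA, M60.up_build s U V c hU hV hA]
      · intro c hc
        rw [mem_filter] at hc
        obtain ⟨hc, hq⟩ := hc
        simp only [conf, mem_filter, mem_product, mem_range, mem_powerset] at hc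
        obtain ⟨_, hA, h2⟩ := hc
        have hAc := card_le_card hA
        rw [Nat.card_Icc] at hAc
        have h2s : 2 * s ≤ c.1 := by omega
        have hU' : M60.lo s c = U := (Prod.mk.inj hq).1
        have hV' : M60.up s c = V := (Prod.mk.inj hq).2
        have hmid : M60.mid s c ⊆ Icc 1 (c.1 - 2 * s) := by
          intro x hx
          simp only [M60.mid, mem_image, mem_filter] at hx
          obtain ⟨y, ⟨_, hy1⟩, rfl⟩ := hx
          rw [mem_Icc]; omega
        have hb := M60.build_parts s c hA h2s
        have hcard := M60.card_build s (M60.lo s c) (M60.up s c) (c.1 - 2 * s, M60.mid s c)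
          (by rw [hU']; exact hU) (by rw [hV']; exact hV) hmid
        rw [hb, hU', hV'] at hcard
        simp only at hcard
        simp only [conf, mem_filter, mem_product, mem_range, mem_powerset]
        have hmc := card_le_card hmid
        rw [Nat.card_Icc] at hmc
        refine ⟨⟨by omega, ?_⟩, hmid, by omega⟩
        exact hmid.trans (Icc_subset_Icc_right (by omega))
      · intro c hc
        simp only [conf, mem_filter, mem_product, mem_range, mem_powerset] at hc
        obtain ⟨_, hA, h2⟩ := hc
        have e1 : (M60.build s U V c).1 = c.1 + 2 * s := rfl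
        rw [M60.mid_build s U V c hU hV hA, e1, Nat.add_sub_cancel]
      · intro c hc
        rw [mem_filter] at hc
        obtain ⟨hc, hq⟩ := hc
        simp only [conf, mem_filter, mem_product, mem_range, mem_powerset] at hc
        obtain ⟨_, hA, h2⟩ := hc
        have hAc := card_le_card hA
        rw [Nat.card_Icc] at hAc
        have h2s : 2 * s ≤ c.1 := by omega
        have hU' : M60.lo s c = U := (Prod.mk.inj hq).1
        have hV' : M60.up s c = V := (Prod.mk.inj hq).2
        have hb := M60.build_parts s c hA h2s
        rw [hU', hV'] at hb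
        exact hb
      · intro c hc
        simp only [conf, mem_filter, mem_product, mem_range, mem_powerset] at hc
        obtain ⟨_, hA, h2⟩ := hc
        have hcard := M60.card_build s U V c hU hV hA
        have hAc := card_le_card hA
        rw [Nat.card_Icc] at hAc
        have e1 : (M60.build s U V c).1 = c.1 + 2 * s := rfl
        rw [M60.lo_build s U V c hU hV hA, M60.up_build s U V c hU hV hA, hcard, e1]
        have e2 : c.1 + 2 * s - (U.card + c.2.card + V.card) =
            (2 * s - (U.card + V.card)) + (c.1 - c.2.card) := by omega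
        rw [e2, pow_add]
        ring
    rw [key, abs_mul, abs_mul, abs_pow, abs_neg, abs_one, one_pow, one_mul, M60.sum_conf]
    calc |φ (U, V)| * |eps n| ≤ 1 * 1 := mul_le_mul (hφ _) (heps n) (abs_nonneg _) (by norm_num)
      _ = 1 := one_mul 1
  refine (sum_le_sum hb).trans ?_
  rw [sum_const, card_product, card_powerset, card_powerset, Nat.card_Icc, card_range]
  simp only [Nat.add_sub_cancel, smul_eq_mul, mul_one, nsmul_eq_mul]
  push_cast
  rw [← mul_pow]
  norm_num

end Pool.Agent.Lib.MP_eee9c1_co.TP
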