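import Pool.Agent.Lib.MP_eee9c1_co.TP.DefsK17

/-! Row KMUL. -/

set_option autoImplicit false

namespace Pool.Agent.Lib.MP_eee9c1_co.TP

open Finset

theorem goodK_add9 {K N : ℕ} {B A : Finset ℕ} {x y : ℕ} (hx : x ∈ goodK K B N A)
    (hy : y ∈ goodK K B N A) (hxy : x + y ≤ N) : x + y ∈ goodK K B N A := by
  unfold goodK good at hx hy ⊢
  rw [mem_filter, mem_filter] at hx hy ⊢
  obtain ⟨⟨hxA, hxg⟩, hx1, hx2⟩ := hx
  obtain ⟨⟨hyA, hyg⟩, hy1, hy2⟩ := hy
  refine ⟨⟨hxg y hyA hxy, ?_⟩, ?_, ?_⟩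
  · intro a ha hle
    have h3 := hyg a ha (by omega)
    have h4 := hxg _ h3 (by omega)
    rw [add_assoc]
    exact h4
  · intro a ha hN hK
    by_cases h : y + a ≤ N
    · have h3 := hyg a ha h
      have h4 := hx1 _ h3 (by omega) (by omega)
      have e : x + y + a - (N + 1) = x + (y + a) - (N + 1) := by omega
      rw [e]
      exact h4
    · have h3 := hy1 a ha (by omega) (by omega)
      have h4 := hx2 _ h3 (by omega)
      have e : x + y + a - (N + 1) = x + (y + a - (N + 1)) := by omega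
      rw [e]
      exact h4
  · intro b hb hK
    have h3 := hy2 b hb (by omega)
    have h4 := hx2 _ h3 (by omega)
    rw [add_assoc]
    exact h4

theorem goodK_mul9 {K N : ℕ} {B A : Finset ℕ} {x : ℕ} (hx : x ∈ goodK K B N A) :
    ∀ k : ℕ, (k + 1) * x ≤ N → (k + 1) * x ∈ goodK K B N A := by
  intro k
  induction k with
  | zero => intro _; simpa using hx
  | succ k ih =>
    intro hk
    have hk1 : (k + 1) * x ≤ N := le_trans (Nat.mul_le_mul_right x (Nat.le_succ _)) hk
    have e : (k + 1 + 1) * x = x + (k + 1) * x := by ring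
    rw [e] at hk ⊢
    exact goodK_add9 hx (ih hk1) hk

theorem rowKMul9 : StKMul := by
  intro K N s B A hs h3s hA hno x hx
  by_contra hcon
  rw [not_lt] at hcon
  have hxA : x ∈ A := by
    unfold goodK good at hx
    exact (mem_filter.mp (mem_filter.mp hx).1).1
  have hx1 : 1 ≤ x := (mem_Icc.mp (hA hxA)).1
  have hxs : x < s := by
    by_contra h
    rw [not_lt] at h
    exact hno x hx ⟨h, hcon⟩
  -- the first multiple of `x` which is at least `s`
  obtain ⟨k, hk1, hk2⟩ : ∃ k : ℕ, s ≤ (k + 1) * x ∧ (k + 1) * x < s + x := by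
    refine ⟨(s - 1) / x, ?_, ?_⟩
    · have h1 := Nat.lt_div_mul_add (a := s - 1) (b := x) (by omega)
      have h2 : ((s - 1) / x + 1) * x = (s - 1) / x * x + x := by ring
      omega
    · have h1 := Nat.div_mul_le_self (s - 1) x
      have h2 : ((s - 1) / x + 1) * x = (s - 1) / x * x + x := by ring
      omega
  have h4 : (k + 1) * x ≤ N := by omega
  exact hno _ (goodK_mul9 hx k h4) ⟨hk1, by omega⟩

end Pool.Agent.Lib.MP_eee9c1_co.TP
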