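import Pool.Agent.Lib.MP_eee9c1_co.TP.DefsK17

/-! Row KSEM1 of `DefsK17` (helper76). -/

set_option autoImplicit false

namespace Pool.Agent.Lib.MP_eee9c1_co.TP

open Finset

/-- nonzero elements are at least `N + 1` -/
theorem sgK76_ge (K : ℕ) (B : Finset ℕ) (c : ℕ × Finset ℕ) (n : ℕ) (hn : n ∈ SgK K (B, c))
    (h0 : n ≠ 0) : c.1 + 1 ≤ n := by
  have key : n = 0 ∨ n = c.1 + 1 ∨ (∃ a ∈ c.2, n = c.1 + 1 + a) ∨
    (∃ b ∈ B, n = 2 * (c.1 + 1) + b) ∨ 2 * (c.1 + 1) + K ≤ n := hn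
  rcases key with h | h | ⟨a, _, h⟩ | ⟨b, _, h⟩ | h <;> omega

theorem sgK76_big (K : ℕ) (B : Finset ℕ) (c : ℕ × Finset ℕ) (n : ℕ)
    (hn : 2 * (c.1 + 1) + K ≤ n) : n ∈ SgK K (B, c) :=
  Or.inr (Or.inr (Or.inr (Or.inr hn)))

/-- elements of the first two levels -/
theorem sgK76_lev (K : ℕ) (B : Finset ℕ) (c : ℕ × Finset ℕ) (n : ℕ) (hn : n ∈ SgK K (B, c))
    (h0 : n ≠ 0) : (∃ a ∈ insert 0 c.2, n = c.1 + 1 + a) ∨ (∃ b ∈ B, n = 2 * (c.1 + 1) + b) ∨
      2 * (c.1 + 1) + K ≤ n := by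
  rcases hn with h | h | ⟨a, ha, h⟩ | ⟨b, hb, h⟩ | h
  · exact absurd h h0
  · exact Or.inl ⟨0, Finset.mem_insert_self _ _, h⟩
  · exact Or.inl ⟨a, Finset.mem_insert_of_mem ha, h⟩
  · exact Or.inr (Or.inl ⟨b, hb, h⟩)
  · exact Or.inr (Or.inr h)

theorem sgK76_lev' (K : ℕ) (B : Finset ℕ) (c : ℕ × Finset ℕ) (a : ℕ) (ha : a ∈ insert 0 c.2) :
    c.1 + 1 + a ∈ SgK K (B, c) := by
  rcases Finset.mem_insert.mp ha with h | h
  · rw [h]; exact Or.inr (Or.inl rfl)
  · exact Or.inr (Or.inr (Or.inl ⟨a, h, rfl⟩))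

/-- elements of the second level -/
theorem sgK76_two (K : ℕ) (B : Finset ℕ) (c : ℕ × Finset ℕ) (hA : c.2 ⊆ Icc 1 c.1) (d : ℕ) :
    2 * (c.1 + 1) + d ∈ SgK K (B, c) ↔ (d < K → d ∈ B) := by
  constructor
  · intro h hd
    have key : 2 * (c.1 + 1) + d = 0 ∨ 2 * (c.1 + 1) + d = c.1 + 1 ∨
      (∃ a ∈ c.2, 2 * (c.1 + 1) + d = c.1 + 1 + a) ∨
      (∃ b ∈ B, 2 * (c.1 + 1) + d = 2 * (c.1 + 1) + b) ∨
      2 * (c.1 + 1) + K ≤ 2 * (c.1 + 1) + d := h
    rcases key with h | h | ⟨a, ha, h⟩ | ⟨b, hb, h⟩ | h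
    · omega
    · omega
    · have := Finset.mem_Icc.mp (hA ha)
      omega
    · have : d = b := by omega
      exact this ▸ hb
    · omega
  · intro h
    rcases lt_or_ge d K with hd | hd
    · exact Or.inr (Or.inr (Or.inr (Or.inl ⟨d, h hd, rfl⟩)))
    · exact sgK76_big K B c _ (by omega)

/-- elements of the first level -/
theorem sgK76_one (K : ℕ) (B : Finset ℕ) (c : ℕ × Finset ℕ) (a : ℕ) (h1 : 1 ≤ a) (h2 : a ≤ c.1) :
    c.1 + 1 + a ∈ SgK K (B, c) ↔ a ∈ c.2 := by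
  constructor
  · intro h
    have key : c.1 + 1 + a = 0 ∨ c.1 + 1 + a = c.1 + 1 ∨
      (∃ a' ∈ c.2, c.1 + 1 + a = c.1 + 1 + a') ∨
      (∃ b ∈ B, c.1 + 1 + a = 2 * (c.1 + 1) + b) ∨
      2 * (c.1 + 1) + K ≤ c.1 + 1 + a := h
    rcases key with h | h | ⟨a', ha, h⟩ | ⟨b, hb, h⟩ | h
    · omega
    · omega
    · have : a = a' := by omega
      exact this ▸ ha
    · omega
    · omega
  · intro h
    exact Or.inr (Or.inr (Or.inl ⟨a, h, rfl⟩))

/-- the gaps -/
theorem sgK76_not (K : ℕ) (B : Finset ℕ) (c : ℕ × Finset ℕ) (hA : c.2 ⊆ Icc 1 c.1) (n : ℕ) :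
    n ∉ SgK K (B, c) ↔ (1 ≤ n ∧ n ≤ c.1) ∨
      (∃ a, ((1 ≤ a ∧ a ≤ c.1) ∧ a ∉ c.2) ∧ c.1 + 1 + a = n) ∨
      (∃ b, (b < K ∧ b ∉ B) ∧ 2 * (c.1 + 1) + b = n) := by
  constructor
  · intro hn
    have h0 : n ≠ 0 := fun h => hn (Or.inl h)
    have h1 : n ≠ c.1 + 1 := fun h => hn (Or.inr (Or.inl h))
    have h3 : n < 2 * (c.1 + 1) + K := by
      by_contra h
      exact hn (sgK76_big K B c n (not_lt.mp h))
    rcases le_or_gt n c.1 with h | h
    · exact Or.inl ⟨by omega, h⟩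
    rcases lt_or_ge n (2 * (c.1 + 1)) with h' | h'
    · refine Or.inr (Or.inl ⟨n - (c.1 + 1), ⟨⟨by omega, by omega⟩, ?_⟩, by omega⟩)
      intro hb
      apply hn
      have := (sgK76_one K B c (n - (c.1 + 1)) (by omega) (by omega)).mpr hb
      rwa [show c.1 + 1 + (n - (c.1 + 1)) = n by omega] at this
    · refine Or.inr (Or.inr ⟨n - 2 * (c.1 + 1), ⟨by omega, ?_⟩, by omega⟩)
      intro hb
      apply hn
      have := (sgK76_two K B c hA (n - 2 * (c.1 + 1))).mpr (fun _ => hb)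
      rwa [show 2 * (c.1 + 1) + (n - 2 * (c.1 + 1)) = n by omega] at this
  · rintro (⟨h1, h2⟩ | ⟨a, ⟨⟨ha1, ha2⟩, ha3⟩, rfl⟩ | ⟨b, ⟨hb1, hb2⟩, rfl⟩) hn
    · have := sgK76_ge K B c n hn (by omega)
      omega
    · exact ha3 ((sgK76_one K B c a ha1 ha2).mp hn)
    · exact hb2 ((sgK76_two K B c hA b).mp hn hb1)

theorem sgK76_compl (K : ℕ) (B : Finset ℕ) (c : ℕ × Finset ℕ) (hA : c.2 ⊆ Icc 1 c.1) :
    (SgK K (B, c))ᶜ = ((Icc 1 c.1 ∪ ((Icc 1 c.1 \ c.2).image (fun b => c.1 + 1 + b) ∪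
      (range K \ B).image (fun b => 2 * (c.1 + 1) + b)) : Finset ℕ) : Set ℕ) := by
  ext n
  rw [Set.mem_compl_iff, sgK76_not K B c hA]
  simp only [Finset.coe_union, Set.mem_union, Finset.mem_coe, Finset.mem_Icc,
    Finset.mem_image, Finset.mem_sdiff, Finset.mem_range]

/-- the pseudo-Frobenius numbers -/
theorem sgK76_PF (K : ℕ) (B : Finset ℕ) (c : ℕ × Finset ℕ) (hA : c.2 ⊆ Icc 1 c.1)
    (hK : K ≤ c.1) :
    PF (SgK K (B, c)) = ((goodK K B c.1 c.2 ∪
      (((Icc 1 c.1 \ c.2) \ npf K B c.2).image (fun b => c.1 + 1 + b) ∪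
      (range K \ B).image (fun b => 2 * (c.1 + 1) + b)) : Finset ℕ) : Set ℕ) := by
  ext n
  simp only [PF, Set.mem_ofPred_eq, Finset.coe_union, Set.mem_union, Finset.mem_coe,
    Finset.mem_image, Finset.mem_sdiff, Finset.mem_Icc, goodK, good, npf, Finset.mem_filter,
    Finset.mem_range, Finset.mem_Ico]
  constructor
  · rintro ⟨hn, hs⟩
    rcases (sgK76_not K B c hA n).mp hn with ⟨h1, h2⟩ | ⟨a, ⟨ha, ha3⟩, rfl⟩ | h
    · left
      have hnA : n ∈ c.2 := by
        have hm := hs _ (sgK76_lev' K B c 0 (Finset.mem_insert_self _ _)) (by omega)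
        apply (sgK76_one K B c n h1 h2).mp
        rwa [show c.1 + 1 + n = n + (c.1 + 1 + 0) by omega]
      refine ⟨⟨hnA, ?_⟩, ?_, ?_⟩
      · intro a ha hle
        have ha1 : 1 ≤ a := (Finset.mem_Icc.mp (hA ha)).1
        have hm := hs _ (sgK76_lev' K B c a (Finset.mem_insert_of_mem ha)) (by omega)
        apply (sgK76_one K B c (n + a) (by omega) hle).mp
        rwa [show c.1 + 1 + (n + a) = n + (c.1 + 1 + a) by omega]
      · intro a ha hle hlt
        have hm := hs _ (sgK76_lev' K B c a (Finset.mem_insert_of_mem ha)) (by omega)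
        apply (sgK76_two K B c hA _).mp _ hlt
        rwa [show 2 * (c.1 + 1) + (n + a - (c.1 + 1)) = n + (c.1 + 1 + a) by omega]
      · intro b hb hlt
        have hm := hs _ ((sgK76_two K B c hA b).mpr (fun _ => hb)) (by omega)
        apply (sgK76_two K B c hA _).mp _ hlt
        rwa [show 2 * (c.1 + 1) + (n + b) = n + (2 * (c.1 + 1) + b) by omega]
    · right; left
      refine ⟨a, ⟨⟨ha, ha3⟩, ?_⟩, rfl⟩
      rintro ⟨_, _, a', ha', hlt, hnB⟩
      apply hnB
      have hm := hs _ (sgK76_lev' K B c a' ha') (by omega)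
      apply (sgK76_two K B c hA _).mp _ hlt
      rwa [show 2 * (c.1 + 1) + (a + a') = c.1 + 1 + a + (c.1 + 1 + a') by omega]
    · right; right
      exact h
  · rintro (⟨⟨hnA, hg⟩, hg2, hg3⟩ | ⟨a, ⟨⟨ha, ha3⟩, ha4⟩, rfl⟩ | ⟨b, hb, rfl⟩)
    · have h12 := Finset.mem_Icc.mp (hA hnA)
      refine ⟨(sgK76_not K B c hA n).mpr (Or.inl h12), ?_⟩
      intro s hs h0
      rcases sgK76_lev K B c s hs h0 with ⟨a, ha, rfl⟩ | ⟨b, hb, rfl⟩ | h
      · rcases Finset.mem_insert.mp ha with h | h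
        · rw [h, show n + (c.1 + 1 + 0) = c.1 + 1 + n by omega]
          exact (sgK76_one K B c n h12.1 h12.2).mpr hnA
        · rcases le_or_gt (n + a) c.1 with hle | hlt
          · rw [show n + (c.1 + 1 + a) = c.1 + 1 + (n + a) by omega]
            exact (sgK76_one K B c (n + a) (by omega) hle).mpr (hg a h hle)
          · rw [show n + (c.1 + 1 + a) = 2 * (c.1 + 1) + (n + a - (c.1 + 1)) by omega]
            exact (sgK76_two K B c hA _).mpr (hg2 a h hlt)
      · rw [show n + (2 * (c.1 + 1) + b) = 2 * (c.1 + 1) + (n + b) by omega]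
        exact (sgK76_two K B c hA _).mpr (hg3 b hb)
      · exact sgK76_big K B c _ (by omega)
    · refine ⟨(sgK76_not K B c hA _).mpr (Or.inr (Or.inl ⟨a, ⟨ha, ha3⟩, rfl⟩)), ?_⟩
      intro s hs h0
      rcases sgK76_lev K B c s hs h0 with ⟨a', ha', rfl⟩ | ⟨b, hb, rfl⟩ | h
      · rw [show c.1 + 1 + a + (c.1 + 1 + a') = 2 * (c.1 + 1) + (a + a') by omega]
        refine (sgK76_two K B c hA _).mpr (fun hlt => ?_)
        by_contra hnB
        exact ha4 ⟨⟨ha.1, by omega⟩, ha3, a', ha', hlt, hnB⟩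
      · exact sgK76_big K B c _ (by omega)
      · exact sgK76_big K B c _ (by omega)
    · refine ⟨(sgK76_not K B c hA _).mpr (Or.inr (Or.inr ⟨b, hb, rfl⟩)), ?_⟩
      intro s hs h0
      have := sgK76_ge K B c s hs h0
      exact sgK76_big K B c _ (by omega)

theorem rowKSem1_76 : StKSem1 := by
  intro K g B c hKg hB hOk hc
  rw [conf, Finset.mem_filter] at hc
  obtain ⟨_, hA, hcard⟩ := hc
  have hBc : B.card ≤ K := by
    have := Finset.card_le_card hB
    rwa [Finset.card_range] at this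
  have hK : K ≤ c.1 := by omega
  have hle : c.2.card ≤ c.1 := by
    have := Finset.card_le_card hA
    rw [Nat.card_Icc] at this
    omega
  have hnpf : npf K B c.2 ⊆ Icc 1 c.1 \ c.2 := by
    intro a ha
    rw [npf, Finset.mem_filter, Finset.mem_Ico] at ha
    rw [Finset.mem_sdiff, Finset.mem_Icc]
    exact ⟨⟨ha.1.1, by omega⟩, ha.2.1⟩
  have hsd : (Icc 1 c.1 \ c.2).card = c.1 - c.2.card := by
    rw [Finset.card_sdiff_of_subset hA, Nat.card_Icc]
    omega
  have himg : ((Icc 1 c.1 \ c.2).image (fun b => c.1 + 1 + b)).card = c.1 - c.2.card := by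
    rw [Finset.card_image_of_injective _ (fun a b h => by simpa using h), hsd]
  have himg2 : ((range K \ B).image (fun b => 2 * (c.1 + 1) + b)).card = K - B.card := by
    rw [Finset.card_image_of_injective _ (fun a b h => by simpa using h),
      Finset.card_sdiff_of_subset hB, Finset.card_range]
  have himg3 : (((Icc 1 c.1 \ c.2) \ npf K B c.2).image (fun b => c.1 + 1 + b)).card +
      (npf K B c.2).card = c.1 - c.2.card := by
    rw [Finset.card_image_of_injective _ (fun a b h => by simpa using h),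
      Finset.card_sdiff_of_subset hnpf, hsd]
    have := Finset.card_le_card hnpf
    omega
  refine ⟨⟨Or.inl rfl, ?_, ?_⟩, ?_, ?_, ?_⟩
  · intro a ha b hb
    rcases Nat.eq_zero_or_pos a with h | h
    · rw [h, Nat.zero_add]; exact hb
    rcases Nat.eq_zero_or_pos b with h' | h'
    · rw [h', Nat.add_zero]; exact ha
    have h1 := sgK76_ge K B c a ha (by omega)
    have h2 := sgK76_ge K B c b hb (by omega)
    rcases sgK76_lev K B c a ha (by omega) with ⟨x, hx, rfl⟩ | ⟨x, hx, rfl⟩ | h3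
    · rcases sgK76_lev K B c b hb (by omega) with ⟨y, hy, rfl⟩ | ⟨y, hy, rfl⟩ | h4
      · rw [show c.1 + 1 + x + (c.1 + 1 + y) = 2 * (c.1 + 1) + (x + y) by omega]
        exact (sgK76_two K B c hA _).mpr (hOk x hx y hy)
      · exact sgK76_big K B c _ (by omega)
      · exact sgK76_big K B c _ (by omega)
    · exact sgK76_big K B c _ (by omega)
    · exact sgK76_big K B c _ (by omega)
  · rw [sgK76_compl K B c hA]
    exact Finset.finite_toSet _
  · intro s hs h0 n hn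
    have h1 := sgK76_ge K B c s hs h0
    exact sgK76_big K B c _ (by omega)
  · rw [genus, sgK76_compl K B c hA, Set.ncard_coe_finset, Finset.card_union_of_disjoint,
      Finset.card_union_of_disjoint, himg, himg2, Nat.card_Icc]
    · omega
    · rw [Finset.disjoint_left]
      intro n hn hm
      rw [Finset.mem_image] at hn hm
      obtain ⟨a, ha, rfl⟩ := hn
      obtain ⟨b, _, hb⟩ := hm
      have := Finset.mem_Icc.mp (Finset.mem_sdiff.mp ha).1
      omega
    · rw [Finset.disjoint_left]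
      intro n hn hm
      rw [Finset.mem_Icc] at hn
      rw [Finset.mem_union, Finset.mem_image, Finset.mem_image] at hm
      rcases hm with ⟨b, _, hb⟩ | ⟨b, _, hb⟩ <;> omega
  · rw [typ, sgK76_PF K B c hA hK, Set.ncard_coe_finset, Finset.card_union_of_disjoint,
      Finset.card_union_of_disjoint, himg2]
    · omega
    · rw [Finset.disjoint_left]
      intro n hn hm
      rw [Finset.mem_image] at hn hm
      obtain ⟨a, ha, rfl⟩ := hn
      obtain ⟨b, _, hb⟩ := hm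
      have := Finset.mem_Icc.mp (Finset.mem_sdiff.mp (Finset.mem_sdiff.mp ha).1).1
      omega
    · rw [Finset.disjoint_left]
      intro n hn hm
      rw [goodK, Finset.mem_filter, good, Finset.mem_filter] at hn
      have hn' := Finset.mem_Icc.mp (hA hn.1.1)
      rw [Finset.mem_union, Finset.mem_image, Finset.mem_image] at hm
      rcases hm with ⟨b, _, hb⟩ | ⟨b, _, hb⟩ <;> omega

end Pool.Agent.Lib.MP_eee9c1_co.TP
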