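import Pool.Agent.Lib.MP_eee9c1_co.TP.DefsK17

/-! MP_eee9c1: row KSEM2 (helper73). -/

set_option autoImplicit false

namespace Pool.Agent.Lib.MP_eee9c1_co.TP

open Finset

theorem mem_confK73 {g : ℕ} {c : ℕ × Finset ℕ} :
    c ∈ conf g ↔ (c.1 < g + 1 ∧ c.2 ⊆ Icc 1 g) ∧ c.2 ⊆ Icc 1 c.1 ∧ 2 * c.1 = g + c.2.card := by
  simp [conf]

theorem auxK73 {K : ℕ} {B B' : Finset ℕ} {c d : ℕ × Finset ℕ} (h : SgK K (B, c) = SgK K (B', d)) :
    d.1 ≤ c.1 := by
  have h1 : c.1 + 1 ∈ SgK K (B, c) := Or.inr (Or.inl rfl)
  rw [h] at h1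
  rcases h1 with h1 | h1 | ⟨a, ha, h1⟩ | ⟨b, hb, h1⟩ | h1
  · omega
  · simp only at h1; omega
  · simp only at h1; omega
  · simp only at h1; omega
  · simp only at h1; omega

theorem auxKA73 {K : ℕ} {B B' : Finset ℕ} {c d : ℕ × Finset ℕ} (hc : c.2 ⊆ Icc 1 c.1)
    (h : SgK K (B, c) = SgK K (B', d)) (he : c.1 = d.1) : c.2 ⊆ d.2 := by
  intro a ha
  have hb := Finset.mem_Icc.1 (hc ha)
  have h1 : c.1 + 1 + a ∈ SgK K (B, c) := Or.inr (Or.inr (Or.inl ⟨a, ha, rfl⟩))
  rw [h] at h1
  rcases h1 with h1 | h1 | ⟨b, hb', h1⟩ | ⟨b, hb', h1⟩ | h1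
  · omega
  · simp only at h1; omega
  · simp only at h1 hb'
    have : a = b := by omega
    rw [this]; exact hb'
  · simp only at h1; omega
  · simp only at h1; omega

theorem auxKB73 {K : ℕ} {B B' : Finset ℕ} {c d : ℕ × Finset ℕ} (hd : d.2 ⊆ Icc 1 d.1)
    (hB : B ⊆ range K) (h : SgK K (B, c) = SgK K (B', d)) (he : c.1 = d.1) : B ⊆ B' := by
  intro a ha
  have hb := Finset.mem_range.1 (hB ha)
  have h1 : 2 * (c.1 + 1) + a ∈ SgK K (B, c) := Or.inr (Or.inr (Or.inr (Or.inl ⟨a, ha, rfl⟩)))
  rw [h] at h1
  rcases h1 with h1 | h1 | ⟨b, hb', h1⟩ | ⟨b, hb', h1⟩ | h1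
  · omega
  · simp only at h1; omega
  · simp only at h1 hb'
    have := Finset.mem_Icc.1 (hd hb')
    omega
  · simp only at h1 hb'
    have : a = b := by omega
    rw [this]; exact hb'
  · simp only at h1; omega

theorem rowKSem2_73 : StKSem2 := by
  classical
  intro K g hKg
  refine ⟨?_, ?_⟩
  · intro B B' c d hB hB' _ _ hc hd h
    obtain ⟨-, hc1, -⟩ := mem_confK73.1 hc
    obtain ⟨-, hd1, -⟩ := mem_confK73.1 hd
    have h1 : c.1 = d.1 := le_antisymm (auxK73 h.symm) (auxK73 h)
    exact ⟨Finset.Subset.antisymm (auxKB73 hd1 hB h h1) (auxKB73 hc1 hB' h.symm h1.symm),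
      Prod.ext h1 (Finset.Subset.antisymm (auxKA73 hc1 h h1) (auxKA73 hd1 h.symm h1.symm))⟩
  · intro S hS hSh hg
    obtain ⟨h0, hadd, hfin⟩ := hS
    have hex : ∃ s, s ∈ S ∧ s ≠ 0 := by
      by_contra hno
      push Not at hno
      have : S ⊆ {0} := fun x hx => hno x hx
      have hSf : S.Finite := (Set.finite_singleton 0).subset this
      have := hSf.union hfin
      rw [Set.union_compl_self] at this
      exact Set.infinite_univ this
    have hm := Nat.find_spec hex
    have hmin : ∀ k, k ∈ S → k ≠ 0 → Nat.find hex ≤ k := fun k hk hk0 =>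
      Nat.find_min' hex ⟨hk, hk0⟩
    generalize Nat.find hex = m at hm hmin
    obtain ⟨hmS, hm0⟩ := hm
    obtain ⟨N, rfl⟩ : ∃ N, m = N + 1 := ⟨m - 1, by omega⟩
    let A : Finset ℕ := (Icc 1 N).filter (fun a => N + 1 + a ∈ S)
    let B : Finset ℕ := (range K).filter (fun b => 2 * (N + 1) + b ∈ S)
    have hA : A ⊆ Icc 1 N := Finset.filter_subset _ _
    have hB : B ⊆ range K := Finset.filter_subset _ _
    have hAS : ∀ a ∈ insert 0 A, N + 1 + a ∈ S := by
      intro a ha
      rcases Finset.mem_insert.1 ha with h | h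
      · rw [h]; exact hmS
      · exact (Finset.mem_filter.1 h).2
    have hOk : Ok K B A := by
      intro a ha a' ha' hlt
      refine Finset.mem_filter.2 ⟨Finset.mem_range.2 hlt, ?_⟩
      have := hadd _ (hAS a ha) _ (hAS a' ha')
      rwa [show N + 1 + a + (N + 1 + a') = 2 * (N + 1) + (a + a') by ring] at this
    have hmem : ∀ n, n ∈ S ↔ n ∈ SgK K (B, (N, A)) := by
      intro n
      constructor
      · intro hn
        by_cases hn0 : n = 0
        · exact Or.inl hn0
        · have h1 := hmin n hn hn0
          by_cases h2 : n = N + 1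
          · exact Or.inr (Or.inl h2)
          · by_cases h3 : 2 * (N + 1) ≤ n
            · by_cases h4 : 2 * (N + 1) + K ≤ n
              · exact Or.inr (Or.inr (Or.inr (Or.inr h4)))
              · refine Or.inr (Or.inr (Or.inr (Or.inl ⟨n - 2 * (N + 1), ?_, ?_⟩)))
                · refine Finset.mem_filter.2 ⟨Finset.mem_range.2 (by omega), ?_⟩
                  rw [show 2 * (N + 1) + (n - 2 * (N + 1)) = n by omega]
                  exact hn
                · show n = 2 * (N + 1) + (n - 2 * (N + 1))
                  omega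
            · refine Or.inr (Or.inr (Or.inl ⟨n - (N + 1), ?_, ?_⟩))
              · refine Finset.mem_filter.2 ⟨Finset.mem_Icc.2 ⟨by omega, by omega⟩, ?_⟩
                rw [show N + 1 + (n - (N + 1)) = n by omega]
                exact hn
              · show n = N + 1 + (n - (N + 1))
                omega
      · rintro (h | h | ⟨a, ha, h⟩ | ⟨b, hb, h⟩ | h)
        · rw [h]; exact h0
        · rw [h]; exact hmS
        · rw [h]; exact (Finset.mem_filter.1 ha).2
        · rw [h]; exact (Finset.mem_filter.1 hb).2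
        · exact hSh (N + 1) hmS hm0 n h
    have hset : SgK K (B, (N, A)) = S := by
      ext n; exact (hmem n).symm
    let T1 : Finset ℕ := Icc 1 N ∪ ((Icc 1 N) \ A).image (fun a => N + 1 + a)
    let T2 : Finset ℕ := ((range K) \ B).image (fun b => 2 * (N + 1) + b)
    have hT : Sᶜ = ((T1 ∪ T2 : Finset ℕ) : Set ℕ) := by
      ext n
      simp only [Set.mem_compl_iff, Finset.mem_coe]
      constructor
      · intro hn
        by_cases h1 : n < N + 1
        · refine Finset.mem_union_left _ (Finset.mem_union_left _ (Finset.mem_Icc.2 ⟨?_, by omega⟩))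
          rcases Nat.eq_zero_or_pos n with h | h
          · exact absurd (h ▸ h0) hn
          · exact h
        · by_cases h3 : n < 2 * (N + 1)
          · refine Finset.mem_union_left _ (Finset.mem_union_right _
              (Finset.mem_image.2 ⟨n - (N + 1), ?_, by omega⟩))
            have h2 : n ≠ N + 1 := fun h => hn (h ▸ hmS)
            refine Finset.mem_sdiff.2 ⟨Finset.mem_Icc.2 ⟨by omega, by omega⟩, ?_⟩
            intro h
            have := (Finset.mem_filter.1 h).2
            rw [show N + 1 + (n - (N + 1)) = n by omega] at this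
            exact hn this
          · refine Finset.mem_union_right _ (Finset.mem_image.2 ⟨n - 2 * (N + 1), ?_, by omega⟩)
            have h4 : n < 2 * (N + 1) + K := by
              by_contra h
              exact hn (hSh (N + 1) hmS hm0 n (by omega))
            refine Finset.mem_sdiff.2 ⟨Finset.mem_range.2 (by omega), ?_⟩
            intro h
            have := (Finset.mem_filter.1 h).2
            rw [show 2 * (N + 1) + (n - 2 * (N + 1)) = n by omega] at this
            exact hn this
      · intro hn hnS
        rcases Finset.mem_union.1 hn with hn | h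
        · rcases Finset.mem_union.1 hn with h | h
          · have := Finset.mem_Icc.1 h
            have := hmin n hnS (by omega)
            omega
          · obtain ⟨a, ha, rfl⟩ := Finset.mem_image.1 h
            obtain ⟨ha1, ha2⟩ := Finset.mem_sdiff.1 ha
            exact ha2 (Finset.mem_filter.2 ⟨ha1, hnS⟩)
        · obtain ⟨a, ha, rfl⟩ := Finset.mem_image.1 h
          obtain ⟨ha1, ha2⟩ := Finset.mem_sdiff.1 ha
          exact ha2 (Finset.mem_filter.2 ⟨ha1, hnS⟩)
    have hT1c : T1.card = N + (N - A.card) := by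
      have hdis : Disjoint (Icc 1 N) (((Icc 1 N) \ A).image (fun a => N + 1 + a)) := by
        rw [Finset.disjoint_left]
        intro n h1 h2
        obtain ⟨a, ha, rfl⟩ := Finset.mem_image.1 h2
        have := Finset.mem_Icc.1 h1
        omega
      rw [Finset.card_union_of_disjoint hdis, Finset.card_image_of_injective _
        (fun a b h => by simpa using h), Finset.card_sdiff_of_subset hA, Nat.card_Icc]
      simp
    have hT2c : T2.card = K - B.card := by
      rw [Finset.card_image_of_injective _ (fun a b h => by simpa using h),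
        Finset.card_sdiff_of_subset hB, Finset.card_range]
    have hdis : Disjoint T1 T2 := by
      rw [Finset.disjoint_left]
      intro n h1 h2
      obtain ⟨b, hb, rfl⟩ := Finset.mem_image.1 h2
      rcases Finset.mem_union.1 h1 with h | h
      · have := Finset.mem_Icc.1 h
        omega
      · obtain ⟨a, ha, h⟩ := Finset.mem_image.1 h
        have := Finset.mem_Icc.1 (Finset.mem_sdiff.1 ha).1
        omega
    have hAc : A.card ≤ N := by
      have := Finset.card_le_card hA
      simpa using this
    have hBc : B.card ≤ K := by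
      have := Finset.card_le_card hB
      simpa using this
    have hgen : N + (N - A.card) + (K - B.card) = g := by
      rw [← hT1c, ← hT2c, ← Finset.card_union_of_disjoint hdis, ← hg, genus, hT,
        Set.ncard_coe_finset]
    refine ⟨B, (N, A), hB, hOk, mem_confK73.2 ⟨⟨?_, ?_⟩, hA, ?_⟩, hset⟩
    · show N < g - (K - B.card) + 1
      omega
    · exact hA.trans (Finset.Icc_subset_Icc_right (by omega))
    · show 2 * N = g - (K - B.card) + A.card
      omega

end Pool.Agent.Lib.MP_eee9c1_co.TP
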