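import Pool.Agent.Lib.MP_eee9c1_co.TP.DefsK17

/-! Row KTOP (helper88). -/

set_option autoImplicit false

namespace Pool.Agent.Lib.MP_eee9c1_co.TP

open Finset

namespace T88

/-- two configurations with the same first and last `q` places -/
def Same (q : ℕ) (c c' : ℕ × Finset ℕ) : Prop :=
  M60.lo q c = M60.lo q c' ∧ M60.up q c = M60.up q c'

lemma Same.symm {q : ℕ} {c c' : ℕ × Finset ℕ} (h : Same q c c') : Same q c' c :=
  ⟨h.1.symm, h.2.symm⟩

lemma mem_low {q : ℕ} {c c' : ℕ × Finset ℕ} (h : Same q c c') {x : ℕ} (hx : x ≤ q)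
    (hx2 : x ∈ c.2) : x ∈ c'.2 := by
  have h1 : x ∈ M60.lo q c := mem_filter.mpr ⟨hx2, hx⟩
  rw [h.1] at h1
  exact (mem_filter.mp h1).1

lemma mem_high {q : ℕ} {c c' : ℕ × Finset ℕ} (h : Same q c c') (hc' : c'.2 ⊆ Icc 1 c'.1)
    (hq : q ≤ c.1) {j : ℕ} (hj : j < q)
    (hx2 : c.1 - j ∈ c.2) : c'.1 - j ∈ c'.2 := by
  have h1 : j ∈ M60.up q c := by
    unfold M60.up
    rw [mem_image]
    exact ⟨c.1 - j, mem_filter.mpr ⟨hx2, by omega⟩, by omega⟩
  rw [h.2] at h1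
  unfold M60.up at h1
  rw [mem_image] at h1
  obtain ⟨x, hx, hxj⟩ := h1
  rw [mem_filter] at hx
  have h3 := mem_Icc.mp (hc' hx.1)
  have e : c'.1 - j = x := by omega
  rw [e]
  exact hx.1

lemma ok_imp {K q : ℕ} (B : Finset ℕ) {c c' : ℕ × Finset ℕ} (h : Same q c c') (hK : K ≤ q)
    (ho : Ok K B c.2) : Ok K B c'.2 := by
  intro a ha a' ha' hlt
  have h1 : a ∈ insert 0 c.2 := by
    rcases mem_insert.mp ha with h2 | h2
    · exact mem_insert.mpr (Or.inl h2)
    · exact mem_insert.mpr (Or.inr (mem_low h.symm (by omega) h2))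
  have h1' : a' ∈ insert 0 c.2 := by
    rcases mem_insert.mp ha' with h2 | h2
    · exact mem_insert.mpr (Or.inl h2)
    · exact mem_insert.mpr (Or.inr (mem_low h.symm (by omega) h2))
  exact ho a h1 a' h1' hlt

lemma npf_sub {K q : ℕ} (B : Finset ℕ) {c c' : ℕ × Finset ℕ} (h : Same q c c') (hK : K ≤ q) :
    npf K B c.2 ⊆ npf K B c'.2 := by
  intro a ha
  unfold npf at ha ⊢
  rw [mem_filter] at ha ⊢
  obtain ⟨h1, h2, a', h3, h4, h5⟩ := ha
  have h6 := mem_Ico.mp h1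
  refine ⟨h1, fun h7 => h2 (mem_low h.symm (by omega) h7), a', ?_, h4, h5⟩
  rcases mem_insert.mp h3 with h8 | h8
  · exact mem_insert.mpr (Or.inl h8)
  · exact mem_insert.mpr (Or.inr (mem_low h (by omega) h8))

lemma good_imp {K s : ℕ} (B : Finset ℕ) {c c' : ℕ × Finset ℕ} (h : Same (s + K) c c')
    (hc' : c'.2 ⊆ Icc 1 c'.1) (hq : 2 * (s + K) ≤ c.1) (hq' : 2 * (s + K) ≤ c'.1)
    {j : ℕ} (hj : j < s) (hg : c.1 - j ∈ goodK K B c.1 c.2) :
    c'.1 - j ∈ goodK K B c'.1 c'.2 := by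
  simp only [goodK, good, mem_filter] at hg ⊢
  obtain ⟨⟨h1, h2⟩, h3, _⟩ := hg
  refine ⟨⟨mem_high h hc' (by omega) (by omega) h1, ?_⟩, ?_, ?_⟩
  · intro a ha hle
    have h5 := h2 a (mem_low h.symm (by omega) ha) (by omega)
    have e1 : c.1 - j + a = c.1 - (j - a) := by omega
    have e2 : c'.1 - j + a = c'.1 - (j - a) := by omega
    rw [e1] at h5
    rw [e2]
    exact mem_high h hc' (by omega) (by omega) h5
  · intro a ha hle hlt
    have h5 := h3 a (mem_low h.symm (by omega) ha) (by omega) (by omega)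
    have e1 : c.1 - j + a - (c.1 + 1) = c'.1 - j + a - (c'.1 + 1) := by omega
    rw [e1] at h5
    exact h5
  · intro b _ hlt
    omega

lemma card_top {K s : ℕ} (B : Finset ℕ) {c : ℕ × Finset ℕ} (hc : c.2 ⊆ Icc 1 c.1)
    (hq : 2 * (s + K) ≤ c.1) :
    ((goodK K B c.1 c.2).filter (fun x => c.1 < x + s)).card =
      ((range s).filter (fun j => c.1 - j ∈ goodK K B c.1 c.2)).card := by
  have hle : ∀ x ∈ goodK K B c.1 c.2, x ≤ c.1 := by
    intro x hx
    simp only [goodK, good, mem_filter] at hx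
    exact (mem_Icc.mp (hc hx.1.1)).2
  refine card_bij (fun x _ => c.1 - x) ?_ ?_ ?_
  · intro x hx
    rw [mem_filter] at hx
    have h1 := hle x hx.1
    rw [mem_filter, mem_range]
    have e : c.1 - (c.1 - x) = x := by omega
    rw [e]
    exact ⟨by omega, hx.1⟩
  · intro x hx y hy h
    rw [mem_filter] at hx hy
    have h1 := hle x hx.1
    have h2 := hle y hy.1
    have h' : c.1 - x = c.1 - y := h
    omega
  · intro j hj
    rw [mem_filter, mem_range] at hj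
    refine ⟨c.1 - j, ?_, by omega⟩
    rw [mem_filter]
    exact ⟨hj.2, by omega⟩

/-- the right side -/
def rhs (K s : ℕ) (B : Finset ℕ) (c : ℕ × Finset ℕ) : ℤ :=
  if Ok K B c.2 then (-1 : ℤ) ^ ((K - B.card) + (npf K B c.2).card +
        ((goodK K B c.1 c.2).filter (fun x => c.1 < x + s)).card) else 0

lemma abs_rhs (K s : ℕ) (B : Finset ℕ) (c : ℕ × Finset ℕ) : |rhs K s B c| ≤ 1 := by
  unfold rhs
  split_ifs
  · rw [abs_pow]; simp
  · simp

lemma rhs_eq {K s : ℕ} (B : Finset ℕ) {c c' : ℕ × Finset ℕ} (h : Same (s + K) c c')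
    (hc : c.2 ⊆ Icc 1 c.1) (hc' : c'.2 ⊆ Icc 1 c'.1)
    (hq : 2 * (s + K) ≤ c.1) (hq' : 2 * (s + K) ≤ c'.1) : rhs K s B c = rhs K s B c' := by
  have h1 : Ok K B c.2 ↔ Ok K B c'.2 :=
    ⟨ok_imp B h (Nat.le_add_left K s), ok_imp B h.symm (Nat.le_add_left K s)⟩
  have h2 : npf K B c.2 = npf K B c'.2 :=
    subset_antisymm (npf_sub B h (Nat.le_add_left K s)) (npf_sub B h.symm (Nat.le_add_left K s))
  have h3 : ((goodK K B c.1 c.2).filter (fun x => c.1 < x + s)).card =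
      ((goodK K B c'.1 c'.2).filter (fun x => c'.1 < x + s)).card := by
    rw [card_top B hc hq, card_top B hc' hq']
    congr 1
    refine filter_congr fun j hj => ?_
    rw [mem_range] at hj
    exact ⟨good_imp B h hc' hq hq' hj, good_imp B h.symm hc hq' hq hj⟩
  unfold rhs
  by_cases ho : Ok K B c.2
  · rw [if_pos ho, if_pos (h1.mp ho), h2, h3]
  · rw [if_neg ho, if_neg (fun h4 => ho (h1.mpr h4))]

end T88

theorem rowKTop88 : StKTop := by
  classical
  intro K s B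
  let P : Finset ℕ × Finset ℕ → ℕ × Finset ℕ → Prop := fun p c =>
    c.2 ⊆ Icc 1 c.1 ∧ 2 * (s + K) ≤ c.1 ∧ M60.lo (s + K) c = p.1 ∧ M60.up (s + K) c = p.2
  refine ⟨fun p => if h : ∃ c, P p c then T88.rhs K s B h.choose else 0, ?_, ?_⟩
  · intro p
    beta_reduce
    split_ifs
    · exact T88.abs_rhs K s B _
    · simp
  · intro c hc hq
    have hex : ∃ c', P (M60.lo (s + K) c, M60.up (s + K) c) c' := ⟨c, hc, hq, rfl, rfl⟩
    have hsp := hex.choose_spec
    show (if h : ∃ c', P (M60.lo (s + K) c, M60.up (s + K) c) c' then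
      T88.rhs K s B h.choose else 0) = T88.rhs K s B c
    rw [dif_pos hex]
    exact T88.rhs_eq B ⟨hsp.2.2.1, hsp.2.2.2⟩ hsp.1 hc hsp.2.1 hq

end Pool.Agent.Lib.MP_eee9c1_co.TP
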