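import Pool.Agent.Lib.MP_eee9c1_co.TP.Defs60

/-! Row W. -/

set_option autoImplicit false

namespace Pool.Agent.Lib.MP_eee9c1_co.TP

open Finset

theorem w_base9 (z : ℝ) (hz : z + z ^ 2 = 1) (I : Finset ℕ) :
    ∑ A ∈ I.powerset, z ^ (2 * I.card - A.card) = 1 := by
  classical
  induction I using Finset.induction_on with
  | empty => simp
  | insert a I ha ih =>
    rw [Finset.sum_powerset_insert ha, ← Finset.sum_add_distrib, card_insert_of_notMem ha]
    have h : ∀ t ∈ I.powerset, z ^ (2 * (I.card + 1) - t.card) +
        z ^ (2 * (I.card + 1) - (insert a t).card) = (z + z ^ 2) * z ^ (2 * I.card - t.card) := by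
      intro t ht
      have hts : t ⊆ I := mem_powerset.mp ht
      have hc := card_le_card hts
      rw [card_insert_of_notMem (fun h => ha (hts h))]
      have e1 : 2 * (I.card + 1) - t.card = (2 * I.card - t.card) + 2 := by omega
      have e2 : 2 * (I.card + 1) - (t.card + 1) = (2 * I.card - t.card) + 1 := by omega
      rw [e1, e2]
      ring
    rw [Finset.sum_congr rfl h, ← Finset.mul_sum, ih, hz, one_mul]

theorem rowW9 : StW := by
  classical
  intro z hz x J
  induction J using Finset.induction_on with
  | empty =>
    intro I _ _ _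
    simpa using w_base9 z hz I
  | insert a J ha ih =>
    intro I hJI hJx hdis
    have haI : a ∈ I := hJI (mem_insert_self _ _)
    have hb_im : a + x ∈ (insert a J).image (fun c => c + x) :=
      mem_image_of_mem (fun c => c + x) (mem_insert_self a J)
    have hbI : a + x ∈ I := hJx hb_im
    have hdis' := Finset.disjoint_left.mp hdis
    have hab : a ≠ a + x := by
      intro h
      apply hdis' (mem_insert_self a J)
      rw [h] at hb_im ⊢
      rw [← h]
      simpa using Or.inl (show x = 0 by omega)
    have hbJ : a + x ∉ J := fun h => hdis' (mem_insert_of_mem h) hb_im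
    have himg : ∀ c ∈ J, c + x ∈ (insert a J).image (fun c => c + x) := fun c hc =>
      mem_image_of_mem (fun c => c + x) (mem_insert_of_mem hc)
    have hca : ∀ c ∈ J, c + x ≠ a := fun c hc h => by
      have := himg c hc
      rw [h] at this
      exact hdis' (mem_insert_self a J) this
    have hcb : ∀ c ∈ J, c + x ≠ a + x := fun c hc h => by
      have : c = a := by omega
      rw [this] at hc
      exact ha hc
    set I0 := (I.erase a).erase (a + x) with hI0
    have hbI0 : a + x ∉ I0 := notMem_erase _ _
    have haI0 : a ∉ insert (a + x) I0 := by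
      rw [mem_insert, hI0, mem_erase, mem_erase]
      rintro (h | h)
      · exact hab h
      · exact h.2.1 rfl
    have hI : I = insert a (insert (a + x) I0) := by
      rw [hI0, insert_erase (mem_erase.mpr ⟨fun h => hab h.symm, hbI⟩), insert_erase haI]
    have hJI0 : J ⊆ I0 := by
      intro c hc
      rw [hI0, mem_erase, mem_erase]
      exact ⟨fun h => hbJ (h ▸ hc), fun h => ha (h ▸ hc), hJI (mem_insert_of_mem hc)⟩
    have hJxI0 : J.image (fun c => c + x) ⊆ I0 := by
      intro d hd
      obtain ⟨c, hc, rfl⟩ := mem_image.mp hd
      rw [hI0, mem_erase, mem_erase]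
      exact ⟨hcb c hc, hca c hc, hJx (himg c hc)⟩
    have hd0 : Disjoint J (J.image (fun c => c + x)) := by
      refine Finset.disjoint_left.mpr fun c hc hc' => ?_
      obtain ⟨d, hd, hde⟩ := mem_image.mp hc'
      exact hdis' (mem_insert_of_mem hc) (by rw [← hde]; exact himg d hd)
    have key := ih I0 hJI0 hJxI0 hd0
    rw [hI, Finset.sum_powerset_insert haI0, Finset.sum_powerset_insert hbI0,
      Finset.sum_powerset_insert hbI0, card_insert_of_notMem haI0, card_insert_of_notMem hbI0,
      card_insert_of_notMem ha, pow_succ', ← key, Finset.mul_sum]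
    rw [← Finset.sum_add_distrib, ← Finset.sum_add_distrib, ← Finset.sum_add_distrib]
    refine Finset.sum_congr rfl fun t ht => ?_
    have hts : t ⊆ I0 := mem_powerset.mp ht
    have hbt : a + x ∉ t := fun h => hbI0 (hts h)
    have hat : a ∉ t := fun h => haI0 (mem_insert_of_mem (hts h))
    have hatb : a ∉ insert (a + x) t := by
      rw [mem_insert]; rintro (h | h)
      · exact hab h
      · exact hat h
    have hc := card_le_card hts
    have hJt : ∀ c ∈ J, c ≠ a := fun c hc h => ha (h ▸ hc)
    have hJb : ∀ c ∈ J, c ≠ a + x := fun c hc h => hbJ (h ▸ hc)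
    -- the four conditions
    have c1 : (∀ c ∈ insert a J, c ∈ t → c + x ∈ t) ↔ (∀ c ∈ J, c ∈ t → c + x ∈ t) := by
      constructor
      · intro h c hc; exact h c (mem_insert_of_mem hc)
      · intro h c hc hct
        rcases mem_insert.mp hc with rfl | hc
        · exact absurd hct hat
        · exact h c hc hct
    have c2 : (∀ c ∈ insert a J, c ∈ insert (a + x) t → c + x ∈ insert (a + x) t) ↔
        (∀ c ∈ J, c ∈ t → c + x ∈ t) := by
      constructor
      · intro h c hc hct
        rcases mem_insert.mp (h c (mem_insert_of_mem hc) (mem_insert_of_mem hct)) with h1 | h1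
        · exact absurd h1 (hcb c hc)
        · exact h1
      · intro h c hc hct
        rcases mem_insert.mp hc with rfl | hc
        · exact absurd hct hatb
        · rcases mem_insert.mp hct with h1 | h1
          · exact absurd h1 (hJb c hc)
          · exact mem_insert_of_mem (h c hc h1)
    have c3 : ¬ (∀ c ∈ insert a J, c ∈ insert a t → c + x ∈ insert a t) := by
      intro h
      rcases mem_insert.mp (h a (mem_insert_self _ _) (mem_insert_self _ _)) with h1 | h1
      · exact hab h1.symm
      · exact hbt h1
    have c4 : (∀ c ∈ insert a J, c ∈ insert a (insert (a + x) t) →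
        c + x ∈ insert a (insert (a + x) t)) ↔ (∀ c ∈ J, c ∈ t → c + x ∈ t) := by
      constructor
      · intro h c hc hct
        rcases mem_insert.mp (h c (mem_insert_of_mem hc)
          (mem_insert_of_mem (mem_insert_of_mem hct))) with h1 | h1
        · exact absurd h1 (hca c hc)
        · rcases mem_insert.mp h1 with h2 | h2
          · exact absurd h2 (hcb c hc)
          · exact h2
      · intro h c hc hct
        rcases mem_insert.mp hc with rfl | hc
        · exact mem_insert_of_mem (mem_insert_self _ _)
        · rcases mem_insert.mp hct with h1 | h1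
          · exact absurd h1 (hJt c hc)
          · rcases mem_insert.mp h1 with h2 | h2
            · exact absurd h2 (hJb c hc)
            · exact mem_insert_of_mem (mem_insert_of_mem (h c hc h2))
    rw [if_neg c3]
    simp only [c1, c2, c4, card_insert_of_notMem hbt, card_insert_of_notMem hatb]
    by_cases hP : ∀ c ∈ J, c ∈ t → c + x ∈ t
    · rw [if_pos hP, if_pos hP, if_pos hP, if_pos hP]
      have e1 : 2 * (I0.card + 1 + 1) - t.card = (2 * I0.card - t.card) + 4 := by omega
      have e2 : 2 * (I0.card + 1 + 1) - (t.card + 1) = (2 * I0.card - t.card) + 3 := by omega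
      have e3 : 2 * (I0.card + 1 + 1) - (t.card + 1 + 1) = (2 * I0.card - t.card) + 2 := by omega
      rw [e1, e2, e3]
      ring
    · rw [if_neg hP, if_neg hP, if_neg hP, if_neg hP]
      ring

end Pool.Agent.Lib.MP_eee9c1_co.TP
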