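import Pool.Agent.Lib.MP_eee9c1_co.TP.KAsm17
import Pool.Agent.Lib.MP_eee9c1_co.TP.KSem1_76
import Pool.Agent.Lib.MP_eee9c1_co.TP.KSem2_73
import Pool.Agent.Lib.MP_eee9c1_co.TP.KMul9
import Pool.Agent.Lib.MP_eee9c1_co.TP.KGen88
import Pool.Agent.Lib.MP_eee9c1_co.TP.KTop88
import Pool.Agent.Lib.MP_eee9c1_co.TP.Bad97
import Pool.Agent.Lib.MP_eee9c1_co.TP.W9
import Pool.Agent.Lib.MP_eee9c1_co.TP.Fin11
import Pool.Agent.Lib.MP_eee9c1_co.TP.Num88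

set_option autoImplicit false

namespace Pool.Agent.Lib.MP_eee9c1_co.TP

theorem allK17 : StKFinal :=
  kasm17 rowKSem1_76 rowKSem2_73 rowKMul9 rowKGen88 rowKTop88 (rowBad97 rowW9) rowFin11 rowNum88

end Pool.Agent.Lib.MP_eee9c1_co.TP
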