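import Pool.Agent.Lib.MP_eee9c1_co.TP.Defs60

/-! Row ASM (helper88). -/

set_option autoImplicit false

namespace Pool.Agent.Lib.MP_eee9c1_co.TP

open Finset

theorem golden88 : ∃ z : ℝ, 0 < z ∧ z + z ^ 2 = 1 := by
  have h5 : Real.sqrt 5 ^ 2 = 5 := Real.sq_sqrt (by norm_num)
  have h1 : 1 < Real.sqrt 5 := by
    rw [Real.lt_sqrt (by norm_num)]
    norm_num
  exact ⟨(Real.sqrt 5 - 1) / 2, by linarith, by nlinarith⟩

/-- counting by the parametrization -/
theorem count88 (h1 : StSem1) (h2 : StSem2) (g : ℕ) (P : ℕ → Prop) [DecidablePred P] :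
    {S : Set ℕ | IsNS S ∧ Shallow S ∧ genus S = g ∧ P (typ S)}.ncard =
      ((conf g).filter (fun c => P (c.1 - c.2.card + (good c.1 c.2).card))).card := by
  have h3 : {S : Set ℕ | IsNS S ∧ Shallow S ∧ genus S = g ∧ P (typ S)} =
      Sg '' (((conf g).filter (fun c => P (c.1 - c.2.card + (good c.1 c.2).card)) :
        Finset (ℕ × Finset ℕ)) : Set (ℕ × Finset ℕ)) := by
    ext S
    simp only [Set.mem_ofPred_eq, Set.mem_image, Finset.coe_filter]
    constructor
    · rintro ⟨a, b, c, d⟩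
      obtain ⟨e, he, rfl⟩ := (h2 g).2 S a b c
      refine ⟨e, ⟨he, ?_⟩, rfl⟩
      rw [← (h1 g e he).2.2.2]
      exact d
    · rintro ⟨e, ⟨he, hp⟩, rfl⟩
      obtain ⟨a, b, c, d⟩ := h1 g e he
      refine ⟨a, b, c, ?_⟩
      rw [d]
      exact hp
  rw [h3, Set.InjOn.ncard_image, Set.ncard_coe_finset]
  exact (h2 g).1.mono (by
    intro c hc
    simp only [Finset.coe_filter, Set.mem_ofPred_eq] at hc
    exact hc.1)

theorem signs88 {ι : Type*} (s : Finset ι) (t : ι → ℕ) :
    ∑ c ∈ s, (-1 : ℤ) ^ t c =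
      ((s.filter (fun c => Even (t c))).card : ℤ) - (s.filter (fun c => Odd (t c))).card := by
  classical
  have h : ∀ c ∈ s, (-1 : ℤ) ^ t c =
      (if Even (t c) then (1 : ℤ) else 0) - (if Odd (t c) then (1 : ℤ) else 0) := by
    intro c _
    rcases Nat.even_or_odd (t c) with h | h
    · rw [h.neg_one_pow, if_pos h, if_neg (by rwa [Nat.not_odd_iff_even])]
      rfl
    · rw [h.neg_one_pow, if_neg (by rwa [Nat.not_even_iff_odd]), if_pos h]
      rfl
  rw [Finset.sum_congr rfl h, Finset.sum_sub_distrib, Finset.sum_boole, Finset.sum_boole]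

theorem sizes88 {ι : Type*} (s : Finset ι) (t : ι → ℕ) :
    (s.filter (fun c => Odd (t c))).card + (s.filter (fun c => Even (t c))).card = s.card := by
  have h := Finset.card_filter_add_card_filter_not (s := s) (fun c => Odd (t c))
  simp only [Nat.not_odd_iff_even] at h
  exact h

theorem rowAsm88 : StAsm := by
  intro hbad hmul heps hmain hsem1 hsem2 hfib hfin hnum
  obtain ⟨z, hz, hz2⟩ := golden88
  obtain ⟨C, hC, hC'⟩ := hnum z hz hz2
  refine ⟨C + 13, by linarith, fun g => ?_⟩
  set t : ℕ × Finset ℕ → ℕ := fun c => c.1 - c.2.card + (good c.1 c.2).card with ht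
  have hO : numOdd2 g = ((conf g).filter (fun c => Odd (t c))).card :=
    count88 hsem1 hsem2 g Odd
  have hE : numEven2 g = ((conf g).filter (fun c => Even (t c))).card :=
    count88 hsem1 hsem2 g Even
  have hsum : numOdd2 g + numEven2 g = Nat.fib (g + 1) := by
    rw [hO, hE, sizes88, hfib]
  have hX : (1 : ℝ) ≤ (39 / 25 : ℝ) ^ g := one_le_pow₀ (by norm_num)
  -- the difference
  have hdiff : |(numOdd2 g : ℝ) - numEven2 g| ≤ (C + 13) * (39 / 25) ^ g := by
    rcases Nat.lt_or_ge g 6 with hg | hg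
    · have h1 : Nat.fib (g + 1) ≤ 13 := by
        have : Nat.fib (g + 1) ≤ Nat.fib 7 := Nat.fib_mono (by omega)
        have h7 : Nat.fib 7 = 13 := by decide
        omega
      have h2 : (numOdd2 g : ℝ) + numEven2 g ≤ 13 := by
        have : numOdd2 g + numEven2 g ≤ 13 := by omega
        exact_mod_cast this
      have h3 : (0 : ℝ) ≤ numOdd2 g := Nat.cast_nonneg _
      have h4 : (0 : ℝ) ≤ numEven2 g := Nat.cast_nonneg _
      have h5 : |(numOdd2 g : ℝ) - numEven2 g| ≤ 13 := by
        rw [abs_le]; constructor <;> linarith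
      nlinarith
    · set s := g / 6 with hs
      have hs1 : 1 ≤ s := by omega
      have h6 : 6 * s ≤ g := Nat.mul_div_le g 6
      have hm := hmain heps g s h6
      have hb := hbad z hz hz2 g s hs1
      have hn := hC' g
      set bad := (conf g).filter (fun c => ∃ x ∈ good c.1 c.2, s ≤ x ∧ x + s ≤ c.1) with hbaddef
      set t' : ℕ × Finset ℕ → ℕ := fun c =>
        c.1 - c.2.card + ((good c.1 c.2).filter (fun x => c.1 < x + s)).card with ht'
      have hD : ∑ c ∈ conf g, (-1 : ℤ) ^ t c = (numEven2 g : ℤ) - numOdd2 g := by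
        rw [signs88, hO, hE]
      have hclose : |∑ c ∈ conf g, (-1 : ℤ) ^ t c - ∑ c ∈ conf g, (-1 : ℤ) ^ t' c| ≤
          2 * bad.card := by
        rw [← Finset.sum_sub_distrib]
        refine (Finset.abs_sum_le_sum_abs _ _).trans ?_
        have h1 : ∀ c ∈ conf g, |(-1 : ℤ) ^ t c - (-1 : ℤ) ^ t' c| ≤
            if (∃ x ∈ good c.1 c.2, s ≤ x ∧ x + s ≤ c.1) then 2 else 0 := by
          intro c hc
          split_ifs with h
          · have e1 : |(-1 : ℤ) ^ t c| = 1 := by rw [abs_pow]; simp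
            have e2 : |(-1 : ℤ) ^ t' c| = 1 := by rw [abs_pow]; simp
            calc |(-1 : ℤ) ^ t c - (-1 : ℤ) ^ t' c| ≤ |(-1 : ℤ) ^ t c| + |(-1 : ℤ) ^ t' c| :=
                  abs_sub _ _
              _ = 2 := by rw [e1, e2]; norm_num
          · have hc' := hc
            unfold conf at hc'
            rw [Finset.mem_filter] at hc'
            obtain ⟨-, hA, hg2⟩ := hc'
            have hN : 3 * s ≤ c.1 := by omega
            have h2 : ∀ x ∈ good c.1 c.2, c.1 < x + s := by
              apply hmul c.1 s c.2 hs1 hN hA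
              intro x hx hx2
              exact h ⟨x, hx, hx2⟩
            have h3 : (good c.1 c.2).filter (fun x => c.1 < x + s) = good c.1 c.2 :=
              Finset.filter_true_of_mem h2
            have h4 : t c = t' c := by simp only [ht, ht', h3]
            rw [h4, sub_self, abs_zero]
        refine (Finset.sum_le_sum h1).trans (le_of_eq ?_)
        rw [← Finset.sum_filter, Finset.sum_const, nsmul_eq_mul, mul_comm]
      have hbadR : (bad.card : ℝ) ≤ ((g : ℝ) + 1) ^ 2 * (z ^ 2 + z ^ 3 + z ^ 4) ^ s / z ^ g := by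
        rw [le_div_iff₀ (by positivity)]
        exact hb
      have hZ : |(numEven2 g : ℤ) - numOdd2 g| ≤ 4 ^ s + 2 * bad.card := by
        rw [← hD]
        have h1 := abs_sub_abs_le_abs_sub (∑ c ∈ conf g, (-1 : ℤ) ^ t c)
          (∑ c ∈ conf g, (-1 : ℤ) ^ t' c)
        linarith
      have hR : |(numOdd2 g : ℝ) - numEven2 g| ≤ 4 ^ s + 2 * bad.card := by
        rw [abs_sub_comm]
        exact_mod_cast hZ
      nlinarith
  refine ⟨hsum, hdiff, ?_, ?_⟩
  · have h1 : numOdd2 g ≤ numOdd g :=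
      Set.ncard_le_ncard (fun S hS => ⟨hS.1, hS.2.2.1, hS.2.2.2⟩)
        ((hfin g).subset fun S hS => ⟨hS.1, hS.2.1⟩)
    have h2 : (numOdd2 g : ℝ) ≤ numOdd g := by exact_mod_cast h1
    have h3 : (numOdd2 g : ℝ) + numEven2 g = Nat.fib (g + 1) := by exact_mod_cast hsum
    rw [abs_le] at hdiff
    have h5 : (0 : ℝ) < (C + 13) * (39 / 25) ^ g := by positivity
    linarith [hdiff.1, hdiff.2]
  · have h1 : numEven2 g ≤ numEven g :=
      Set.ncard_le_ncard (fun S hS => ⟨hS.1, hS.2.2.1, hS.2.2.2⟩)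
        ((hfin g).subset fun S hS => ⟨hS.1, hS.2.1⟩)
    have h2 : (numEven2 g : ℝ) ≤ numEven g := by exact_mod_cast h1
    have h3 : (numOdd2 g : ℝ) + numEven2 g = Nat.fib (g + 1) := by exact_mod_cast hsum
    rw [abs_le] at hdiff
    have h5 : (0 : ℝ) < (C + 13) * (39 / 25) ^ g := by positivity
    linarith [hdiff.1, hdiff.2]

end Pool.Agent.Lib.MP_eee9c1_co.TP
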