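import Mathlib
import Pool.Agent.Lib.MP_eee9c1_co.TP.All60

/-! Parity of the type, semigroups with `F < 2 m + K` for every fixed `K`: definitions and rows
(helper17, after the case `K = 0` of helper60 and others).

THEOREM. For every `K` there is `C` such that `|OK g - EK g| ≤ C (39/25) ^ g` for all `g`, where
`OK g`, `EK g` count the numerical semigroups of genus `g` with odd, even type which contain all
`n ≥ 2 m + K`. Hence `|O g - E g| ≤ C (39/25) ^ g + #{S of genus g, not all n ≥ 2 m + K in S}`; with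
the theorem of Zhai (the last number is at most `ε n_g`, `ε → 0` as `K → ∞`) `E g / O g → 1`.

PROOF. Let `g ≥ 3 K`. `S` is given by `N = m - 1`, `A = {a ∈ [1, N] : m + a ∈ S}`,
`B = {b < K : 2 m + b ∈ S}` with `(A ∪ 0) + (A ∪ 0) ⊆ B` below `K` (`Ok`). Genus
`2 N - |A| + (K - |B|)`, so `(N, A) ∈ conf (g - (K - |B|))`. All gaps `2 m + b` are pseudo-Frobenius; a
gap `m + a` is, unless `a + a' < K`, `a + a' ∉ B` for some `a' ∈ A ∪ 0` (then `a < K`); a gap `x < m`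
is iff `x ∈ goodK`. If `x, y` are pseudo-Frobenius and `x + y` is a gap then `x + y` is
pseudo-Frobenius, so again no element of `goodK` in `[s, N - s]` implies that all are `> N - s`, and
then their number depends only on `B` and the first and last `s + K` places. Bad configurations are
bad in the old sense for the genus `g - (K - |B|)`. -/

set_option autoImplicit false

namespace Pool.Agent.Lib.MP_eee9c1_co.TP

open Finset

/-- every `n ≥ 2 m + K`, `m` the multiplicity, belongs to `S` -/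
def ShallowK (K : ℕ) (S : Set ℕ) : Prop := ∀ s ∈ S, s ≠ 0 → ∀ n, 2 * s + K ≤ n → n ∈ S

/-- condition on `(A, B)` -/
def Ok (K : ℕ) (B A : Finset ℕ) : Prop :=
  ∀ a ∈ insert 0 A, ∀ a' ∈ insert 0 A, a + a' < K → a + a' ∈ B

instance (K : ℕ) (B A : Finset ℕ) : Decidable (Ok K B A) := by unfold Ok; infer_instance

/-- configurations `(B, N, A)` -/
def confK (K g : ℕ) : Finset (Finset ℕ × (ℕ × Finset ℕ)) :=
  ((range K).powerset.sigma (fun B => (conf (g - (K - B.card))).filter (fun c => Ok K B c.2))).map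
    ⟨fun p => (p.1, p.2), fun p q h => by
      cases p; cases q; simp only [Prod.mk.injEq] at h; obtain ⟨rfl, rfl⟩ := h; rfl⟩

/-- the pseudo-Frobenius numbers below `m` -/
def goodK (K : ℕ) (B : Finset ℕ) (N : ℕ) (A : Finset ℕ) : Finset ℕ :=
  (good N A).filter (fun x => (∀ a ∈ A, N + 1 ≤ x + a → x + a - (N + 1) < K → x + a - (N + 1) ∈ B) ∧
    ∀ b ∈ B, x + b < K → x + b ∈ B)

/-- gaps `m + a` which are not pseudo-Frobenius -/
def npf (K : ℕ) (B A : Finset ℕ) : Finset ℕ :=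
  (Ico 1 K).filter (fun a => a ∉ A ∧ ∃ a' ∈ insert 0 A, a + a' < K ∧ a + a' ∉ B)

/-- the semigroup -/
def SgK (K : ℕ) (p : Finset ℕ × (ℕ × Finset ℕ)) : Set ℕ :=
  {n | n = 0 ∨ n = p.2.1 + 1 ∨ (∃ a ∈ p.2.2, n = p.2.1 + 1 + a) ∨
    (∃ b ∈ p.1, n = 2 * (p.2.1 + 1) + b) ∨ 2 * (p.2.1 + 1) + K ≤ n}

/-- ROW KMEM: membership. -/
def StKMem : Prop := ∀ (K g : ℕ) (p : Finset ℕ × (ℕ × Finset ℕ)), p ∈ confK K g ↔
  p.1 ⊆ range K ∧ Ok K p.1 p.2.2 ∧ p.2 ∈ conf (g - (K - p.1.card))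

/-- ROW KSEM1: from configurations to semigroups. (`N ≥ K` because `2 N ≥ g - K ≥ 2 K`.) -/
def StKSem1 : Prop := ∀ (K g : ℕ) (B : Finset ℕ) (c : ℕ × Finset ℕ), 3 * K ≤ g → B ⊆ range K →
  Ok K B c.2 → c ∈ conf (g - (K - B.card)) →
  IsNS (SgK K (B, c)) ∧ ShallowK K (SgK K (B, c)) ∧ genus (SgK K (B, c)) = g ∧
    typ (SgK K (B, c)) + (npf K B c.2).card =
      (K - B.card) + (c.1 - c.2.card) + (goodK K B c.1 c.2).card

/-- ROW KSEM2: injective and onto. -/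
def StKSem2 : Prop := ∀ (K g : ℕ), 3 * K ≤ g →
  (∀ (B B' : Finset ℕ) (c c' : ℕ × Finset ℕ), B ⊆ range K → B' ⊆ range K → Ok K B c.2 →
    Ok K B' c'.2 → c ∈ conf (g - (K - B.card)) → c' ∈ conf (g - (K - B'.card)) →
    SgK K (B, c) = SgK K (B', c') → B = B' ∧ c = c') ∧
  ∀ S : Set ℕ, IsNS S → ShallowK K S → genus S = g →
    ∃ (B : Finset ℕ) (c : ℕ × Finset ℕ), B ⊆ range K ∧ Ok K B c.2 ∧
      c ∈ conf (g - (K - B.card)) ∧ SgK K (B, c) = S

/-- ROW KMUL: no element of `goodK` in `[s, N - s]` implies all are `> N - s` (sums of two elements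
of `goodK` which are `≤ N` are in `goodK`). -/
def StKMul : Prop := ∀ (K N s : ℕ) (B A : Finset ℕ), 1 ≤ s → 3 * s ≤ N → A ⊆ Icc 1 N →
  (∀ x ∈ goodK K B N A, ¬ (s ≤ x ∧ x + s ≤ N)) → ∀ x ∈ goodK K B N A, N < x + s

/-- ROW KGEN: the signed sum against a function of the first and last `q` places (proof of
`rowMAIN60` word for word, with `φ (U, V)` in place of the power of `-1` with exponent `H`). -/
def StKGen : Prop := ∀ (g q : ℕ) (φ : Finset ℕ × Finset ℕ → ℤ), (∀ p, |φ p| ≤ 1) → 6 * q ≤ g →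
  |∑ c ∈ conf g, (-1 : ℤ) ^ (c.1 - c.2.card) * φ (M60.lo q c, M60.up q c)| ≤ 4 ^ q

/-- ROW KTOP: the rest depends only on `B` and the first and last `s + K` places. -/
def StKTop : Prop := ∀ (K s : ℕ) (B : Finset ℕ), ∃ φ : Finset ℕ × Finset ℕ → ℤ, (∀ p, |φ p| ≤ 1) ∧
  ∀ c : ℕ × Finset ℕ, c.2 ⊆ Icc 1 c.1 → 2 * (s + K) ≤ c.1 →
    φ (M60.lo (s + K) c, M60.up (s + K) c) =
      if Ok K B c.2 then (-1 : ℤ) ^ ((K - B.card) + (npf K B c.2).card +
        ((goodK K B c.1 c.2).filter (fun x => c.1 < x + s)).card) else 0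

/-- the numbers of semigroups -/
noncomputable def numOddK (K g : ℕ) : ℕ :=
  {S : Set ℕ | IsNS S ∧ ShallowK K S ∧ genus S = g ∧ Odd (typ S)}.ncard

/-- the numbers of semigroups -/
noncomputable def numEvenK (K g : ℕ) : ℕ :=
  {S : Set ℕ | IsNS S ∧ ShallowK K S ∧ genus S = g ∧ Even (typ S)}.ncard

/-- ROW KASM (17). -/
def StKFinal : Prop := ∀ K : ℕ, ∃ C : ℝ, 0 < C ∧ ∀ g : ℕ,
    |(numOddK K g : ℝ) - numEvenK K g| ≤ C * (39 / 25) ^ g ∧
    |(numOdd g : ℝ) - numEven g| ≤ C * (39 / 25) ^ g +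
      {S : Set ℕ | IsNS S ∧ genus S = g ∧ ¬ ShallowK K S}.ncard

end Pool.Agent.Lib.MP_eee9c1_co.TP
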