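import Pool.Agent.Lib.MP_eee9c1_co.TP.Defs60

/-! Row EPS. -/

set_option autoImplicit false

namespace Pool.Agent.Lib.MP_eee9c1_co.TP

open Finset

theorem eps_eq9 (n : ℕ) : eps n = ∑ k ∈ range (n + 1), (-1) ^ k * (Nat.choose (n - k) k : ℤ) := by
  unfold eps
  rw [Finset.Nat.sum_antidiagonal_eq_sum_range_succ_mk]
  rw [← Finset.sum_range_reflect]
  refine Finset.sum_congr rfl fun k hk => ?_
  have hk' : k ≤ n := Nat.lt_succ_iff.mp (Finset.mem_range.mp hk)
  have e1 : n + 1 - 1 - k = n - k := by omega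
  have e2 : n - (n - k) = k := by omega
  simp only [e1, e2]

theorem eps_rec9 (n : ℕ) : eps (n + 2) = eps (n + 1) - eps n := by
  rw [eps_eq9 (n + 2), eps_eq9 (n + 1), eps_eq9 n]
  rw [Finset.sum_range_succ _ (n + 1 + 1), Finset.sum_range_succ' _ (n + 1),
    Finset.sum_range_succ' _ (n + 1)]
  have htop : (Nat.choose (n + 2 - (n + 1 + 1)) (n + 1 + 1) : ℤ) = 0 := by
    have : n + 2 - (n + 1 + 1) = 0 := by omega
    rw [this]; simp
  rw [htop]
  have hterm : ∀ k ∈ range (n + 1), ((-1 : ℤ)) ^ (k + 1) * (Nat.choose (n + 2 - (k + 1)) (k + 1) : ℤ)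
      = (-1) ^ (k + 1) * (Nat.choose (n + 1 - (k + 1)) (k + 1) : ℤ)
        - (-1) ^ k * (Nat.choose (n - k) k : ℤ) := by
    intro k hk
    have hk' : k ≤ n := Nat.lt_succ_iff.mp (Finset.mem_range.mp hk)
    have e1 : n + 2 - (k + 1) = (n - k) + 1 := by omega
    have e2 : n + 1 - (k + 1) = n - k := by omega
    rw [e1, e2, Nat.choose_succ_succ]
    push_cast
    ring
  rw [Finset.sum_congr rfl hterm, Finset.sum_sub_distrib]
  simp
  ring

theorem eps_three9 (n : ℕ) : eps (n + 3) = - eps n := by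
  have h1 := eps_rec9 (n + 1)
  have h2 := eps_rec9 n
  have e1 : n + 1 + 2 = n + 3 := rfl
  have e2 : n + 1 + 1 = n + 2 := rfl
  rw [e1, e2] at h1
  linarith

theorem rowEps9 : StEps := by
  intro n
  induction n using Nat.strong_induction_on with
  | _ n ih =>
    rcases lt_or_ge n 3 with h | h
    · interval_cases n <;> decide
    · obtain ⟨m, rfl⟩ : ∃ m, n = m + 3 := ⟨n - 3, by omega⟩
      rw [eps_three9, abs_neg]
      exact ih m (by omega)

end Pool.Agent.Lib.MP_eee9c1_co.TP
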