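import Mathlib
import Pool.Agent.Lib.MP_eee9c1_co.TP.DefsK17

/-!
# Assembly for `F < 2 m + K` (helper17)
-/

set_option autoImplicit false

namespace Pool.Agent.Lib.MP_eee9c1_co.TP

open Finset

namespace KA17

/-- configurations -/
def cK (K g : ℕ) : Finset (Σ _ : Finset ℕ, ℕ × Finset ℕ) :=
  (range K).powerset.sigma (fun B => (conf (g - (K - B.card))).filter (fun c => Ok K B c.2))

theorem mem_cK (K g : ℕ) (p : Σ _ : Finset ℕ, ℕ × Finset ℕ) : p ∈ cK K g ↔
    p.1 ⊆ range K ∧ p.2 ∈ conf (g - (K - p.1.card)) ∧ Ok K p.1 p.2.2 := by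
  unfold cK
  rw [Finset.mem_sigma, Finset.mem_powerset, Finset.mem_filter]

theorem ncardK (h1 : StKSem1) (h2 : StKSem2) (K g : ℕ) (hg : 3 * K ≤ g) (P : ℕ → Prop)
    [DecidablePred P] :
    {S : Set ℕ | IsNS S ∧ ShallowK K S ∧ genus S = g ∧ P (typ S)}.ncard =
      ((cK K g).filter (fun p => P (typ (SgK K (p.1, p.2))))).card := by
  have e : {S : Set ℕ | IsNS S ∧ ShallowK K S ∧ genus S = g ∧ P (typ S)} =
      (fun p : (Σ _ : Finset ℕ, ℕ × Finset ℕ) => SgK K (p.1, p.2)) ''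
        (((cK K g).filter (fun p => P (typ (SgK K (p.1, p.2)))) :
          Finset (Σ _ : Finset ℕ, ℕ × Finset ℕ)) : Set (Σ _ : Finset ℕ, ℕ × Finset ℕ)) := by
    ext S
    constructor
    · rintro ⟨ha, hb, hc, hd⟩
      obtain ⟨B, c, hB, hO, hcc, rfl⟩ := (h2 K g hg).2 S ha hb hc
      refine ⟨⟨B, c⟩, ?_, rfl⟩
      rw [Finset.coe_filter]
      exact ⟨(mem_cK _ _ _).2 ⟨hB, hcc, hO⟩, hd⟩
    · rintro ⟨p, hp, rfl⟩
      rw [Finset.coe_filter] at hp
      obtain ⟨hp1, hp2⟩ := hp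
      obtain ⟨hB, hcc, hO⟩ := (mem_cK _ _ _).1 hp1
      obtain ⟨a1, a2, a3, a4⟩ := h1 K g p.1 p.2 hg hB hO hcc
      exact ⟨a1, a2, a3, hp2⟩
  rw [e, Set.InjOn.ncard_image, Set.ncard_coe_finset]
  intro p hp q hq hpq
  rw [Finset.coe_filter] at hp hq
  obtain ⟨hB, hcc, hO⟩ := (mem_cK _ _ _).1 hp.1
  obtain ⟨hB', hcc', hO'⟩ := (mem_cK _ _ _).1 hq.1
  have h := (h2 K g hg).1 p.1 q.1 p.2 q.2 hB hB' hO hO' hcc hcc' hpq
  cases p
  cases q
  simp only at h
  obtain ⟨rfl, rfl⟩ := h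
  rfl

theorem signedK {ι : Type*} (s : Finset ι) (f : ι → ℕ) :
    ∑ c ∈ s, (-1 : ℤ) ^ f c =
      ((s.filter (fun c => Even (f c))).card : ℤ) - ((s.filter (fun c => Odd (f c))).card : ℤ) := by
  have h : ∀ c ∈ s, (-1 : ℤ) ^ f c =
      (if Even (f c) then 1 else 0) - (if Odd (f c) then 1 else 0) := by
    intro c _
    rcases Nat.even_or_odd (f c) with h | h
    · have h' : ¬ Odd (f c) := Nat.not_odd_iff_even.2 h
      rw [if_pos h, if_neg h', h.neg_one_pow]
      norm_num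
    · have h' : ¬ Even (f c) := Nat.not_even_iff_odd.2 h
      rw [if_neg h', if_pos h, h.neg_one_pow]
      norm_num
  rw [Finset.sum_congr rfl h, Finset.sum_sub_distrib, Finset.sum_boole, Finset.sum_boole]

theorem diffB (h1 : StKSem1) (hmul : StKMul) (hgen : StKGen) (htop : StKTop) (K g s : ℕ)
    (B : Finset ℕ) (hB : B ⊆ range K) (hs : 1 ≤ s) (hg : 6 * (s + K) + K ≤ g) :
    |∑ c ∈ (conf (g - (K - B.card))).filter (fun c => Ok K B c.2),
        (-1 : ℤ) ^ typ (SgK K (B, c))| ≤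
      4 ^ (s + K) + 2 * (((conf (g - (K - B.card))).filter
        (fun c => ∃ x ∈ good c.1 c.2, s ≤ x ∧ x + s ≤ c.1)).card : ℤ) := by
  classical
  obtain ⟨φ, hφ1, hφ2⟩ := htop K s B
  have hm1 := hgen (g - (K - B.card)) (s + K) φ hφ1 (by omega)
  rw [Finset.sum_filter]
  have hm2 : |∑ c ∈ conf (g - (K - B.card)),
      ((if Ok K B c.2 then (-1 : ℤ) ^ typ (SgK K (B, c)) else 0) -
        (-1 : ℤ) ^ (c.1 - c.2.card) * φ (M60.lo (s + K) c, M60.up (s + K) c))| ≤
      2 * (((conf (g - (K - B.card))).filter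
        (fun c => ∃ x ∈ good c.1 c.2, s ≤ x ∧ x + s ≤ c.1)).card : ℤ) := by
    refine (Finset.abs_sum_le_sum_abs _ _).trans ?_
    have h3 : ∀ c ∈ conf (g - (K - B.card)),
        |((if Ok K B c.2 then (-1 : ℤ) ^ typ (SgK K (B, c)) else 0) -
        (-1 : ℤ) ^ (c.1 - c.2.card) * φ (M60.lo (s + K) c, M60.up (s + K) c))| ≤
        if (∃ x ∈ good c.1 c.2, s ≤ x ∧ x + s ≤ c.1) then 2 else 0 := by
      intro c hc
      have hc' := (Finset.mem_filter.1 hc).2
      have hN : 3 * s ≤ c.1 := by omega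
      have hN2 : 2 * (s + K) ≤ c.1 := by omega
      rw [hφ2 c hc'.1 hN2]
      by_cases hO : Ok K B c.2
      · rw [if_pos hO, if_pos hO]
        split_ifs with hb
        · have a1 : |(-1 : ℤ) ^ typ (SgK K (B, c))| = 1 := by simp [abs_pow]
          have a2 : |(-1 : ℤ) ^ (c.1 - c.2.card) * (-1 : ℤ) ^ ((K - B.card) + (npf K B c.2).card +
              ((goodK K B c.1 c.2).filter (fun x => c.1 < x + s)).card)| = 1 := by
            simp [abs_mul, abs_pow]
          have := abs_sub ((-1 : ℤ) ^ typ (SgK K (B, c)))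
            ((-1 : ℤ) ^ (c.1 - c.2.card) * (-1 : ℤ) ^ ((K - B.card) + (npf K B c.2).card +
              ((goodK K B c.1 c.2).filter (fun x => c.1 < x + s)).card))
          rw [a1, a2] at this
          linarith
        · have hall : ∀ x ∈ goodK K B c.1 c.2, c.1 < x + s := by
            refine hmul K c.1 s B c.2 hs hN hc'.1 ?_
            intro x hx hx2
            exact hb ⟨x, (Finset.mem_filter.1 hx).1, hx2.1, hx2.2⟩
          have e : (goodK K B c.1 c.2).filter (fun x => c.1 < x + s) = goodK K B c.1 c.2 :=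
            Finset.filter_true_of_mem hall
          have e2 := (h1 K g B c (by omega) hB hO hc).2.2.2
          rw [e, ← pow_add]
          have e3 : (-1 : ℤ) ^ typ (SgK K (B, c)) =
              (-1 : ℤ) ^ (typ (SgK K (B, c)) + 2 * (npf K B c.2).card) := by
            rw [pow_add, pow_mul]
            simp
          have e4 : typ (SgK K (B, c)) + 2 * (npf K B c.2).card = c.1 - c.2.card +
              (K - B.card + (npf K B c.2).card + (goodK K B c.1 c.2).card) := by omega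
          rw [e3, e4, sub_self, abs_zero]
      · rw [if_neg hO, if_neg hO, mul_zero, sub_zero, abs_zero]
        split_ifs <;> norm_num
    refine (Finset.sum_le_sum h3).trans ?_
    rw [← Finset.sum_filter, Finset.sum_const, nsmul_eq_mul, mul_comm]
  have h3 : ∑ c ∈ conf (g - (K - B.card)),
        (if Ok K B c.2 then (-1 : ℤ) ^ typ (SgK K (B, c)) else 0) =
      ∑ c ∈ conf (g - (K - B.card)), (-1 : ℤ) ^ (c.1 - c.2.card) *
        φ (M60.lo (s + K) c, M60.up (s + K) c) +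
      ∑ c ∈ conf (g - (K - B.card)),
      ((if Ok K B c.2 then (-1 : ℤ) ^ typ (SgK K (B, c)) else 0) -
        (-1 : ℤ) ^ (c.1 - c.2.card) * φ (M60.lo (s + K) c, M60.up (s + K) c)) := by
    rw [Finset.sum_sub_distrib]
    ring
  rw [h3]
  exact (abs_add_le _ _).trans (add_le_add hm1 hm2)

end KA17

open KA17

theorem kasm17 (h1 : StKSem1) (h2 : StKSem2) (hmul : StKMul) (hgen : StKGen) (htop : StKTop)
    (hbad : StBad) (hfin : StFinite) (hnum : StNum) : StKFinal := by
  classical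
  intro K
  have hz : ∃ z : ℝ, 0 < z ∧ z + z ^ 2 = 1 := by
    refine ⟨(Real.sqrt 5 - 1) / 2, ?_, ?_⟩
    · have : (1 : ℝ) < Real.sqrt 5 := by
        rw [show (1 : ℝ) = Real.sqrt 1 by simp]
        exact Real.sqrt_lt_sqrt (by norm_num) (by norm_num)
      linarith
    · have h5 : Real.sqrt 5 ^ 2 = 5 := Real.sq_sqrt (by norm_num)
      nlinarith [h5]
  obtain ⟨z, hz0, hz1⟩ := hz
  have hz2 : z < 1 := by nlinarith
  obtain ⟨C, hC, hCn⟩ := hnum z hz0 hz1
  set w : ℝ := z ^ 2 + z ^ 3 + z ^ 4 with hw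
  have hw0 : 0 < w := by positivity
  have hw1 : w ≤ 1 := by
    have e3 : z ^ 3 = 2 * z - 1 := by nlinarith [hz1]
    have e2 : z ^ 2 = 1 - z := by linarith
    have e4 : z ^ 4 = 2 - 3 * z := by nlinarith [hz1]
    rw [hw, e2, e3, e4]
    -- 2 - 2 z ≤ 1 iff z ≥ 1/2
    nlinarith [hz1]
  set D : ℝ := 2 ^ K * (4 ^ K + (w ^ (2 * K + 1))⁻¹) with hD
  have hD0 : 0 < D := by positivity
  set M : ℝ := ∑ g ∈ range (7 * K + 6), ((numOddK K g : ℝ) + numEvenK K g) with hM
  have hM0 : 0 ≤ M := Finset.sum_nonneg (fun g _ => by positivity)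
  have key : ∀ g : ℕ, |(numOddK K g : ℝ) - numEvenK K g| ≤ (D * C + M) * (39 / 25) ^ g := by
    intro g
    have hpow1 : (1 : ℝ) ≤ (39 / 25 : ℝ) ^ g := one_le_pow₀ (by norm_num)
    rcases Nat.lt_or_ge g (7 * K + 6) with hg | hg
    · have a1 : (numOddK K g : ℝ) + numEvenK K g ≤ M :=
        Finset.single_le_sum (f := fun g => (numOddK K g : ℝ) + numEvenK K g)
          (fun g _ => by positivity) (Finset.mem_range.2 hg)
      have n1 : (0 : ℝ) ≤ numOddK K g := Nat.cast_nonneg _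
      have n2 : (0 : ℝ) ≤ numEvenK K g := Nat.cast_nonneg _
      have a2 : |(numOddK K g : ℝ) - numEvenK K g| ≤ M := by
        rw [abs_le]
        constructor <;> linarith
      have a3 : 0 ≤ D * C * (39 / 25) ^ g := by positivity
      nlinarith
    · set s : ℕ := (g - 7 * K) / 6 with hsdef
      have hs : 1 ≤ s := by omega
      have hgs : 6 * (s + K) + K ≤ g := by omega
      have hO : numOddK K g = ((cK K g).filter (fun p => Odd (typ (SgK K (p.1, p.2))))).card :=
        ncardK h1 h2 K g (by omega) Odd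
      have hE : numEvenK K g = ((cK K g).filter (fun p => Even (typ (SgK K (p.1, p.2))))).card :=
        ncardK h1 h2 K g (by omega) Even
      have hsig := signedK (cK K g) (fun p => typ (SgK K (p.1, p.2)))
      rw [← hO, ← hE] at hsig
      have hsum : ∑ p ∈ cK K g, (-1 : ℤ) ^ typ (SgK K (p.1, p.2)) =
          ∑ B ∈ (range K).powerset,
            ∑ c ∈ (conf (g - (K - B.card))).filter (fun c => Ok K B c.2),
              (-1 : ℤ) ^ typ (SgK K (B, c)) := by
        unfold cK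
        rw [Finset.sum_sigma]
      rw [hsum] at hsig
      have hb1 : ∀ B ∈ (range K).powerset,
          |((∑ c ∈ (conf (g - (K - B.card))).filter (fun c => Ok K B c.2),
              (-1 : ℤ) ^ typ (SgK K (B, c)) : ℤ) : ℝ)| ≤
            4 ^ (s + K) + 2 * (((g : ℝ) + 1) ^ 2 * w ^ s / z ^ g) := by
        intro B hB
        have hB' := Finset.mem_powerset.1 hB
        have d := diffB h1 hmul hgen htop K g s B hB' hs hgs
        have dR : |((∑ c ∈ (conf (g - (K - B.card))).filter (fun c => Ok K B c.2),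
              (-1 : ℤ) ^ typ (SgK K (B, c)) : ℤ) : ℝ)| ≤ 4 ^ (s + K) +
              2 * (((conf (g - (K - B.card))).filter
                (fun c => ∃ x ∈ good c.1 c.2, s ≤ x ∧ x + s ≤ c.1)).card : ℝ) := by
          exact_mod_cast d
        have hb := hbad z hz0 hz1 (g - (K - B.card)) s hs
        have hzg : (0 : ℝ) < z ^ (g - (K - B.card)) := pow_pos hz0 _
        have hb2 : (((conf (g - (K - B.card))).filter
                (fun c => ∃ x ∈ good c.1 c.2, s ≤ x ∧ x + s ≤ c.1)).card : ℝ) ≤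
            (((g - (K - B.card) : ℕ) : ℝ) + 1) ^ 2 * w ^ s / z ^ (g - (K - B.card)) := by
          rw [le_div_iff₀ hzg]
          exact hb
        have hb3 : (((g - (K - B.card) : ℕ) : ℝ) + 1) ^ 2 * w ^ s / z ^ (g - (K - B.card)) ≤
            ((g : ℝ) + 1) ^ 2 * w ^ s / z ^ g := by
          apply div_le_div₀ (by positivity) _ (pow_pos hz0 g) _
          · have hle : ((g - (K - B.card) : ℕ) : ℝ) ≤ (g : ℝ) := by
              exact_mod_cast Nat.sub_le _ _
            have hn : (0 : ℝ) ≤ ((g - (K - B.card) : ℕ) : ℝ) := Nat.cast_nonneg _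
            apply mul_le_mul_of_nonneg_right _ (by positivity)
            apply pow_le_pow_left₀ (by linarith)
            linarith
          · exact pow_le_pow_of_le_one hz0.le hz2.le (Nat.sub_le _ _)
        linarith
      have habs : |(numEvenK K g : ℝ) - numOddK K g| ≤
          2 ^ K * (4 ^ (s + K) + 2 * (((g : ℝ) + 1) ^ 2 * w ^ s / z ^ g)) := by
        have e1 : ((numEvenK K g : ℝ) - numOddK K g) = ∑ B ∈ (range K).powerset,
            ((∑ c ∈ (conf (g - (K - B.card))).filter (fun c => Ok K B c.2),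
              (-1 : ℤ) ^ typ (SgK K (B, c)) : ℤ) : ℝ) := by
          have := congrArg (fun t : ℤ => (t : ℝ)) hsig
          simp only [Int.cast_sub, Int.cast_natCast] at this
          rw [← this]
          push_cast
          rfl
        rw [e1]
        refine (Finset.abs_sum_le_sum_abs _ _).trans ?_
        refine (Finset.sum_le_sum hb1).trans ?_
        rw [Finset.sum_const, Finset.card_powerset, Finset.card_range, nsmul_eq_mul]
        push_cast
        exact le_refl _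
      have hn := hCn g
      have p1 : (4 : ℝ) ^ (s + K) ≤ 4 ^ K * 4 ^ (g / 6) := by
        rw [← pow_add]
        exact pow_le_pow_right₀ (by norm_num) (by omega)
      have p2 : w ^ s ≤ (w ^ (2 * K + 1))⁻¹ * w ^ (g / 6) := by
        rw [inv_mul_eq_div, le_div_iff₀ (by positivity), ← pow_add]
        exact pow_le_pow_of_le_one hw0.le hw1 (by omega)
      set X : ℝ := ((g : ℝ) + 1) ^ 2 / z ^ g with hX
      have hX0 : 0 ≤ X := by positivity
      have q1 : ((g : ℝ) + 1) ^ 2 * w ^ s / z ^ g = X * w ^ s := by rw [hX]; ring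
      have q2 : ((g : ℝ) + 1) ^ 2 * w ^ (g / 6) / z ^ g = X * w ^ (g / 6) := by rw [hX]; ring
      rw [q1] at habs
      rw [q2] at hn
      have p3 : X * w ^ s ≤ (w ^ (2 * K + 1))⁻¹ * (X * w ^ (g / 6)) := by
        have := mul_le_mul_of_nonneg_left p2 hX0
        nlinarith
      have hwi : 0 < (w ^ (2 * K + 1))⁻¹ := by positivity
      have h4 : (0 : ℝ) < 4 ^ K := by positivity
      have g1 : (0 : ℝ) ≤ 4 ^ (g / 6) := by positivity
      have g2 : 0 ≤ X * w ^ (g / 6) := by positivity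
      have p4 : 4 ^ (s + K) + 2 * (X * w ^ s) ≤
          (4 ^ K + (w ^ (2 * K + 1))⁻¹) * (4 ^ (g / 6) + 2 * (X * w ^ (g / 6))) := by
        nlinarith [mul_nonneg hwi.le g1, mul_nonneg h4.le g2]
      have p5 : (4 ^ K + (w ^ (2 * K + 1))⁻¹) * (4 ^ (g / 6) + 2 * (X * w ^ (g / 6))) ≤
          (4 ^ K + (w ^ (2 * K + 1))⁻¹) * (C * (39 / 25) ^ g) :=
        mul_le_mul_of_nonneg_left hn (by positivity)
      have p6 : (2 : ℝ) ^ K * (4 ^ (s + K) + 2 * (X * w ^ s)) ≤ D * C * (39 / 25) ^ g := by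
        have := mul_le_mul_of_nonneg_left (p4.trans p5) (by positivity : (0 : ℝ) ≤ 2 ^ K)
        rw [hD]
        linarith
      rw [abs_sub_comm]
      have hMg : 0 ≤ M * (39 / 25) ^ g := by positivity
      nlinarith
  have hDC : 0 < D * C + M := by positivity
  refine ⟨D * C + M, hDC, fun g => ⟨key g, ?_⟩⟩
  -- all semigroups
  have hfinS : ∀ (Q : Set ℕ → Prop), {S : Set ℕ | IsNS S ∧ genus S = g ∧ Q S}.Finite := by
    intro Q
    exact (hfin g).subset (fun S hS => ⟨hS.1, hS.2.1⟩)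
  have split : ∀ (P : ℕ → Prop), {S : Set ℕ | IsNS S ∧ genus S = g ∧ P (typ S)}.ncard =
      {S : Set ℕ | IsNS S ∧ ShallowK K S ∧ genus S = g ∧ P (typ S)}.ncard +
      {S : Set ℕ | IsNS S ∧ genus S = g ∧ (¬ ShallowK K S ∧ P (typ S))}.ncard := by
    intro P
    have hd : Disjoint {S : Set ℕ | IsNS S ∧ ShallowK K S ∧ genus S = g ∧ P (typ S)}
        {S : Set ℕ | IsNS S ∧ genus S = g ∧ (¬ ShallowK K S ∧ P (typ S))} := by
      rw [Set.disjoint_left]
      rintro S ⟨_, h, _⟩ ⟨_, _, h', _⟩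
      exact h' h
    rw [← Set.ncard_union_eq hd ((hfin g).subset (fun S hS => ⟨hS.1, hS.2.2.1⟩)) (hfinS _)]
    congr 1
    ext S
    show (IsNS S ∧ genus S = g ∧ P (typ S)) ↔
      ((IsNS S ∧ ShallowK K S ∧ genus S = g ∧ P (typ S)) ∨
        (IsNS S ∧ genus S = g ∧ (¬ ShallowK K S ∧ P (typ S))))
    tauto
  have tot : {S : Set ℕ | IsNS S ∧ genus S = g ∧ ¬ ShallowK K S}.ncard =
      {S : Set ℕ | IsNS S ∧ genus S = g ∧ (¬ ShallowK K S ∧ Odd (typ S))}.ncard +
      {S : Set ℕ | IsNS S ∧ genus S = g ∧ (¬ ShallowK K S ∧ Even (typ S))}.ncard := by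
    have hd : Disjoint {S : Set ℕ | IsNS S ∧ genus S = g ∧ (¬ ShallowK K S ∧ Odd (typ S))}
        {S : Set ℕ | IsNS S ∧ genus S = g ∧ (¬ ShallowK K S ∧ Even (typ S))} := by
      rw [Set.disjoint_left]
      rintro S ⟨_, _, _, h⟩ ⟨_, _, _, h'⟩
      exact (Nat.not_odd_iff_even.2 h') h
    rw [← Set.ncard_union_eq hd (hfinS _) (hfinS _)]
    congr 1
    ext S
    show (IsNS S ∧ genus S = g ∧ ¬ ShallowK K S) ↔
      ((IsNS S ∧ genus S = g ∧ (¬ ShallowK K S ∧ Odd (typ S))) ∨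
        (IsNS S ∧ genus S = g ∧ (¬ ShallowK K S ∧ Even (typ S))))
    have := Nat.even_or_odd (typ S)
    tauto
  have sO := split Odd
  have sE := split Even
  have sO' : (numOdd g : ℝ) = numOddK K g +
      {S : Set ℕ | IsNS S ∧ genus S = g ∧ (¬ ShallowK K S ∧ Odd (typ S))}.ncard := by
    exact_mod_cast sO
  have sE' : (numEven g : ℝ) = numEvenK K g +
      {S : Set ℕ | IsNS S ∧ genus S = g ∧ (¬ ShallowK K S ∧ Even (typ S))}.ncard := by
    exact_mod_cast sE
  have tot' : ({S : Set ℕ | IsNS S ∧ genus S = g ∧ ¬ ShallowK K S}.ncard : ℝ) =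
      {S : Set ℕ | IsNS S ∧ genus S = g ∧ (¬ ShallowK K S ∧ Odd (typ S))}.ncard +
      {S : Set ℕ | IsNS S ∧ genus S = g ∧ (¬ ShallowK K S ∧ Even (typ S))}.ncard := by
    exact_mod_cast tot
  have k := key g
  rw [abs_le] at k ⊢
  have n1 : (0 : ℝ) ≤
      {S : Set ℕ | IsNS S ∧ genus S = g ∧ (¬ ShallowK K S ∧ Odd (typ S))}.ncard :=
    Nat.cast_nonneg _
  have n2 : (0 : ℝ) ≤
      {S : Set ℕ | IsNS S ∧ genus S = g ∧ (¬ ShallowK K S ∧ Even (typ S))}.ncard :=
    Nat.cast_nonneg _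
  rw [sO', sE', tot']
  constructor <;> linarith [k.1, k.2]

end Pool.Agent.Lib.MP_eee9c1_co.TP
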