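import Pool.Agent.Lib.MP_eee9c1_co.TP.DefsK17

/-! Row KMEM (helper88). -/

set_option autoImplicit false

namespace Pool.Agent.Lib.MP_eee9c1_co.TP

open Finset

theorem rowKMem88 : StKMem := by
  rintro K g ⟨B, c⟩
  unfold confK
  simp only [mem_map, mem_sigma, mem_powerset, mem_filter]
  constructor
  · rintro ⟨⟨B', c'⟩, ⟨h1, h2, h3⟩, h4⟩
    have h5 : ((B', c') : Finset ℕ × (ℕ × Finset ℕ)) = (B, c) := h4
    obtain ⟨rfl, rfl⟩ := Prod.mk.inj h5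
    exact ⟨h1, h3, h2⟩
  · rintro ⟨h1, h2, h3⟩
    exact ⟨⟨B, c⟩, ⟨h1, h3, h2⟩, rfl⟩

end Pool.Agent.Lib.MP_eee9c1_co.TP
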