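import Mathlib

/-! The quotient tends to `1` (helper17). -/

set_option autoImplicit false

namespace Pool.Agent.Lib.MP_eee9c1_co.TP

open Filter

theorem fib_lower17 (n : ℕ) : (5 / 8 : ℝ) * (8 / 5) ^ n ≤ Nat.fib (n + 1) := by
  induction n using Nat.strong_induction_on with
  | _ n ih =>
    match n with
    | 0 => norm_num
    | 1 => norm_num
    | (k + 2) =>
      have h1 := ih k (by omega)
      have h2 := ih (k + 1) (by omega)
      have h4 : Nat.fib (k + 2 + 1) = Nat.fib (k + 1) + Nat.fib (k + 1 + 1) := Nat.fib_add_two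
      rw [h4]; push_cast
      have h3 : (0 : ℝ) < (8 / 5) ^ k := by positivity
      calc (5 / 8 : ℝ) * (8 / 5) ^ (k + 2) = (5 / 8) * (8 / 5) ^ k * (64 / 25) := by ring
        _ ≤ (5 / 8) * (8 / 5) ^ k * (1 + 8 / 5) := by nlinarith
        _ = (5 / 8) * (8 / 5) ^ k + (5 / 8) * (8 / 5) ^ (k + 1) := by ring
        _ ≤ _ := by linarith

theorem event17 (M : ℝ) : ∀ᶠ g : ℕ in atTop, M * (39 / 25 : ℝ) ^ g ≤ (5 / 16) * (8 / 5) ^ g := by
  have h1 : Tendsto (fun g : ℕ => M * (39 / 40 : ℝ) ^ g) atTop (nhds (M * 0)) :=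
    (tendsto_pow_atTop_nhds_zero_of_lt_one (by norm_num) (by norm_num)).const_mul M
  rw [mul_zero] at h1
  have h2 : ∀ᶠ g : ℕ in atTop, M * (39 / 40 : ℝ) ^ g < 5 / 16 :=
    h1.eventually_lt_const (by norm_num)
  filter_upwards [h2] with g hg
  have h3 : (39 / 25 : ℝ) ^ g = (39 / 40) ^ g * (8 / 5) ^ g := by
    rw [← mul_pow]; norm_num
  rw [h3, ← mul_assoc]
  exact mul_le_mul_of_nonneg_right hg.le (by positivity)

theorem ratio17 (O E : ℕ → ℕ) (D : ℕ → ℕ → ℕ)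
    (h1 : ∀ K : ℕ, ∃ C : ℝ, 0 < C ∧ ∀ g : ℕ,
      |(O g : ℝ) - E g| ≤ C * (39 / 25) ^ g + D K g)
    (h2 : ∃ C : ℝ, 0 < C ∧ ∀ g : ℕ, (Nat.fib (g + 1) : ℝ) / 2 - C * (39 / 25) ^ g ≤ O g)
    (h3 : ∀ ε : ℝ, 0 < ε → ∃ K : ℕ, ∀ᶠ g in atTop, (D K g : ℝ) ≤ ε * (O g + E g)) :
    Tendsto (fun g => (E g : ℝ) / O g) atTop (nhds 1) := by
  obtain ⟨C, hC, h2⟩ := h2
  rw [Metric.tendsto_nhds]
  intro δ hδ
  -- a small parameter
  obtain ⟨ε, hε, hε2, hεδ⟩ : ∃ ε : ℝ, 0 < ε ∧ ε ≤ 1 / 2 ∧ 6 * ε < δ := by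
    refine ⟨min (1 / 2) (δ / 12), lt_min (by norm_num) (by linarith), min_le_left _ _, ?_⟩
    have := min_le_right (1 / 2 : ℝ) (δ / 12)
    linarith
  obtain ⟨K, h3⟩ := h3 ε hε
  obtain ⟨C1, hC1, h1⟩ := h1 K
  filter_upwards [h3, event17 (C + C1 / ε), event17 (C + 1)] with g hD hM hM1
  have hO := h2 g
  have hf := fib_lower17 g
  have hab := h1 g
  have hp : (0 : ℝ) < (39 / 25) ^ g := by positivity
  have hO1 : (C1 / ε) * (39 / 25) ^ g ≤ O g := by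
    have : (C + C1 / ε) * (39 / 25 : ℝ) ^ g = C * (39 / 25) ^ g + C1 / ε * (39 / 25) ^ g := by ring
    rw [this] at hM
    linarith
  have hO2 : C1 * (39 / 25) ^ g ≤ ε * O g := by
    have h5 : C1 * (39 / 25 : ℝ) ^ g = ε * ((C1 / ε) * (39 / 25) ^ g) := by
      field_simp
    rw [h5]
    exact mul_le_mul_of_nonneg_left hO1 hε.le
  have hOpos : (0 : ℝ) < O g := by
    have : (C + 1) * (39 / 25 : ℝ) ^ g = C * (39 / 25) ^ g + (39 / 25) ^ g := by ring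
    rw [this] at hM1
    linarith
  have hE : (E g : ℝ) ≤ O g + |(O g : ℝ) - E g| := by
    have := neg_abs_le ((O g : ℝ) - E g)
    linarith
  have hA : 0 ≤ |(O g : ℝ) - E g| := abs_nonneg _
  have hfin : |(O g : ℝ) - E g| ≤ 6 * ε * O g := by
    have h6 : |(O g : ℝ) - E g| ≤ ε * O g + ε * (O g + E g) := by linarith
    have h7 : ε * (O g + E g) ≤ ε * (O g + (O g + |(O g : ℝ) - E g|)) :=
      mul_le_mul_of_nonneg_left (by linarith) hε.le
    nlinarith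
  rw [Real.dist_eq]
  have h8 : (E g : ℝ) / O g - 1 = -(((O g : ℝ) - E g) / O g) := by
    field_simp
    ring
  rw [h8, abs_neg, abs_div, abs_of_pos hOpos, div_lt_iff₀ hOpos]
  calc |(O g : ℝ) - E g| ≤ 6 * ε * O g := hfin
    _ < δ * O g := mul_lt_mul_of_pos_right hεδ hOpos

end Pool.Agent.Lib.MP_eee9c1_co.TP
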