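import Mathlib
import Pool.Agent.Lib.MP_eee9c1_co.TP.AllK17

/-!
# Assembly for `F < 2 m + K`, uniform in `K` (helper17)
-/

set_option autoImplicit false

namespace Pool.Agent.Lib.MP_eee9c1_co.TP

open Finset

open KA17

theorem kuni17 (h1 : StKSem1) (h2 : StKSem2) (hmul : StKMul) (hgen : StKGen) (htop : StKTop)
    (hbad : StBad) (hfin : StFinite) (hnum : StNum) : ∃ C : ℝ, 0 < C ∧ ∀ K g : ℕ, 7 * K + 6 ≤ g →
    |(numOddK K g : ℝ) - numEvenK K g| ≤ C * 8 ^ K * (39 / 25) ^ g ∧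
    |(numOdd g : ℝ) - numEven g| ≤ C * 8 ^ K * (39 / 25) ^ g +
      {S : Set ℕ | IsNS S ∧ genus S = g ∧ ¬ ShallowK K S}.ncard := by
  classical
  have hz : ∃ z : ℝ, 0 < z ∧ z + z ^ 2 = 1 := by
    refine ⟨(Real.sqrt 5 - 1) / 2, ?_, ?_⟩
    · have : (1 : ℝ) < Real.sqrt 5 := by
        rw [show (1 : ℝ) = Real.sqrt 1 by simp]
        exact Real.sqrt_lt_sqrt (by norm_num) (by norm_num)
      linarith
    · have h5 : Real.sqrt 5 ^ 2 = 5 := Real.sq_sqrt (by norm_num)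
      nlinarith [h5]
  obtain ⟨z, hz0, hz1⟩ := hz
  have hz2 : z < 1 := by nlinarith
  obtain ⟨C, hC, hCn⟩ := hnum z hz0 hz1
  set w : ℝ := z ^ 2 + z ^ 3 + z ^ 4 with hw
  have hw0 : 0 < w := by positivity
  have hw1 : w ≤ 1 := by
    have e3 : z ^ 3 = 2 * z - 1 := by nlinarith [hz1]
    have e2 : z ^ 2 = 1 - z := by linarith
    have e4 : z ^ 4 = 2 - 3 * z := by nlinarith [hz1]
    rw [hw, e2, e3, e4]
    -- 2 - 2 z ≤ 1 iff z ≥ 1/2
    nlinarith [hz1]
  have hwh : (1 : ℝ) / 2 ≤ w := by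
    have e3 : z ^ 3 = 2 * z - 1 := by nlinarith [hz1]
    have e2 : z ^ 2 = 1 - z := by linarith
    have e4 : z ^ 4 = 2 - 3 * z := by nlinarith [hz1]
    rw [hw, e2, e3, e4]
    nlinarith [hz1]
  refine ⟨3 * C, by positivity, ?_⟩
  intro K g hg
  set D : ℝ := 2 ^ K * (4 ^ K + (w ^ (2 * K + 1))⁻¹) with hD
  have hD0 : 0 < D := by positivity
  have hD8 : D ≤ 3 * 8 ^ K := by
    have t1 : (w ^ (2 * K + 1))⁻¹ ≤ 2 * 4 ^ K := by
      have t2 : ((1 : ℝ) / 2) ^ (2 * K + 1) ≤ w ^ (2 * K + 1) :=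
        pow_le_pow_left₀ (by norm_num) hwh _
      have t3 : (w ^ (2 * K + 1))⁻¹ ≤ (((1 : ℝ) / 2) ^ (2 * K + 1))⁻¹ :=
        inv_anti₀ (by positivity) t2
      have t4 : (((1 : ℝ) / 2) ^ (2 * K + 1))⁻¹ = 2 * 4 ^ K := by
        rw [one_div, inv_pow, inv_inv, pow_succ, pow_mul]
        norm_num
        ring
      rw [t4] at t3
      exact t3
    have t5 : (8 : ℝ) ^ K = 2 ^ K * 4 ^ K := by
      rw [← mul_pow]; norm_num
    rw [hD, t5]
    have t6 : (0 : ℝ) < 2 ^ K := by positivity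
    calc (2 : ℝ) ^ K * (4 ^ K + (w ^ (2 * K + 1))⁻¹) ≤ 2 ^ K * (4 ^ K + 2 * 4 ^ K) :=
          mul_le_mul_of_nonneg_left (by linarith) t6.le
      _ = 3 * (2 ^ K * 4 ^ K) := by ring
  have key : |(numOddK K g : ℝ) - numEvenK K g| ≤ 3 * C * 8 ^ K * (39 / 25) ^ g := by
    have hpow1 : (1 : ℝ) ≤ (39 / 25 : ℝ) ^ g := one_le_pow₀ (by norm_num)
    set s : ℕ := (g - 7 * K) / 6 with hsdef
    have hs : 1 ≤ s := by omega
    have hgs : 6 * (s + K) + K ≤ g := by omega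
    have hO : numOddK K g = ((cK K g).filter (fun p => Odd (typ (SgK K (p.1, p.2))))).card :=
      ncardK h1 h2 K g (by omega) Odd
    have hE : numEvenK K g = ((cK K g).filter (fun p => Even (typ (SgK K (p.1, p.2))))).card :=
      ncardK h1 h2 K g (by omega) Even
    have hsig := signedK (cK K g) (fun p => typ (SgK K (p.1, p.2)))
    rw [← hO, ← hE] at hsig
    have hsum : ∑ p ∈ cK K g, (-1 : ℤ) ^ typ (SgK K (p.1, p.2)) =
        ∑ B ∈ (range K).powerset,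
          ∑ c ∈ (conf (g - (K - B.card))).filter (fun c => Ok K B c.2),
            (-1 : ℤ) ^ typ (SgK K (B, c)) := by
      unfold cK
      rw [Finset.sum_sigma]
    rw [hsum] at hsig
    have hb1 : ∀ B ∈ (range K).powerset,
        |((∑ c ∈ (conf (g - (K - B.card))).filter (fun c => Ok K B c.2),
            (-1 : ℤ) ^ typ (SgK K (B, c)) : ℤ) : ℝ)| ≤
          4 ^ (s + K) + 2 * (((g : ℝ) + 1) ^ 2 * w ^ s / z ^ g) := by
      intro B hB
      have hB' := Finset.mem_powerset.1 hB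
      have d := diffB h1 hmul hgen htop K g s B hB' hs hgs
      have dR : |((∑ c ∈ (conf (g - (K - B.card))).filter (fun c => Ok K B c.2),
            (-1 : ℤ) ^ typ (SgK K (B, c)) : ℤ) : ℝ)| ≤ 4 ^ (s + K) +
            2 * (((conf (g - (K - B.card))).filter
              (fun c => ∃ x ∈ good c.1 c.2, s ≤ x ∧ x + s ≤ c.1)).card : ℝ) := by
        exact_mod_cast d
      have hb := hbad z hz0 hz1 (g - (K - B.card)) s hs
      have hzg : (0 : ℝ) < z ^ (g - (K - B.card)) := pow_pos hz0 _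
      have hb2 : (((conf (g - (K - B.card))).filter
              (fun c => ∃ x ∈ good c.1 c.2, s ≤ x ∧ x + s ≤ c.1)).card : ℝ) ≤
          (((g - (K - B.card) : ℕ) : ℝ) + 1) ^ 2 * w ^ s / z ^ (g - (K - B.card)) := by
        rw [le_div_iff₀ hzg]
        exact hb
      have hb3 : (((g - (K - B.card) : ℕ) : ℝ) + 1) ^ 2 * w ^ s / z ^ (g - (K - B.card)) ≤
          ((g : ℝ) + 1) ^ 2 * w ^ s / z ^ g := by
        apply div_le_div₀ (by positivity) _ (pow_pos hz0 g) _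
        · have hle : ((g - (K - B.card) : ℕ) : ℝ) ≤ (g : ℝ) := by
            exact_mod_cast Nat.sub_le _ _
          have hn : (0 : ℝ) ≤ ((g - (K - B.card) : ℕ) : ℝ) := Nat.cast_nonneg _
          apply mul_le_mul_of_nonneg_right _ (by positivity)
          apply pow_le_pow_left₀ (by linarith)
          linarith
        · exact pow_le_pow_of_le_one hz0.le hz2.le (Nat.sub_le _ _)
      linarith
    have habs : |(numEvenK K g : ℝ) - numOddK K g| ≤
        2 ^ K * (4 ^ (s + K) + 2 * (((g : ℝ) + 1) ^ 2 * w ^ s / z ^ g)) := by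
      have e1 : ((numEvenK K g : ℝ) - numOddK K g) = ∑ B ∈ (range K).powerset,
          ((∑ c ∈ (conf (g - (K - B.card))).filter (fun c => Ok K B c.2),
            (-1 : ℤ) ^ typ (SgK K (B, c)) : ℤ) : ℝ) := by
        have := congrArg (fun t : ℤ => (t : ℝ)) hsig
        simp only [Int.cast_sub, Int.cast_natCast] at this
        rw [← this]
        push_cast
        rfl
      rw [e1]
      refine (Finset.abs_sum_le_sum_abs _ _).trans ?_
      refine (Finset.sum_le_sum hb1).trans ?_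
      rw [Finset.sum_const, Finset.card_powerset, Finset.card_range, nsmul_eq_mul]
      push_cast
      exact le_refl _
    have hn := hCn g
    have p1 : (4 : ℝ) ^ (s + K) ≤ 4 ^ K * 4 ^ (g / 6) := by
      rw [← pow_add]
      exact pow_le_pow_right₀ (by norm_num) (by omega)
    have p2 : w ^ s ≤ (w ^ (2 * K + 1))⁻¹ * w ^ (g / 6) := by
      rw [inv_mul_eq_div, le_div_iff₀ (by positivity), ← pow_add]
      exact pow_le_pow_of_le_one hw0.le hw1 (by omega)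
    set X : ℝ := ((g : ℝ) + 1) ^ 2 / z ^ g with hX
    have hX0 : 0 ≤ X := by positivity
    have q1 : ((g : ℝ) + 1) ^ 2 * w ^ s / z ^ g = X * w ^ s := by rw [hX]; ring
    have q2 : ((g : ℝ) + 1) ^ 2 * w ^ (g / 6) / z ^ g = X * w ^ (g / 6) := by rw [hX]; ring
    rw [q1] at habs
    rw [q2] at hn
    have p3 : X * w ^ s ≤ (w ^ (2 * K + 1))⁻¹ * (X * w ^ (g / 6)) := by
      have := mul_le_mul_of_nonneg_left p2 hX0
      nlinarith
    have hwi : 0 < (w ^ (2 * K + 1))⁻¹ := by positivity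
    have h4 : (0 : ℝ) < 4 ^ K := by positivity
    have g1 : (0 : ℝ) ≤ 4 ^ (g / 6) := by positivity
    have g2 : 0 ≤ X * w ^ (g / 6) := by positivity
    have p4 : 4 ^ (s + K) + 2 * (X * w ^ s) ≤
        (4 ^ K + (w ^ (2 * K + 1))⁻¹) * (4 ^ (g / 6) + 2 * (X * w ^ (g / 6))) := by
      nlinarith [mul_nonneg hwi.le g1, mul_nonneg h4.le g2]
    have p5 : (4 ^ K + (w ^ (2 * K + 1))⁻¹) * (4 ^ (g / 6) + 2 * (X * w ^ (g / 6))) ≤
        (4 ^ K + (w ^ (2 * K + 1))⁻¹) * (C * (39 / 25) ^ g) :=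
      mul_le_mul_of_nonneg_left hn (by positivity)
    have p6 : (2 : ℝ) ^ K * (4 ^ (s + K) + 2 * (X * w ^ s)) ≤ D * C * (39 / 25) ^ g := by
      have := mul_le_mul_of_nonneg_left (p4.trans p5) (by positivity : (0 : ℝ) ≤ 2 ^ K)
      rw [hD]
      linarith
    rw [abs_sub_comm]
    have p7 : D * C * (39 / 25) ^ g ≤ 3 * C * 8 ^ K * (39 / 25) ^ g := by
      have p8 : (0 : ℝ) ≤ C * (39 / 25) ^ g := by positivity
      have := mul_le_mul_of_nonneg_right hD8 p8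
      nlinarith
    exact habs.trans (p6.trans p7)
  refine ⟨key, ?_⟩
  -- all semigroups
  have hfinS : ∀ (Q : Set ℕ → Prop), {S : Set ℕ | IsNS S ∧ genus S = g ∧ Q S}.Finite := by
    intro Q
    exact (hfin g).subset (fun S hS => ⟨hS.1, hS.2.1⟩)
  have split : ∀ (P : ℕ → Prop), {S : Set ℕ | IsNS S ∧ genus S = g ∧ P (typ S)}.ncard =
      {S : Set ℕ | IsNS S ∧ ShallowK K S ∧ genus S = g ∧ P (typ S)}.ncard +
      {S : Set ℕ | IsNS S ∧ genus S = g ∧ (¬ ShallowK K S ∧ P (typ S))}.ncard := by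
    intro P
    have hd : Disjoint {S : Set ℕ | IsNS S ∧ ShallowK K S ∧ genus S = g ∧ P (typ S)}
        {S : Set ℕ | IsNS S ∧ genus S = g ∧ (¬ ShallowK K S ∧ P (typ S))} := by
      rw [Set.disjoint_left]
      rintro S ⟨_, h, _⟩ ⟨_, _, h', _⟩
      exact h' h
    rw [← Set.ncard_union_eq hd ((hfin g).subset (fun S hS => ⟨hS.1, hS.2.2.1⟩)) (hfinS _)]
    congr 1
    ext S
    show (IsNS S ∧ genus S = g ∧ P (typ S)) ↔
      ((IsNS S ∧ ShallowK K S ∧ genus S = g ∧ P (typ S)) ∨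
        (IsNS S ∧ genus S = g ∧ (¬ ShallowK K S ∧ P (typ S))))
    tauto
  have tot : {S : Set ℕ | IsNS S ∧ genus S = g ∧ ¬ ShallowK K S}.ncard =
      {S : Set ℕ | IsNS S ∧ genus S = g ∧ (¬ ShallowK K S ∧ Odd (typ S))}.ncard +
      {S : Set ℕ | IsNS S ∧ genus S = g ∧ (¬ ShallowK K S ∧ Even (typ S))}.ncard := by
    have hd : Disjoint {S : Set ℕ | IsNS S ∧ genus S = g ∧ (¬ ShallowK K S ∧ Odd (typ S))}
        {S : Set ℕ | IsNS S ∧ genus S = g ∧ (¬ ShallowK K S ∧ Even (typ S))} := by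
      rw [Set.disjoint_left]
      rintro S ⟨_, _, _, h⟩ ⟨_, _, _, h'⟩
      exact (Nat.not_odd_iff_even.2 h') h
    rw [← Set.ncard_union_eq hd (hfinS _) (hfinS _)]
    congr 1
    ext S
    show (IsNS S ∧ genus S = g ∧ ¬ ShallowK K S) ↔
      ((IsNS S ∧ genus S = g ∧ (¬ ShallowK K S ∧ Odd (typ S))) ∨
        (IsNS S ∧ genus S = g ∧ (¬ ShallowK K S ∧ Even (typ S))))
    have := Nat.even_or_odd (typ S)
    tauto
  have sO := split Odd
  have sE := split Even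
  have sO' : (numOdd g : ℝ) = numOddK K g +
      {S : Set ℕ | IsNS S ∧ genus S = g ∧ (¬ ShallowK K S ∧ Odd (typ S))}.ncard := by
    exact_mod_cast sO
  have sE' : (numEven g : ℝ) = numEvenK K g +
      {S : Set ℕ | IsNS S ∧ genus S = g ∧ (¬ ShallowK K S ∧ Even (typ S))}.ncard := by
    exact_mod_cast sE
  have tot' : ({S : Set ℕ | IsNS S ∧ genus S = g ∧ ¬ ShallowK K S}.ncard : ℝ) =
      {S : Set ℕ | IsNS S ∧ genus S = g ∧ (¬ ShallowK K S ∧ Odd (typ S))}.ncard +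
      {S : Set ℕ | IsNS S ∧ genus S = g ∧ (¬ ShallowK K S ∧ Even (typ S))}.ncard := by
    exact_mod_cast tot
  have k := key
  rw [abs_le] at k ⊢
  have n1 : (0 : ℝ) ≤
      {S : Set ℕ | IsNS S ∧ genus S = g ∧ (¬ ShallowK K S ∧ Odd (typ S))}.ncard :=
    Nat.cast_nonneg _
  have n2 : (0 : ℝ) ≤
      {S : Set ℕ | IsNS S ∧ genus S = g ∧ (¬ ShallowK K S ∧ Even (typ S))}.ncard :=
    Nat.cast_nonneg _
  rw [sO', sE', tot']
  constructor <;> linarith [k.1, k.2]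

theorem allU17 : ∃ C : ℝ, 0 < C ∧ ∀ K g : ℕ, 7 * K + 6 ≤ g →
    |(numOddK K g : ℝ) - numEvenK K g| ≤ C * 8 ^ K * (39 / 25) ^ g ∧
    |(numOdd g : ℝ) - numEven g| ≤ C * 8 ^ K * (39 / 25) ^ g +
      {S : Set ℕ | IsNS S ∧ genus S = g ∧ ¬ ShallowK K S}.ncard :=
  kuni17 rowKSem1_76 rowKSem2_73 rowKMul9 rowKGen88 rowKTop88 (rowBad97 rowW9) rowFin11 rowNum88

end Pool.Agent.Lib.MP_eee9c1_co.TP
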