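import Pool.Agent.Lib.MP_eee9c1_co.TP.Defs60

set_option autoImplicit false

namespace Pool.Agent.Lib.MP_eee9c1_co.TP

open Finset

namespace M60

/-- lower part -/
def lo (s : ℕ) (c : ℕ × Finset ℕ) : Finset ℕ := c.2.filter (fun x => x ≤ s)

/-- upper part, reflected -/
def up (s : ℕ) (c : ℕ × Finset ℕ) : Finset ℕ :=
  (c.2.filter (fun x => c.1 < x + s)).image (fun x => c.1 - x)

/-- middle part, shifted -/
def mid (s : ℕ) (c : ℕ × Finset ℕ) : Finset ℕ :=
  (c.2.filter (fun x => s < x ∧ x + s ≤ c.1)).image (fun x => x - s)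

/-- put together -/
def build (s : ℕ) (U V : Finset ℕ) (c : ℕ × Finset ℕ) : ℕ × Finset ℕ :=
  (c.1 + 2 * s, (U ∪ c.2.image (fun x => x + s)) ∪ V.image (fun j => c.1 + 2 * s - j))

lemma card_build (s : ℕ) (U V : Finset ℕ) (c : ℕ × Finset ℕ) (hU : U ⊆ Icc 1 s)
    (hV : V ⊆ range s) (hc : c.2 ⊆ Icc 1 c.1) :
    (build s U V c).2.card = U.card + c.2.card + V.card := by
  unfold build
  simp only
  rw [card_union_of_disjoint, card_union_of_disjoint, card_image_of_injective, card_image_of_injOn]
  · intro a ha b hb h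
    have ha' := mem_range.mp (hV ha)
    have hb' := mem_range.mp (hV hb)
    simp only at h
    omega
  · intro a b h
    simp only at h
    omega
  · rw [disjoint_left]
    intro a ha hb
    rw [mem_image] at hb
    obtain ⟨b, hb, rfl⟩ := hb
    have h1 := mem_Icc.mp (hU ha)
    have h2 := mem_Icc.mp (hc hb)
    omega
  · rw [disjoint_left]
    intro a ha hb
    rw [mem_image] at hb
    obtain ⟨b, hb, rfl⟩ := hb
    have h3 := mem_range.mp (hV hb)
    rcases mem_union.mp ha with ha | ha
    · have h1 := mem_Icc.mp (hU ha)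
      omega
    · rw [mem_image] at ha
      obtain ⟨d, hd, hda⟩ := ha
      have h2 := mem_Icc.mp (hc hd)
      omega

lemma build_parts (s : ℕ) (c : ℕ × Finset ℕ) (hc : c.2 ⊆ Icc 1 c.1) (h2 : 2 * s ≤ c.1) :
    build s (lo s c) (up s c) (c.1 - 2 * s, mid s c) = c := by
  unfold build
  have e : c.1 - 2 * s + 2 * s = c.1 := by omega
  ext x
  · simp only; rw [e]
  · simp only [e, lo, up, mid, mem_union, mem_filter, mem_image]
    constructor
    · rintro ((h | ⟨y, ⟨z, ⟨hz, hz1⟩, rfl⟩, rfl⟩) | ⟨y, ⟨z, ⟨hz, hz1⟩, rfl⟩, rfl⟩)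
      · exact h.1
      · have : z - s + s = z := by omega
        rw [this]; exact hz
      · have h3 := mem_Icc.mp (hc hz)
        have : c.1 - (c.1 - z) = z := by omega
        rw [this]; exact hz
    · intro hx
      have h3 := mem_Icc.mp (hc hx)
      by_cases h4 : x ≤ s
      · exact Or.inl (Or.inl ⟨hx, h4⟩)
      · by_cases h5 : x + s ≤ c.1
        · exact Or.inl (Or.inr ⟨x - s, ⟨x, ⟨hx, by omega, h5⟩, rfl⟩, by omega⟩)
        · exact Or.inr ⟨c.1 - x, ⟨x, ⟨hx, by omega⟩, rfl⟩, by omega⟩

lemma mem_build (s : ℕ) (U V : Finset ℕ) (c : ℕ × Finset ℕ) (hU : U ⊆ Icc 1 s)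
    (hV : V ⊆ range s) (hc : c.2 ⊆ Icc 1 c.1) (x : ℕ) : x ∈ (build s U V c).2 ↔
      (x ∈ U ∧ 1 ≤ x ∧ x ≤ s) ∨ (s < x ∧ x + s ≤ c.1 + 2 * s ∧ x - s ∈ c.2) ∨
        (c.1 + 2 * s < x + s ∧ x ≤ c.1 + 2 * s ∧ c.1 + 2 * s - x ∈ V) := by
  unfold build
  simp only [mem_union, mem_image]
  constructor
  · rintro ((h | ⟨y, hy, rfl⟩) | ⟨y, hy, rfl⟩)
    · have := mem_Icc.mp (hU h)
      exact Or.inl ⟨h, this.1, this.2⟩
    · have := mem_Icc.mp (hc hy)
      refine Or.inr (Or.inl ⟨by omega, by omega, ?_⟩)
      rw [Nat.add_sub_cancel]; exact hy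
    · have := mem_range.mp (hV hy)
      refine Or.inr (Or.inr ⟨by omega, by omega, ?_⟩)
      have e : c.1 + 2 * s - (c.1 + 2 * s - y) = y := by omega
      rw [e]; exact hy
  · rintro (h | h | h)
    · exact Or.inl (Or.inl h.1)
    · exact Or.inl (Or.inr ⟨x - s, h.2.2, by omega⟩)
    · exact Or.inr ⟨c.1 + 2 * s - x, h.2.2, by omega⟩

lemma lo_build (s : ℕ) (U V : Finset ℕ) (c : ℕ × Finset ℕ) (hU : U ⊆ Icc 1 s)
    (hV : V ⊆ range s) (hc : c.2 ⊆ Icc 1 c.1) : lo s (build s U V c) = U := by
  ext x
  unfold lo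
  rw [mem_filter, mem_build s U V c hU hV hc]
  constructor
  · rintro ⟨h | h | h, h'⟩
    · exact h.1
    · omega
    · omega
  · intro h
    have := mem_Icc.mp (hU h)
    exact ⟨Or.inl ⟨h, this.1, this.2⟩, this.2⟩

lemma mid_build (s : ℕ) (U V : Finset ℕ) (c : ℕ × Finset ℕ) (hU : U ⊆ Icc 1 s)
    (hV : V ⊆ range s) (hc : c.2 ⊆ Icc 1 c.1) : mid s (build s U V c) = c.2 := by
  ext x
  unfold mid
  have e1 : (build s U V c).1 = c.1 + 2 * s := rfl
  simp only [mem_image, mem_filter]
  simp only [mem_build s U V c hU hV hc, e1]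
  constructor
  · rintro ⟨y, ⟨h | h | h, h'⟩, rfl⟩
    · omega
    · exact h.2.2
    · omega
  · intro h
    have := mem_Icc.mp (hc h)
    refine ⟨x + s, ⟨Or.inr (Or.inl ⟨by omega, by omega, ?_⟩), by omega, by omega⟩, by omega⟩
    rw [Nat.add_sub_cancel]; exact h

lemma up_build (s : ℕ) (U V : Finset ℕ) (c : ℕ × Finset ℕ) (hU : U ⊆ Icc 1 s)
    (hV : V ⊆ range s) (hc : c.2 ⊆ Icc 1 c.1) : up s (build s U V c) = V := by
  ext x
  unfold up
  have e1 : (build s U V c).1 = c.1 + 2 * s := rfl
  simp only [mem_image, mem_filter]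
  simp only [mem_build s U V c hU hV hc, e1]
  constructor
  · rintro ⟨y, ⟨h | h | h, h'⟩, rfl⟩
    · omega
    · omega
    · exact h.2.2
  · intro h
    have := mem_range.mp (hV h)
    refine ⟨c.1 + 2 * s - x, ⟨Or.inr (Or.inr ⟨by omega, by omega, ?_⟩), by omega⟩, by omega⟩
    have e : c.1 + 2 * s - (c.1 + 2 * s - x) = x := by omega
    rw [e]; exact h

/-- the number of good elements above `N - s` depends only on the two parts -/
lemma top_good (s : ℕ) (c : ℕ × Finset ℕ) (hc : c.2 ⊆ Icc 1 c.1) (h2 : 2 * s ≤ c.1) :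
    ((good c.1 c.2).filter (fun x => c.1 < x + s)).card =
      ((up s c).filter (fun j => ∀ a ∈ lo s c, a ≤ j → j - a ∈ up s c)).card := by
  have hup : ∀ j, j ∈ up s c ↔ j < s ∧ j ≤ c.1 ∧ c.1 - j ∈ c.2 := by
    intro j
    unfold up
    simp only [mem_image, mem_filter]
    constructor
    · rintro ⟨x, ⟨hx, hx1⟩, rfl⟩
      have := mem_Icc.mp (hc hx)
      have e : c.1 - (c.1 - x) = x := by omega
      exact ⟨by omega, by omega, by rw [e]; exact hx⟩
    · rintro ⟨h1, h3, h4⟩
      exact ⟨c.1 - j, ⟨h4, by omega⟩, by omega⟩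
  refine card_bij (fun x _ => c.1 - x) ?_ ?_ ?_
  · intro x hx
    simp only [mem_filter, good] at hx
    obtain ⟨⟨hxA, hg⟩, hxs⟩ := hx
    have hx1 := mem_Icc.mp (hc hxA)
    have e : c.1 - (c.1 - x) = x := by omega
    simp only [mem_filter]
    refine ⟨(hup _).mpr ⟨by omega, by omega, by rw [e]; exact hxA⟩, ?_⟩
    intro a ha haj
    have haA : a ∈ c.2 := (mem_filter.mp ha).1
    rw [hup]
    refine ⟨by omega, by omega, ?_⟩
    have e2 : c.1 - (c.1 - x - a) = x + a := by omega
    rw [e2]
    exact hg a haA (by omega)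
  · intro x hx y hy h
    simp only [mem_filter, good] at hx hy
    have hx1 := mem_Icc.mp (hc hx.1.1)
    have hy1 := mem_Icc.mp (hc hy.1.1)
    have h' : c.1 - x = c.1 - y := h
    omega
  · intro j hj
    simp only [mem_filter] at hj
    obtain ⟨hj1, hj2⟩ := hj
    have hj3 := (hup j).mp hj1
    refine ⟨c.1 - j, ?_, by omega⟩
    simp only [mem_filter, good]
    refine ⟨⟨hj3.2.2, ?_⟩, by omega⟩
    intro a ha haN
    have hal := mem_Icc.mp (hc ha)
    have : a ∈ lo s c := mem_filter.mpr ⟨ha, by omega⟩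
    have h5 := hj2 a this (by omega)
    have h6 := ((hup _).mp h5).2.2
    have e3 : c.1 - (j - a) = c.1 - j + a := by omega
    rw [e3] at h6
    exact h6

/-- alternating sum over the configurations -/
lemma sum_conf (n : ℕ) : ∑ c ∈ conf n, (-1 : ℤ) ^ (c.1 - c.2.card) = eps n := by
  unfold eps
  have hmaps : ∀ c ∈ conf n, ((c.1, c.1 - c.2.card) : ℕ × ℕ) ∈ antidiagonal n := by
    intro c hc
    simp only [conf, mem_filter] at hc
    obtain ⟨_, hA, h2⟩ := hc
    have hcard := card_le_card hA
    rw [Nat.card_Icc] at hcard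
    rw [HasAntidiagonal.mem_antidiagonal]
    simp only
    omega
  rw [← sum_fiberwise_of_maps_to hmaps]
  refine sum_congr rfl fun p hp => ?_
  rw [HasAntidiagonal.mem_antidiagonal] at hp
  have h1 : ∀ c ∈ (conf n).filter (fun c => ((c.1, c.1 - c.2.card) : ℕ × ℕ) = p),
      (-1 : ℤ) ^ (c.1 - c.2.card) = (-1) ^ p.2 := by
    intro c hc
    rw [mem_filter] at hc
    rw [← hc.2]
  rw [sum_congr rfl h1, sum_const, nsmul_eq_mul, mul_comm]
  congr 1
  norm_cast
  by_cases hp2 : p.2 ≤ p.1
  · rw [← Nat.choose_symm hp2]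
    have : (conf n).filter (fun c => ((c.1, c.1 - c.2.card) : ℕ × ℕ) = p) =
        (powersetCard (p.1 - p.2) (Icc 1 p.1)).image (fun A => (p.1, A)) := by
      ext c
      simp only [conf, mem_filter, mem_image, mem_powersetCard, mem_product, mem_range, mem_powerset]
      constructor
      · rintro ⟨⟨_, hA, h2⟩, rfl⟩
        have hcard := card_le_card hA
        rw [Nat.card_Icc] at hcard
        refine ⟨c.2, ⟨hA, ?_⟩, rfl⟩
        simp only
        omega
      · rintro ⟨A, ⟨hA, hcA⟩, rfl⟩
        have hcard := card_le_card hA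
        rw [Nat.card_Icc] at hcard
        refine ⟨⟨⟨by simp only; omega, ?_⟩, hA, by simp only; omega⟩, ?_⟩
        · intro x hx
          have := mem_Icc.mp (hA hx)
          rw [mem_Icc]; omega
        · ext <;> simp only <;> omega
    rw [this, card_image_of_injective, card_powersetCard, Nat.card_Icc]
    · rw [Nat.add_sub_cancel]
    · intro a b h
      exact (Prod.mk.inj h).2
  · rw [Nat.choose_eq_zero_of_lt (by omega), card_eq_zero, filter_eq_empty_iff]
    rintro c _ h
    rw [← h] at hp2
    simp only at hp2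
    omega

end M60

theorem rowMAIN60 : StMain := by
  intro heps g s hgs
  have hfib : ∀ c ∈ conf g, ((M60.lo s c, M60.up s c) : Finset ℕ × Finset ℕ) ∈
      (Icc 1 s).powerset ×ˢ (range s).powerset := by
    intro c hc
    simp only [conf, mem_filter] at hc
    obtain ⟨_, hA, h2⟩ := hc
    rw [mem_product, mem_powerset, mem_powerset]
    constructor
    · intro x hx
      simp only [M60.lo, mem_filter] at hx
      have := mem_Icc.mp (hA hx.1)
      rw [mem_Icc]; omega
    · intro x hx
      simp only [M60.up, mem_image, mem_filter] at hx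
      obtain ⟨y, ⟨hy, hy1⟩, rfl⟩ := hx
      have := mem_Icc.mp (hA hy)
      rw [mem_range]; omega
  rw [← sum_fiberwise_of_maps_to hfib]
  refine (abs_sum_le_sum_abs _ _).trans ?_
  have hb : ∀ q ∈ (Icc 1 s).powerset ×ˢ (range s).powerset,
      |∑ c ∈ (conf g).filter (fun c => ((M60.lo s c, M60.up s c) : Finset ℕ × Finset ℕ) = q),
        (-1 : ℤ) ^ (c.1 - c.2.card + ((good c.1 c.2).filter (fun x => c.1 < x + s)).card)| ≤ 1 := by
    rintro ⟨U, V⟩ hq
    rw [mem_product, mem_powerset, mem_powerset] at hq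
    obtain ⟨hU, hV⟩ := hq
    simp only at hU hV
    have hUc := card_le_card hU
    have hVc := card_le_card hV
    rw [Nat.card_Icc] at hUc
    rw [card_range] at hVc
    set n := g + U.card + V.card - 4 * s with hn
    set H := (V.filter (fun j => ∀ a ∈ U, a ≤ j → j - a ∈ V)).card with hH
    have key : ∑ c ∈ (conf g).filter
        (fun c => ((M60.lo s c, M60.up s c) : Finset ℕ × Finset ℕ) = (U, V)),
        (-1 : ℤ) ^ (c.1 - c.2.card + ((good c.1 c.2).filter (fun x => c.1 < x + s)).card) =
        (-1) ^ (2 * s - (U.card + V.card) + H) * ∑ c ∈ conf n, (-1 : ℤ) ^ (c.1 - c.2.card) := by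
      rw [mul_sum]
      symm
      refine sum_bij' (fun c _ => M60.build s U V c) (fun c _ => (c.1 - 2 * s, M60.mid s c))
        ?_ ?_ ?_ ?_ ?_
      · intro c hc
        simp only [conf, mem_filter, mem_product, mem_range, mem_powerset] at hc
        obtain ⟨_, hA, h2⟩ := hc
        have hcard := M60.card_build s U V c hU hV hA
        have hAc := card_le_card hA
        rw [Nat.card_Icc] at hAc
        have e1 : (M60.build s U V c).1 = c.1 + 2 * s := rfl
        have hsub : (M60.build s U V c).2 ⊆ Icc 1 (c.1 + 2 * s) := by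
          intro x hx
          rw [M60.mem_build s U V c hU hV hA] at hx
          rw [mem_Icc]
          rcases hx with h | h | h <;> omega
        rw [mem_filter]
        refine ⟨?_, ?_⟩
        · simp only [conf, mem_filter, mem_product, mem_range, mem_powerset]
          rw [hcard, e1]
          refine ⟨⟨by omega, ?_⟩, hsub, by omega⟩
          refine hsub.trans (Icc_subset_Icc_right (by omega))
        · rw [M60.lo_build s U V c hU hV hA, M60.up_build s U V c hU hV hA]
      · intro c hc
        rw [mem_filter] at hc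
        obtain ⟨hc, hq⟩ := hc
        simp only [conf, mem_filter, mem_product, mem_range, mem_powerset] at hc
        obtain ⟨_, hA, h2⟩ := hc
        have hAc := card_le_card hA
        rw [Nat.card_Icc] at hAc
        have h2s : 2 * s ≤ c.1 := by omega
        have hU' : M60.lo s c = U := (Prod.mk.inj hq).1
        have hV' : M60.up s c = V := (Prod.mk.inj hq).2
        have hmid : M60.mid s c ⊆ Icc 1 (c.1 - 2 * s) := by
          intro x hx
          simp only [M60.mid, mem_image, mem_filter] at hx
          obtain ⟨y, ⟨_, hy1⟩, rfl⟩ := hx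
          rw [mem_Icc]; omega
        have hb := M60.build_parts s c hA h2s
        have hcard := M60.card_build s (M60.lo s c) (M60.up s c) (c.1 - 2 * s, M60.mid s c)
          (by rw [hU']; exact hU) (by rw [hV']; exact hV) hmid
        rw [hb, hU', hV'] at hcard
        simp only at hcard
        simp only [conf, mem_filter, mem_product, mem_range, mem_powerset]
        have hmc := card_le_card hmid
        rw [Nat.card_Icc] at hmc
        refine ⟨⟨by omega, ?_⟩, hmid, by omega⟩
        exact hmid.trans (Icc_subset_Icc_right (by omega))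
      · intro c hc
        simp only [conf, mem_filter, mem_product, mem_range, mem_powerset] at hc
        obtain ⟨_, hA, h2⟩ := hc
        have e1 : (M60.build s U V c).1 = c.1 + 2 * s := rfl
        rw [M60.mid_build s U V c hU hV hA, e1, Nat.add_sub_cancel]
      · intro c hc
        rw [mem_filter] at hc
        obtain ⟨hc, hq⟩ := hc
        simp only [conf, mem_filter, mem_product, mem_range, mem_powerset] at hc
        obtain ⟨_, hA, h2⟩ := hc
        have hAc := card_le_card hA
        rw [Nat.card_Icc] at hAc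
        have h2s : 2 * s ≤ c.1 := by omega
        have hU' : M60.lo s c = U := (Prod.mk.inj hq).1
        have hV' : M60.up s c = V := (Prod.mk.inj hq).2
        have hb := M60.build_parts s c hA h2s
        rw [hU', hV'] at hb
        exact hb
      · intro c hc
        simp only [conf, mem_filter, mem_product, mem_range, mem_powerset] at hc
        obtain ⟨_, hA, h2⟩ := hc
        have hcard := M60.card_build s U V c hU hV hA
        have hAc := card_le_card hA
        rw [Nat.card_Icc] at hAc
        have e1 : (M60.build s U V c).1 = c.1 + 2 * s := rfl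
        have hsub : (M60.build s U V c).2 ⊆ Icc 1 ((M60.build s U V c).1) := by
          intro x hx
          rw [M60.mem_build s U V c hU hV hA] at hx
          rw [mem_Icc, e1]
          rcases hx with h | h | h <;> omega
        have htop := M60.top_good s (M60.build s U V c) hsub (by rw [e1]; omega)
        rw [M60.lo_build s U V c hU hV hA, M60.up_build s U V c hU hV hA] at htop
        rw [htop, hcard, ← hH, e1, ← pow_add]
        congr 1
        omega
    rw [key, abs_mul, abs_pow, abs_neg, abs_one, one_pow, one_mul, M60.sum_conf]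
    exact heps n
  refine (sum_le_sum hb).trans ?_
  rw [sum_const, card_product, card_powerset, card_powerset, Nat.card_Icc, card_range]
  simp only [Nat.add_sub_cancel, smul_eq_mul, mul_one, nsmul_eq_mul]
  push_cast
  rw [← mul_pow]
  norm_num

end Pool.Agent.Lib.MP_eee9c1_co.TP
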