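import Pool.Agent.Lib.MP_eee9c1_co.TP.Defs60

/-! Row MUL. -/

set_option autoImplicit false

namespace Pool.Agent.Lib.MP_eee9c1_co.TP

open Finset

theorem good_mul9 {N : ℕ} {A : Finset ℕ} {x : ℕ} (hx : x ∈ good N A) :
    ∀ k : ℕ, (k + 1) * x ≤ N → (k + 1) * x ∈ good N A := by
  have hx' := hx
  unfold good at hx'
  rw [mem_filter] at hx'
  intro k
  induction k with
  | zero => intro _; simpa using hx
  | succ k ih =>
    intro hk
    have hk1 : (k + 1) * x ≤ N := le_trans (Nat.mul_le_mul_right x (Nat.le_succ _)) hk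
    have h1 := ih hk1
    unfold good at h1 ⊢
    rw [mem_filter] at h1 ⊢
    have e : (k + 1 + 1) * x = x + (k + 1) * x := by ring
    refine ⟨?_, ?_⟩
    · rw [e]
      exact hx'.2 _ h1.1 (by rw [← e]; exact hk)
    · intro a ha hle
      rw [e] at hle ⊢
      have h2 : (k + 1) * x + a ≤ N := by omega
      have h3 := h1.2 a ha h2
      have h4 := hx'.2 _ h3 (by omega)
      have e2 : x + (k + 1) * x + a = x + ((k + 1) * x + a) := by ring
      rw [e2]
      exact h4

theorem rowMul9 : StMul := by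
  intro N s A hs h3s hA hno x hx
  by_contra hcon
  rw [not_lt] at hcon
  have hxA : x ∈ A := by
    unfold good at hx
    exact (mem_filter.mp hx).1
  have hx1 : 1 ≤ x := (mem_Icc.mp (hA hxA)).1
  have hxs : x < s := by
    by_contra h
    rw [not_lt] at h
    exact hno x hx ⟨h, hcon⟩
  -- the first multiple of `x` which is at least `s`
  obtain ⟨k, hk1, hk2⟩ : ∃ k : ℕ, s ≤ (k + 1) * x ∧ (k + 1) * x < s + x := by
    refine ⟨(s - 1) / x, ?_, ?_⟩
    · have h1 := Nat.lt_div_mul_add (a := s - 1) (b := x) (by omega)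
      have h2 : ((s - 1) / x + 1) * x = (s - 1) / x * x + x := by ring
      omega
    · have h1 := Nat.div_mul_le_self (s - 1) x
      have h2 : ((s - 1) / x + 1) * x = (s - 1) / x * x + x := by ring
      omega
  have h4 : (k + 1) * x ≤ N := by omega
  exact hno _ (good_mul9 hx k h4) ⟨hk1, by omega⟩

end Pool.Agent.Lib.MP_eee9c1_co.TP
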