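import Pool.Agent.Lib.MP_eee9c1_co.TP.Defs60

/-! Row NUM (helper88). -/

set_option autoImplicit false

namespace Pool.Agent.Lib.MP_eee9c1_co.TP

open Finset Filter Topology

theorem bdd88 : ∃ B : ℝ, 0 < B ∧ ∀ s : ℕ, ((s : ℝ) + 1) ^ 2 * (20 / 21 : ℝ) ^ s ≤ B := by
  have h1 : Tendsto (fun n : ℕ => (n : ℝ) ^ 2 * (20 / 21 : ℝ) ^ n) atTop (𝓝 0) :=
    tendsto_pow_const_mul_const_pow_of_abs_lt_one 2 (by rw [abs_of_pos] <;> norm_num)
  obtain ⟨B, hB⟩ := h1.bddAbove_range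
  refine ⟨2 * (|B| + 1), by positivity, fun s => ?_⟩
  have h2 : ((s + 1 : ℕ) : ℝ) ^ 2 * (20 / 21 : ℝ) ^ (s + 1) ≤ B := hB ⟨s + 1, rfl⟩
  push_cast at h2
  have h3 : B ≤ |B| := le_abs_self B
  have h4 : (20 / 21 : ℝ) ^ (s + 1) = (20 / 21 : ℝ) ^ s * (20 / 21) := pow_succ _ _
  rw [h4] at h2
  nlinarith [h2, h3, abs_nonneg B]

theorem rowNum88 : StNum := by
  intro z hz hz2
  obtain ⟨B, hB, hB'⟩ := bdd88
  have hz3 : z = 1 - z ^ 2 := by linarith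
  have hlo : 618 / 1000 ≤ z := by nlinarith
  have hhi : z ≤ 6181 / 10000 := by nlinarith
  have hz1 : z < 1 := by linarith
  -- z ^ 6 = 5 - 8 z
  have e3 : z ^ 3 = 2 * z - 1 := by
    calc z ^ 3 = z * z ^ 2 := by ring
      _ = z * (1 - z) := by rw [show z ^ 2 = 1 - z by linarith]
      _ = z - z ^ 2 := by ring
      _ = 2 * z - 1 := by linarith
  have e4 : z ^ 4 = 2 - 3 * z := by
    calc z ^ 4 = z * z ^ 3 := by ring
      _ = z * (2 * z - 1) := by rw [e3]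
      _ = 2 * z ^ 2 - z := by ring
      _ = 2 - 3 * z := by linarith
  have e6 : z ^ 6 = 5 - 8 * z := by
    calc z ^ 6 = z ^ 3 * z ^ 3 := by ring
      _ = (2 * z - 1) * (2 * z - 1) := by rw [e3]
      _ = 4 * z ^ 2 - 4 * z + 1 := by ring
      _ = 5 - 8 * z := by linarith
  set w : ℝ := z ^ 2 + z ^ 3 + z ^ 4 with hw
  have hw1 : w = 2 - 2 * z := by rw [hw, e3, e4]; linarith
  have hw0 : 0 < w := by rw [hw]; positivity
  have hz6 : 0 < z ^ 6 := by positivity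
  -- w / z ^ 6 ≤ 1373 / 100
  have hr : w ≤ (20 / 21) * ((39 / 25 : ℝ) ^ 6) * z ^ 6 := by
    rw [hw1, e6]
    norm_num
    nlinarith
  have hr4 : (4 : ℝ) ≤ (39 / 25 : ℝ) ^ 6 := by norm_num
  have hz5 : (1 : ℝ) / 20 ≤ z ^ 5 := by
    have : z ^ 5 = 5 * z - 3 := by
      calc z ^ 5 = z * z ^ 4 := by ring
        _ = z * (2 - 3 * z) := by rw [e4]
        _ = 2 * z - 3 * z ^ 2 := by ring
        _ = 5 * z - 3 := by linarith
    rw [this]; linarith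
  refine ⟨1 + 2 * (36 * 20 * B), by positivity, fun g => ?_⟩
  set s := g / 6 with hs
  have hg : 6 * s + g % 6 = g := Nat.div_add_mod g 6
  have hgr : g % 6 ≤ 5 := by omega
  have hgs : g + 1 ≤ 6 * (s + 1) := by omega
  have hX : (0 : ℝ) < (39 / 25 : ℝ) ^ (6 * s) := by positivity
  have hXg : (39 / 25 : ℝ) ^ (6 * s) ≤ (39 / 25 : ℝ) ^ g :=
    pow_le_pow_right₀ (by norm_num) (by omega)
  have h4 : (4 : ℝ) ^ s ≤ (39 / 25 : ℝ) ^ (6 * s) := by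
    rw [pow_mul]
    exact pow_le_pow_left₀ (by norm_num) hr4 s
  have hzg : (1 : ℝ) / 20 * (z ^ 6) ^ s ≤ z ^ g := by
    have h1 : z ^ g = z ^ (g % 6) * (z ^ 6) ^ s := by
      rw [← pow_mul, ← pow_add]
      congr 1
      omega
    have h2 : z ^ 5 ≤ z ^ (g % 6) := pow_le_pow_of_le_one hz.le hz1.le hgr
    rw [h1]
    exact mul_le_mul_of_nonneg_right (hz5.trans h2) (by positivity)
  have hws : w ^ s ≤ (20 / 21 : ℝ) ^ s * (39 / 25 : ℝ) ^ (6 * s) * (z ^ 6) ^ s := by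
    rw [pow_mul, ← mul_pow, ← mul_pow]
    exact pow_le_pow_left₀ hw0.le hr s
  have hmain : ((g : ℝ) + 1) ^ 2 * w ^ s / z ^ g ≤ 36 * 20 * B * (39 / 25 : ℝ) ^ (6 * s) := by
    rw [div_le_iff₀ (by positivity)]
    have h1 : ((g : ℝ) + 1) ≤ 6 * ((s : ℝ) + 1) := by exact_mod_cast hgs
    have h2 : ((g : ℝ) + 1) ^ 2 ≤ 36 * ((s : ℝ) + 1) ^ 2 := by
      calc ((g : ℝ) + 1) ^ 2 ≤ (6 * ((s : ℝ) + 1)) ^ 2 := pow_le_pow_left₀ (by positivity) h1 2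
        _ = 36 * ((s : ℝ) + 1) ^ 2 := by ring
    have h3 := hB' s
    calc ((g : ℝ) + 1) ^ 2 * w ^ s
        ≤ (36 * ((s : ℝ) + 1) ^ 2) * ((20 / 21 : ℝ) ^ s * (39 / 25 : ℝ) ^ (6 * s) * (z ^ 6) ^ s) :=
          mul_le_mul h2 hws (by positivity) (by positivity)
      _ = 36 * (((s : ℝ) + 1) ^ 2 * (20 / 21 : ℝ) ^ s) * ((39 / 25 : ℝ) ^ (6 * s) * (z ^ 6) ^ s) := by
          ring
      _ ≤ 36 * B * ((39 / 25 : ℝ) ^ (6 * s) * (z ^ 6) ^ s) := by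
          apply mul_le_mul_of_nonneg_right _ (by positivity)
          linarith
      _ = 36 * 20 * B * (39 / 25 : ℝ) ^ (6 * s) * (1 / 20 * (z ^ 6) ^ s) := by ring
      _ ≤ 36 * 20 * B * (39 / 25 : ℝ) ^ (6 * s) * z ^ g :=
          mul_le_mul_of_nonneg_left hzg (by positivity)
  have hfin : (1 + 2 * (36 * 20 * B)) * (39 / 25 : ℝ) ^ (6 * s) ≤
      (1 + 2 * (36 * 20 * B)) * (39 / 25 : ℝ) ^ g := mul_le_mul_of_nonneg_left hXg (by positivity)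
  linarith

end Pool.Agent.Lib.MP_eee9c1_co.TP
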